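import Mathlib
import Pool.Agent.Y703.CQ.Stm

/-!
# Project ND (helper973): natural density, all squarefree numbers `≡ 1` modulo `4` prime to `7`

`D` runs over all the positive squarefree numbers `≡ 1` modulo `4` prime to `7`. To the set of the
prime factors of `D` we attach a linear system over the field with two elements (the Selmer group of
the twist of `X_0(49)` by `D` over `ℚ(√-7)`), in terms of the symbols `nr p q` (rational quadratic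
residues) and `A p q` (symbols of primes of `ℚ(√-7)` above `p` and `q`); it has only the zero solution
for exactly the proportion `c2 / 2 = 0.2097...` of the `D`. Statements of the parts.
-/

set_option autoImplicit false
set_option linter.unusedVariables false

open scoped Classical

namespace Pool.Agent.N973.ND

open Finset
open Pool.Agent.Y703.CX (sm la jj XX eL zz kk S_SIE)
open Pool.Agent.Y703.CQ (nr sg S_SYM S_C2 c2 S_MER S_CHE)

/-- the primes prime to `14` -/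
def Pr (p : ℕ) : Prop := p.Prime ∧ p ≠ 2 ∧ p ≠ 7

/-- one if the prime splits in `ℚ(√-7)` -/
def m7 (p : ℕ) : ℕ := if p % 7 = 1 ∨ p % 7 = 2 ∨ p % 7 = 4 then 1 else 0

/-- one if the prime is `3` modulo `4` -/
def uu (p : ℕ) : ZMod 2 := if p % 4 = 3 then 1 else 0

/-- the type of a prime: `0`: inert in `ℚ(√-7)`, `1` modulo `4`; `1`: inert, `3` modulo `4`;
`2`: split, `1` modulo `4`; `3`: split, `3` modulo `4` -/
def ty (p : ℕ) : ℕ := 2 * m7 p + if p % 4 = 3 then 1 else 0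

/-- the class of the sets of primes -/
def Cl (S : Finset ℕ) : Prop := (∀ p ∈ S, Pr p) ∧ (∏ p ∈ S, p) % 4 = 1

/-- the sets of the class with product at most `X` -/
noncomputable def SS (X : ℕ) : Finset (Finset ℕ) :=
  (range (X + 1)).powerset.filter fun S => Cl S ∧ ∏ p ∈ S, p ≤ X

/-- all the sets of primes prime to `14` with product at most `X` -/
noncomputable def SA (X : ℕ) : Finset (Finset ℕ) :=
  (range (X + 1)).powerset.filter fun S => (∀ p ∈ S, Pr p) ∧ ∏ p ∈ S, p ≤ X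

/-- the number of the split primes `3` modulo `4` minus the number of the inert primes `3`
modulo `4` -/
noncomputable def kd (S : Finset ℕ) : ℤ :=
  ((S.filter fun p => ty p = 3).card : ℤ) - ((S.filter fun p => ty p = 1).card : ℤ)

/-! ### The linear algebra -/

section abs
variable {V : Type} [Fintype V]

/-- the diagonal -/
def TT (N : V → V → ZMod 2) (b : V → ZMod 2) (i : V) : ZMod 2 := b i + ∑ j, N i j

/-- the linear forms -/
def Ph (N : V → V → ZMod 2) (b : V → ZMod 2) (s : V → ZMod 2) (j : V) : ZMod 2 :=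
  ∑ i, s i * N i j + TT N b j * s j

/-- the dual kernel: `Sp` are the split primes, `Pc` the split primes `1` modulo `4` and the inert
primes `3` modulo `4` -/
def Zk (Sp Pc : Finset V) (N : V → V → ZMod 2) (b : V → ZMod 2) (s : V → ZMod 2) : Prop :=
  (∀ i, i ∉ Sp → s i = 0) ∧ ∀ j ∈ Pc, Ph N b s j = 0

/-- the bilinear form -/
def bf (N E : V → V → ZMod 2) (b : V → ZMod 2) (y s : V → ZMod 2) : ZMod 2 :=
  ∑ i, b i * (y i * s i) + ∑ i, ∑ j, y i * E i j * s j + ∑ j, Ph N b y j * Ph N b s j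

/-- the kernel -/
def Wk (Sp Pc : Finset V) (N : V → V → ZMod 2) (b : V → ZMod 2) (x : V → ZMod 2) : Prop :=
  (∀ j, j ∉ Pc → x j = 0) ∧ ∀ i ∈ Sp, ∑ j, N i j * x j + TT N b i * x i = 0

/-- the good systems -/
def Gv (Sp Pc : Finset V) (N E : V → V → ZMod 2) (b : V → ZMod 2) : Prop :=
  (∀ x, Wk Sp Pc N b x → ∀ j, x j = 0) ∧
  ∀ s, Zk Sp Pc N b s → (∀ y, Zk Sp Pc N b y → bf N E b y s = 0) → ∀ j, s j = 0

/-- the good systems attached to a family of primes -/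
def GR (A : ℕ → ℕ → ZMod 2) (b : ℕ → ZMod 2) (r : V → ℕ) : Prop :=
  Gv (univ.filter fun i => m7 (r i) = 1) (univ.filter fun i => ty (r i) = 2 ∨ ty (r i) = 1)
    (fun i j => nr (r j) (r i)) (fun i j => if i = j then 0 else A (r i) (r j) + nr (r j) (r i))
    (fun i => b (r i))

end abs

/-- the good sets -/
def Gd (A : ℕ → ℕ → ZMod 2) (b : ℕ → ZMod 2) (S : Finset ℕ) : Prop := GR A b fun i : S => (i : ℕ)

/-- the good sets of the class: `kd` is not negative -/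
def S_NEG : Prop := ∀ (A : ℕ → ℕ → ZMod 2) (b : ℕ → ZMod 2) (S : Finset ℕ), (∀ p ∈ S, Pr p) →
  Gd A b S → 0 ≤ kd S

/-- the slots for the free symbols: `false` for `nr`, `true` for `A` -/
noncomputable def sl {ι : Type} [Fintype ι] [LinearOrder ι] (J1 : Finset ι) :
    Finset ((ι × ι) × Bool) :=
  univ.filter fun e => e.1.1 < e.1.2 ∧ (e.2 = true → e.1.1 ∈ J1 ∧ e.1.2 ∈ J1)

/-- the symmetric extension of the free symbols -/
noncomputable def sx {ι : Type} [Fintype ι] [LinearOrder ι] {J1 : Finset ι} (σ : sl J1 → ZMod 2)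
    (c : Bool) (k l : ι) : ZMod 2 :=
  if h : ((k, l), c) ∈ sl J1 then σ ⟨((k, l), c), h⟩
  else if h' : ((l, k), c) ∈ sl J1 then σ ⟨((l, k), c), h'⟩ else 0

/-- a function of two indices, changed on the large indices -/
noncomputable def pt {U ι : Type} (F : U ⊕ ι → U ⊕ ι → ZMod 2) (δ : ι → ι → ZMod 2) :
    U ⊕ ι → U ⊕ ι → ZMod 2
  | Sum.inr k, Sum.inr l => F (Sum.inr k) (Sum.inr l) + δ k l
  | i, j => F i j

/-- ND-ALT: the number of the nonsingular alternating matrices over the field with two elements. -/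
def S_ALT : Prop := ∀ m : ℕ,
  (Nat.card {M : Matrix (Fin (2 * m)) (Fin (2 * m)) (ZMod 2) // M.IsSymm ∧ (∀ i, M i i = 0) ∧
      M.det ≠ 0} : ℝ) =
    2 ^ (m * (2 * m - 1)) * ∏ i ∈ range m, (1 - (1 / 2 : ℝ) ^ (2 * i + 1))

/-- ND-LA: the probability that a random completion is good. -/
def S_LA : Prop := ∀ (U J : Type) [Fintype U] [Fintype J] [LinearOrder J] (J1 : Finset J)
  (Sp Pc : Finset (U ⊕ J)) (u : U ⊕ J → ZMod 2) (N E : U ⊕ J → U ⊕ J → ZMod 2)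
  (b : U ⊕ J → ZMod 2) (m : ℕ),
  (∀ k, Sum.inr k ∈ Sp ↔ k ∈ J1) →
  (∀ i, i ∈ Pc ↔ ((i ∈ Sp ∧ u i = 0) ∨ (i ∉ Sp ∧ u i = 1))) →
  (∀ i, N i i = 0) → (∀ i j, i ≠ j → N j i = N i j + u i * u j) →
  (∀ i, E i i = 0) → (∀ i ∈ Sp, ∀ j ∈ Sp, E i j = E j i) →
  (∀ w : U → ZMod 2, (∃ v, w v ≠ 0) → ∃ k ∈ J1, u (Sum.inr k) = 0 ∧
    ∑ v, w v * N (Sum.inl v) (Sum.inr k) ≠ 0) →
  (∃ k, k ∉ J1 ∧ u (Sum.inr k) = 0) → Sp.card = Pc.card + 2 * m →
  |((univ.filter fun σ : sl J1 → ZMod 2 => Gv Sp Pc (pt N (sx σ false))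
      (pt E fun k l => sx σ false k l + sx σ true k l) b).card : ℝ) / 2 ^ (sl J1).card - c2| ≤
    2 * (1 / 4 : ℝ) ^ m

/-! ### Equidistribution -/

/-- ND-BIL: the bilinear bound for the symbols. -/
def BilP (A : ℕ → ℕ → ZMod 2) (C : ℝ) : Prop := 1 ≤ C ∧
  ∀ (P Q : Finset ℕ) (X Y z : ℕ) (c d : ℕ → ℂ) (α β : ZMod 2),
  (∀ p ∈ P, Pr p ∧ p ≤ X) → (∀ q ∈ Q, Pr q ∧ q ≤ Y) → Disjoint P Q → (α ≠ 0 ∨ β ≠ 0) →
  (β ≠ 0 → (∀ p ∈ P, m7 p = 1) ∧ ∀ q ∈ Q, m7 q = 1) → 1 ≤ z → z ≤ X → z ≤ Y →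
  (∀ p, ‖c p‖ ≤ 1) → (∀ q, ‖d q‖ ≤ 1) →
  ‖∑ p ∈ P, ∑ q ∈ Q, c p * d q * sg (α * nr p q + β * A p q)‖ ^ 24 * z ≤ C * ((X : ℝ) * Y) ^ 24

/-- the reciprocity law of the symbols -/
def RecA (A : ℕ → ℕ → ZMod 2) : Prop := ∀ p q : ℕ, Pr p → Pr q → p ≠ q → m7 p = 1 → m7 q = 1 →
  A q p = A p q + uu p * uu q

/-- the bilinear hypothesis for a box -/
def HB (A : ℕ → ℕ → ZMod 2) {ι : Type} (J1 : Finset ι) (C : ι → Finset ℕ) (X : ι → ℕ) (κ : ℝ) :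
    Prop :=
  ∀ i l : ι, i ≠ l → ∀ (α β : ZMod 2) (c d : ℕ → ℂ), (α ≠ 0 ∨ β ≠ 0) →
    (β ≠ 0 → i ∈ J1 ∧ l ∈ J1) → (∀ p, ‖c p‖ ≤ 1) → (∀ q, ‖d q‖ ≤ 1) →
    ‖∑ x ∈ C i, ∑ y ∈ C l, c x * d y * sg (α * nr x y + β * A x y)‖ ≤ κ * (X i * X l)

/-- the symbol of a slot -/
noncomputable def sys (A : ℕ → ℕ → ZMod 2) (c : Bool) (x y : ℕ) : ZMod 2 := if c then A x y else nr x y

/-- ND-EQ: equidistribution of the symbols of a tuple. -/
def S_EQ : Prop := ∀ (A : ℕ → ℕ → ZMod 2) (ι : Type) [Fintype ι] [LinearOrder ι] (J1 : Finset ι)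
  (C : ι → Finset ℕ) (X : ι → ℕ) (κ : ℝ), 0 ≤ κ → (∀ i, (C i).card ≤ X i) → HB A J1 C X κ →
  ∀ Q : (sl J1 → ZMod 2) → Prop,
    |(((Fintype.piFinset C).filter fun p => Q fun e => sys A e.1.2 (p e.1.1.1) (p e.1.1.2)).card : ℝ) -
      ((univ.filter Q).card : ℝ) / 2 ^ (sl J1).card * ∏ j, ((C j).card : ℝ)| ≤
    2 ^ (sl J1).card * (κ * ∏ j, (X j : ℝ))

/-- the labels of the large primes with respect to the small ones are not degenerate -/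
def Nd (S₀ S₁ : Finset ℕ) : Prop :=
  ∀ w : ℕ → ZMod 2, (∃ u ∈ S₀, w u ≠ 0) → ∃ p ∈ S₁, ty p = 2 ∧ ∑ u ∈ S₀, w u * nr p u ≠ 0

/-- ND-BOX: the count in a box; the type `τ` of the primes is fixed. -/
def S_BOX : Prop := S_EQ → S_LA → ∀ (A : ℕ → ℕ → ZMod 2) (b : ℕ → ZMod 2) (ι : Type) [Fintype ι]
  [LinearOrder ι] (τ : ι → ℕ) (C : ι → Finset ℕ) (X : ι → ℕ) (κ : ℝ) (S₀ : Finset ℕ) (m : ℕ),
  RecA A → 0 ≤ κ → (∀ i, (C i).card ≤ X i) →
  HB A (univ.filter fun i => τ i = 2 ∨ τ i = 3) C X κ → (∀ v ∈ S₀, Pr v) →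
  (∀ i, ∀ p ∈ C i, Pr p ∧ p ∉ S₀ ∧ ty p = τ i) →
  (∀ i l, i ≠ l → Disjoint (C i) (C l)) → (∃ i, τ i = 0) →
  kd S₀ + ((univ.filter fun i => τ i = 3).card : ℤ) - ((univ.filter fun i => τ i = 1).card : ℤ) =
    2 * m →
  |(((Fintype.piFinset C).filter fun p => Nd S₀ (univ.image p) ∧
        Gd A b (S₀ ∪ univ.image p)).card : ℝ) -
      c2 * (((Fintype.piFinset C).filter fun p => Nd S₀ (univ.image p)).card : ℝ)| ≤
    2 * (1 / 4 : ℝ) ^ m * (((Fintype.piFinset C).filter fun p => Nd S₀ (univ.image p)).card : ℝ) +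
    2 ^ ((4 * S₀.card + 1) * Fintype.card ι + (sl (univ.filter fun i => τ i = 2 ∨ τ i = 3)).card) *
      (κ * ∏ j, (X j : ℝ))

/-- the regular sets -/
noncomputable def RR (X z H k V : ℕ) : Finset (Finset ℕ) :=
  (SS X).filter fun S => Set.InjOn (jj H) (la z S : Set ℕ) ∧ S.card ≤ k ∧
    (∏ p ∈ sm z S, p) * ∏ p ∈ la z S, XX H (jj H p) ≤ X ∧ 2 * (V : ℤ) ≤ kd S ∧
    ∃ p ∈ la z S, ty p = 0

/-- ND-KEY: the sum over the boxes. -/
def S_KEY : Prop := S_EQ → S_LA → S_BOX → ∀ (A : ℕ → ℕ → ZMod 2) (b : ℕ → ZMod 2) (C : ℝ),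
  RecA A → BilP A C →
  ∀ (X z H k V N : ℕ) (κ : ℝ), 1 ≤ X → 1 ≤ H → 1 ≤ z → 0 ≤ κ → C ≤ κ ^ 24 * z →
  (H : ℝ) * Real.log X < N →
  |(((RR X z H k V).filter fun S => Nd (sm z S) (la z S) ∧ Gd A b S).card : ℝ) -
      c2 * (((RR X z H k V).filter fun S => Nd (sm z S) (la z S)).card : ℝ)| ≤
    2 * (1 / 4 : ℝ) ^ V * ((RR X z H k V).card : ℝ) +
    (9 * N + 9 : ℝ) ^ k * (3 ^ (9 * k ^ 2 + 9) * κ) * (X * (1 + Real.log X))

/-- ND-CNT: sets with many primes, sets near the boundary, sets with two primes in a block. -/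
structure CntP : Prop where
  many : ∀ X k : ℕ, 1 ≤ X →
    (((SA X).filter fun S => k < S.card).card : ℝ) * 2 ^ k ≤ X * (1 + Real.log X)
  cut : ∀ X z H k : ℕ, 1 ≤ X → 1 ≤ H → (((SA X).filter fun S => S.card ≤ k ∧
      X < (∏ p ∈ sm z S, p) * ∏ p ∈ la z S, XX H (jj H p)).card : ℝ) ≤ X * k / H + 1
  coll : ∀ X z H : ℕ, 1 ≤ X → 1 ≤ H → (((SA X).filter fun S =>
    ¬ Set.InjOn (jj H) (la z S : Set ℕ)).card : ℝ) ≤ 4 * X * (1 + Real.log X) / H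

/-- the sets of split primes `1` modulo `4` on which the product of the primes in `W` is a square -/
noncomputable def HD (W : Finset ℕ) (T : ℕ) : Finset (Finset ℕ) :=
  (range (T + 1)).powerset.filter fun S => (∀ p ∈ S, Pr p ∧ ty p = 2 ∧ p ∉ W ∧
    ∑ u ∈ W, nr p u = 0) ∧ ∏ p ∈ S, p ≤ T

/-- ND-HAL: the logarithmic density for a nontrivial quadratic character. -/
def S_HAL : Prop := ∃ C : ℝ, 1 ≤ C ∧ ∀ (W : Finset ℕ) (T : ℕ), W.Nonempty →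
  (∀ u ∈ W, Pr u) → 2 ≤ T →
  ∑ S ∈ HD W T, (1 : ℝ) / ((∏ p ∈ S, p : ℕ) : ℝ) ≤
    C * (Real.log ((∏ u ∈ W, u : ℕ) : ℝ)) ^ (1 / 2 : ℝ) * (Real.log T) ^ (1 / 8 : ℝ)

/-- ND-BAD: few sets have degenerate labels. -/
def S_BAD : Prop := S_SIE → S_HAL → S_MER →
  ∀ ε : ℝ, 0 < ε → ∃ X₀ : ℕ, ∀ X : ℕ, X₀ ≤ X →
  (((SA X).filter fun S => S.card ≤ kk X ∧ ¬ Nd (sm (zz X) S) (la (zz X) S)).card : ℝ) ≤ ε * X

/-- ND-FEW: few sets have no large inert prime `1` modulo `4`. -/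
def S_FEW : Prop := S_SIE → S_MER → ∀ ε : ℝ, 0 < ε → ∃ X₀ : ℕ, ∀ X : ℕ, X₀ ≤ X →
  (((SA X).filter fun S => ∀ p ∈ la (zz X) S, ty p ≠ 0).card : ℝ) ≤ ε * X

/-- ND-LOW: the class has positive density. -/
def S_LOW : Prop := ∃ (c : ℝ) (X₀ : ℕ), 0 < c ∧ ∀ X : ℕ, X₀ ≤ X → c * X ≤ ((SS X).card : ℝ)

/-- ND-KD: the distribution of `kd`. -/
def S_KD : Prop := ∀ (V : ℕ) (ε : ℝ), 0 < ε → ∃ X₀ : ℕ, ∀ X : ℕ, X₀ ≤ X →
  |(((SS X).filter fun S => 2 * (V : ℤ) ≤ kd S).card : ℝ) - (1 / 2) * ((SS X).card : ℝ)| ≤ ε * X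

/-- FINAL: the proportion of the good sets -/
def S_DQ : Prop := ∀ (A : ℕ → ℕ → ZMod 2) (b : ℕ → ZMod 2) (C : ℝ), RecA A → BilP A C →
  Filter.Tendsto (fun X : ℕ => (((SS X).filter (Gd A b)).card : ℝ) / ((SS X).card : ℝ))
    Filter.atTop (nhds (c2 / 2))

/-- FINAL, in terms of the numbers `D`. -/
def S_DEN : Prop := ∀ (A : ℕ → ℕ → ZMod 2) (b : ℕ → ZMod 2) (C : ℝ), RecA A → BilP A C →
  Filter.Tendsto
  (fun X : ℕ => (((Icc 1 X).filter fun D => Squarefree D ∧ D % 4 = 1 ∧ ¬ 7 ∣ D ∧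
      Gd A b D.primeFactors).card : ℝ) /
    (((Icc 1 X).filter fun D => Squarefree D ∧ D % 4 = 1 ∧ ¬ 7 ∣ D).card : ℝ))
  Filter.atTop (nhds (c2 / 2))

/-- ND-NS: the translation. -/
def S_NS : Prop := S_DQ → S_DEN

theorem m7_le (p : ℕ) : m7 p ≤ 1 := by
  unfold m7
  split_ifs <;> norm_num

theorem ty_lt (p : ℕ) : ty p < 4 := by
  have := m7_le p
  unfold ty
  split_ifs <;> omega

end Pool.Agent.N973.ND
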