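import Pool.Agent.N973.ND.LA2

/-!
# ND-BOX: transport of the linear systems
-/

set_option autoImplicit false
set_option linter.unusedSectionVars false

open scoped Classical

namespace Pool.Agent.N973.ND

open Finset
open Pool.Agent.Y703.CQ (nr sg c2)

/-- quadratic reciprocity -/
theorem nr_rec {p q : ℕ} (hp : p.Prime) (hp2 : p ≠ 2) (hq : q.Prime) (hq2 : q ≠ 2) (hpq : p ≠ q) :
    nr q p = nr p q + uu p * uu q := by
  have hpf : Fact p.Prime := ⟨hp⟩
  have hqf : Fact q.Prime := ⟨hq⟩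
  have h1 : ∀ {a b : ℕ} [Fact a.Prime] [Fact b.Prime], a ≠ b →
      (nr a b = 0 ↔ legendreSym a b = 1) := by
    intro a b ha hb hab
    have hne : ((b : ℤ) : ZMod a) ≠ 0 := by
      rw [Int.cast_natCast, Ne, ZMod.natCast_eq_zero_iff]
      intro h
      exact hab ((Nat.prime_dvd_prime_iff_eq ha.out hb.out).1 h)
    rw [legendreSym.eq_one_iff a hne, Int.cast_natCast]
    unfold nr
    split_ifs with h
    · exact ⟨fun _ => h, fun _ => rfl⟩
    · exact ⟨fun h' => absurd h' (by decide), fun h' => absurd h' h⟩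
  have h2 : ∀ {a b : ℕ} [Fact a.Prime] [Fact b.Prime], a ≠ b →
      legendreSym a b = 1 ∨ legendreSym a b = -1 := by
    intro a b ha hb hab
    have hne : ((b : ℤ) : ZMod a) ≠ 0 := by
      rw [Int.cast_natCast, Ne, ZMod.natCast_eq_zero_iff]
      intro h
      exact hab ((Nat.prime_dvd_prime_iff_eq ha.out hb.out).1 h)
    exact legendreSym.eq_one_or_neg_one a hne
  have hmod : ∀ {a : ℕ}, a.Prime → a ≠ 2 → a % 4 = 1 ∨ a % 4 = 3 := by
    intro a ha ha2
    have := ha.eq_two_or_odd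
    omega
  have hval : ∀ x : ZMod 2, x = 0 ∨ x = 1 := z2
  have key : legendreSym q p * legendreSym p q = (-1) ^ (p / 2 * (q / 2)) :=
    legendreSym.quadratic_reciprocity hp2 hq2 hpq
  have hpar : ((-1 : ℤ) ^ (p / 2 * (q / 2)) = 1 ↔ uu p * uu q = 0) := by
    unfold uu
    rcases hmod hp hp2 with h3 | h3 <;> rcases hmod hq hq2 with h4 | h4
    · have : Even (p / 2 * (q / 2)) := (Nat.even_iff.2 (by omega)).mul_right _
      rw [this.neg_one_pow, if_neg (by omega), if_neg (by omega)]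
      simp
    · have : Even (p / 2 * (q / 2)) := (Nat.even_iff.2 (by omega)).mul_right _
      rw [this.neg_one_pow, if_neg (by omega)]
      simp
    · have : Even (p / 2 * (q / 2)) := (Nat.even_iff.2 (by omega)).mul_left _
      rw [this.neg_one_pow, if_neg (by omega : ¬ q % 4 = 3)]
      simp
    · have : Odd (p / 2 * (q / 2)) := (Nat.odd_iff.2 (by omega)).mul (Nat.odd_iff.2 (by omega))
      rw [this.neg_one_pow, if_pos h3, if_pos h4]
      simp
  have a1 := h1 (a := p) (b := q) hpq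
  have a2 := h1 (a := q) (b := p) hpq.symm
  rcases h2 (a := p) (b := q) hpq with b1 | b1 <;> rcases h2 (a := q) (b := p) hpq.symm with b2 | b2
  · rw [b1, b2] at key
    rw [a1.2 b1, a2.2 b2, hpar.1 (by rw [← key]; norm_num), add_zero]
  · rw [b1, b2] at key
    have c1 : nr q p = 1 := (z2_ne _).1 fun h => by rw [a2.1 h] at b2; norm_num at b2
    have c2 : uu p * uu q = 1 := (z2_ne _).1 fun h => by
      rw [hpar.2 h] at key; norm_num at key
    rw [a1.2 b1, c1, c2, zero_add]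
  · rw [b1, b2] at key
    have c1 : nr p q = 1 := (z2_ne _).1 fun h => by rw [a1.1 h] at b1; norm_num at b1
    have c2 : uu p * uu q = 1 := (z2_ne _).1 fun h => by
      rw [hpar.2 h] at key; norm_num at key
    rw [a2.2 b2, c1, c2]
    decide
  · rw [b1, b2] at key
    have c1 : nr q p = 1 := (z2_ne _).1 fun h => by rw [a2.1 h] at b2; norm_num at b2
    have c2 : nr p q = 1 := (z2_ne _).1 fun h => by rw [a1.1 h] at b1; norm_num at b1
    rw [c1, c2, hpar.1 (by rw [← key]; norm_num), add_zero]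

theorem nr_self (p : ℕ) : nr p p = 0 := by
  unfold nr
  rw [if_pos]
  rw [ZMod.natCast_self]
  exact ⟨0, by simp⟩

section transport

variable {V V' : Type} [Fintype V] [Fintype V']

theorem Wk_tr (e : V ≃ V') {Sp Pc : Finset V} {Sp' Pc' : Finset V'} {N : V → V → ZMod 2}
    {N' : V' → V' → ZMod 2} {b : V → ZMod 2} {b' : V' → ZMod 2}
    (hS : ∀ i, e i ∈ Sp' ↔ i ∈ Sp) (hP : ∀ i, e i ∈ Pc' ↔ i ∈ Pc)
    (hN : ∀ i j, N' (e i) (e j) = N i j) (hb : ∀ i, b' (e i) = b i) {x : V' → ZMod 2}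
    (h : Wk Sp' Pc' N' b' x) : Wk Sp Pc N b fun i => x (e i) := by
  obtain ⟨h1, h2⟩ := h
  refine ⟨fun j hj => h1 _ fun h => hj ((hP j).1 h), fun i hi => ?_⟩
  have h3 := h2 (e i) ((hS i).2 hi)
  unfold TT at h3 ⊢
  rw [← Equiv.sum_comp e, ← Equiv.sum_comp e (fun j => N' (e i) j)] at h3
  simp only [hN, hb] at h3
  exact h3

theorem Ph_tr (e : V ≃ V') {N : V → V → ZMod 2}
    {N' : V' → V' → ZMod 2} {b : V → ZMod 2} {b' : V' → ZMod 2}
    (hN : ∀ i j, N' (e i) (e j) = N i j) (hb : ∀ i, b' (e i) = b i) (s : V' → ZMod 2) (j : V) :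
    Ph N' b' s (e j) = Ph N b (fun i => s (e i)) j := by
  unfold Ph TT
  rw [← Equiv.sum_comp e, ← Equiv.sum_comp e (fun i => N' (e j) i)]
  simp only [hN, hb]

theorem Zk_tr (e : V ≃ V') {Sp Pc : Finset V} {Sp' Pc' : Finset V'} {N : V → V → ZMod 2}
    {N' : V' → V' → ZMod 2} {b : V → ZMod 2} {b' : V' → ZMod 2}
    (hS : ∀ i, e i ∈ Sp' ↔ i ∈ Sp) (hP : ∀ i, e i ∈ Pc' ↔ i ∈ Pc)
    (hN : ∀ i j, N' (e i) (e j) = N i j) (hb : ∀ i, b' (e i) = b i) (s : V' → ZMod 2) :
    Zk Sp' Pc' N' b' s ↔ Zk Sp Pc N b fun i => s (e i) := by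
  constructor
  · rintro ⟨h1, h2⟩
    refine ⟨fun i hi => h1 _ fun h => hi ((hS i).1 h), fun j hj => ?_⟩
    rw [← Ph_tr e hN hb]
    exact h2 _ ((hP j).2 hj)
  · rintro ⟨h1, h2⟩
    refine ⟨fun i hi => ?_, fun j hj => ?_⟩
    · have h3 : s (e (e.symm i)) = 0 := h1 (e.symm i) fun h =>
        hi (by rw [← hS, e.apply_symm_apply] at h; exact h)
      rwa [e.apply_symm_apply] at h3
    · have h3 := h2 (e.symm j) (by rw [← hP, e.apply_symm_apply]; exact hj)
      rwa [← Ph_tr e hN hb, e.apply_symm_apply] at h3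

theorem bf_tr (e : V ≃ V') {N E : V → V → ZMod 2}
    {N' E' : V' → V' → ZMod 2} {b : V → ZMod 2} {b' : V' → ZMod 2}
    (hN : ∀ i j, N' (e i) (e j) = N i j) (hE : ∀ i j, E' (e i) (e j) = E i j)
    (hb : ∀ i, b' (e i) = b i) (y s : V' → ZMod 2) :
    bf N' E' b' y s = bf N E b (fun i => y (e i)) fun i => s (e i) := by
  unfold bf
  rw [← Equiv.sum_comp e, ← Equiv.sum_comp e (fun i => ∑ j, y i * E' i j * s j),
    ← Equiv.sum_comp e (fun j => Ph N' b' y j * Ph N' b' s j)]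
  have h1 : ∀ i : V, ∑ j, y (e i) * E' (e i) j * s j = ∑ j, y (e i) * E i j * s (e j) := by
    intro i
    rw [← Equiv.sum_comp e]
    simp only [hE]
  simp only [h1, hb, Ph_tr e hN hb]

theorem Gv_tr (e : V ≃ V') {Sp Pc : Finset V} {Sp' Pc' : Finset V'} {N E : V → V → ZMod 2}
    {N' E' : V' → V' → ZMod 2} {b : V → ZMod 2} {b' : V' → ZMod 2}
    (hS : ∀ i, e i ∈ Sp' ↔ i ∈ Sp) (hP : ∀ i, e i ∈ Pc' ↔ i ∈ Pc)
    (hN : ∀ i j, N' (e i) (e j) = N i j) (hE : ∀ i j, E' (e i) (e j) = E i j)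
    (hb : ∀ i, b' (e i) = b i) (h : Gv Sp Pc N E b) : Gv Sp' Pc' N' E' b' := by
  obtain ⟨h1, h2⟩ := h
  refine ⟨fun x hx j => ?_, fun s hs hy j => ?_⟩
  · have h3 : x (e (e.symm j)) = 0 := h1 _ (Wk_tr e hS hP hN hb hx) (e.symm j)
    rwa [e.apply_symm_apply] at h3
  · have h3 : s (e (e.symm j)) = 0 := h2 _ ((Zk_tr e hS hP hN hb s).1 hs) (fun y hy' => by
      have h4 := hy (fun i => y (e.symm i)) ((Zk_tr e hS hP hN hb _).2 (by
        simp only [e.symm_apply_apply]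
        exact hy'))
      rw [bf_tr e hN hE hb] at h4
      simp only [e.symm_apply_apply] at h4
      exact h4) (e.symm j)
    rwa [e.apply_symm_apply] at h3

theorem GR_tr (e : V ≃ V') (A : ℕ → ℕ → ZMod 2) (b : ℕ → ZMod 2) {r : V → ℕ} {r' : V' → ℕ}
    (hr : ∀ i, r' (e i) = r i) (h : GR A b r) : GR A b r' := by
  refine Gv_tr e ?_ ?_ ?_ ?_ ?_ h
  · intro i
    simp only [mem_filter, mem_univ, true_and, hr]
  · intro i
    simp only [mem_filter, mem_univ, true_and, hr]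
  · intro i j
    rw [hr, hr]
  · intro i j
    rw [hr, hr]
    by_cases h1 : i = j
    · rw [if_pos h1, if_pos (congrArg e h1)]
    · rw [if_neg h1, if_neg fun h2 => h1 (e.injective h2)]
  · intro i
    rw [hr]

theorem GR_iff (e : V ≃ V') (A : ℕ → ℕ → ZMod 2) (b : ℕ → ZMod 2) {r : V → ℕ} {r' : V' → ℕ}
    (hr : ∀ i, r' (e i) = r i) : GR A b r ↔ GR A b r' :=
  ⟨GR_tr e A b hr, GR_tr e.symm A b fun i => by rw [← hr, e.apply_symm_apply]⟩

/-- the good sets from a parametrization -/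
theorem Gd_iff (A : ℕ → ℕ → ZMod 2) (b : ℕ → ZMod 2) {r : V → ℕ} (hr : Function.Injective r)
    {S : Finset ℕ} (hS : univ.image r = S) : Gd A b S ↔ GR A b r := by
  unfold Gd
  have h1 : ∀ i, r i ∈ S := fun i => by
    rw [← hS]
    exact mem_image_of_mem _ (mem_univ _)
  have h2 : Function.Bijective fun i : V => (⟨r i, h1 i⟩ : S) := by
    constructor
    · intro i j h
      exact hr (congrArg Subtype.val h)
    · rintro ⟨x, hx⟩
      rw [← hS, mem_image] at hx
      obtain ⟨i, -, rfl⟩ := hx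
      exact ⟨i, rfl⟩
  exact (GR_iff (Equiv.ofBijective _ h2) A b fun i => rfl).symm

end transport

/-- only the values at the split primes matter -/
theorem Gv_congr {V : Type} [Fintype V] {Sp Pc : Finset V} {N E E' : V → V → ZMod 2}
    {b : V → ZMod 2} (hE : ∀ i ∈ Sp, ∀ j ∈ Sp, E i j = E' i j) (h : Gv Sp Pc N E b) :
    Gv Sp Pc N E' b := by
  refine ⟨h.1, fun s hs hy => h.2 s hs fun y hy' => ?_⟩
  have h1 := hy y hy'
  have h2 : ∑ i, ∑ j, y i * E i j * s j = ∑ i, ∑ j, y i * E' i j * s j := by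
    refine sum_congr rfl fun i _ => sum_congr rfl fun j _ => ?_
    by_cases hi : i ∈ Sp
    · by_cases hj : j ∈ Sp
      · rw [hE i hi j hj]
      · rw [hs.1 j hj, mul_zero, mul_zero]
    · rw [hy'.1 i hi, zero_mul, zero_mul, zero_mul, zero_mul]
  unfold bf at h1 ⊢
  rw [h2]
  exact h1

end Pool.Agent.N973.ND
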