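import Pool.Agent.N973.ND.Stm
import Pool.Agent.R426.QK.Asy

/-!
# ND: the final asymptotics (after projects CX, SQ and QK)
-/

set_option autoImplicit false

open scoped Classical
open Finset Filter

namespace Pool.Agent.N973.ND.Asy

open Pool.Agent.N973.ND
open Pool.Agent.Y703.CQ (nr sg S_SYM S_C2 c2 S_MER S_CHE)
open Pool.Agent.Y703.CX (sm la jj XX eL zz kk S_SIE eL_tendsto logX_eq rpow_eL HH NN ev_eL one_le_exp
  HH_ge HH_le HH_pos kk_ge kk_le X_pos one_add_log lin_le zz_ge zz_pos)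
open Pool.Agent.R426.QK.Asy (Sml sml_of sml_add sml_eps kap kap_nonneg kap_pow sml_main)

theorem SS_sub (X : ℕ) : SS X ⊆ SA X := by
  intro S hS
  unfold SS SA at *
  rw [mem_filter] at hS ⊢
  exact ⟨hS.1, hS.2.1.1, hS.2.2⟩

/-- sets with many primes -/
theorem sml_many (h : CntP) : Sml 0 fun X => (((SA X).filter fun S => kk X < S.card).card : ℝ) := by
  apply sml_of (C := 2) (a := 1) (by norm_num)
  filter_upwards [ev_eL 1] with X hX
  have h0 : 0 < eL X := by linarith
  have h1 := h.many X (kk X) (X_pos h0)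
  have h2 : Real.exp (2 * eL X) ≤ 2 ^ kk X := by
    have e : (2 : ℝ) ^ kk X = Real.exp (kk X * Real.log 2) := by
      rw [mul_comm, Real.exp_mul, Real.exp_log (by norm_num), Real.rpow_natCast]
    rw [e]
    apply Real.exp_le_exp.2
    have h3 := kk_ge X
    have h4 := Real.log_two_gt_d9
    nlinarith
  have hX0 : (0 : ℝ) ≤ X := Nat.cast_nonneg _
  have h5 : (((SA X).filter fun S => kk X < S.card).card : ℝ) * Real.exp (2 * eL X) ≤
      X * (2 * Real.exp (eL X)) := by
    calc _ ≤ (((SA X).filter fun S => kk X < S.card).card : ℝ) * 2 ^ kk X := by gcongr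
      _ ≤ X * (1 + Real.log X) := h1
      _ ≤ _ := mul_le_mul_of_nonneg_left (one_add_log h0) hX0
  have h6 : (2 : ℝ) * (X * Real.exp (-1 * eL X)) * Real.exp (2 * eL X) = X * (2 * Real.exp (eL X)) := by
    have e : Real.exp (-1 * eL X) * Real.exp (2 * eL X) = Real.exp (eL X) := by
      rw [← Real.exp_add]; congr 1; ring
    calc _ = 2 * X * (Real.exp (-1 * eL X) * Real.exp (2 * eL X)) := by ring
      _ = _ := by rw [e]; ring
  rw [← h6] at h5
  exact le_of_mul_le_mul_right h5 (Real.exp_pos _)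

/-- sets near the boundary -/
theorem sml_cut (h : CntP) : Sml 0 fun X => (((SA X).filter fun S => S.card ≤ kk X ∧
    X < (∏ p ∈ sm (zz X) S, p) * ∏ p ∈ la (zz X) S, XX (HH X) (jj (HH X) p)).card : ℝ) := by
  apply sml_of (C := 2) (a := 1) (by norm_num)
  have hlog : ∀ᶠ X : ℕ in atTop, Real.exp (eL X) ≤ X := by
    filter_upwards [ev_eL 1] with X hX
    rw [← logX_eq (by linarith)]
    exact (Real.log_le_sub_one_of_pos (by exact_mod_cast X_pos (by linarith))).trans (by linarith)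
  filter_upwards [ev_eL 1, lin_le (a := 1) (b := 11) (by norm_num) (by norm_num), hlog] with X hX h11 hl
  have h0 : 0 < eL X := by linarith
  have h1 := h.cut X (zz X) (HH X) (kk X) (X_pos h0) (HH_pos h0)
  refine h1.trans ?_
  have hH := HH_ge h0
  have hHp : (0 : ℝ) < HH X := lt_of_lt_of_le (Real.exp_pos _) hH
  have hX0 : (0 : ℝ) ≤ X := Nat.cast_nonneg _
  have h2 : (X : ℝ) * kk X / HH X ≤ X * Real.exp (-1 * eL X) := by
    rw [div_le_iff₀ hHp]
    calc (X : ℝ) * kk X ≤ X * Real.exp (eL X) := by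
          have := kk_le hX
          rw [one_mul] at h11
          have : (kk X : ℝ) ≤ Real.exp (eL X) := by linarith
          gcongr
      _ ≤ X * (Real.exp (-1 * eL X) * Real.exp (3 * eL X)) := by
          rw [← Real.exp_add]
          apply mul_le_mul_of_nonneg_left _ hX0
          apply Real.exp_le_exp.2
          linarith
      _ ≤ X * Real.exp (-1 * eL X) * HH X := by
          rw [mul_assoc]
          gcongr
  have h3 : (1 : ℝ) ≤ X * Real.exp (-1 * eL X) := by
    have e : Real.exp (eL X) * Real.exp (-1 * eL X) = 1 := by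
      rw [← Real.exp_add]
      have : eL X + -1 * eL X = 0 := by ring
      rw [this, Real.exp_zero]
    calc (1 : ℝ) = Real.exp (eL X) * Real.exp (-1 * eL X) := e.symm
      _ ≤ X * Real.exp (-1 * eL X) := mul_le_mul_of_nonneg_right hl (Real.exp_pos _).le
  linarith

/-- sets with two primes in one block -/
theorem sml_coll (h : CntP) : Sml 0 fun X => (((SA X).filter fun S =>
    ¬ Set.InjOn (jj (HH X)) (la (zz X) S : Set ℕ)).card : ℝ) := by
  apply sml_of (C := 8) (a := 2) (by norm_num)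
  filter_upwards [ev_eL 1] with X hX
  have h0 : 0 < eL X := by linarith
  have h1 := h.coll X (zz X) (HH X) (X_pos h0) (HH_pos h0)
  refine h1.trans ?_
  have hH := HH_ge h0
  have hHp : (0 : ℝ) < HH X := lt_of_lt_of_le (Real.exp_pos _) hH
  have hX0 : (0 : ℝ) ≤ X := Nat.cast_nonneg _
  rw [div_le_iff₀ hHp]
  calc 4 * (X : ℝ) * (1 + Real.log X) ≤ 4 * X * (2 * Real.exp (eL X)) := by
        have := one_add_log h0
        gcongr
    _ = 8 * (X * (Real.exp (-2 * eL X) * Real.exp (3 * eL X))) := by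
        rw [← Real.exp_add]
        have : -2 * eL X + 3 * eL X = eL X := by ring
        rw [this]
        ring
    _ ≤ 8 * (X * (Real.exp (-2 * eL X) * HH X)) := by gcongr
    _ = 8 * (X * Real.exp (-2 * eL X)) * HH X := by ring

/-- the sets outside the regular part -/
theorem out_sub (X z H k V : ℕ) :
    ((SS X).filter fun S => 2 * (V : ℤ) ≤ kd S) \
      ((RR X z H k V).filter fun S => Nd (sm z S) (la z S)) ⊆
      (((((SA X).filter fun S => k < S.card) ∪
      ((SA X).filter fun S => S.card ≤ k ∧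
        X < (∏ p ∈ sm z S, p) * ∏ p ∈ la z S, XX H (jj H p))) ∪
      ((SA X).filter fun S => ¬ Set.InjOn (jj H) (la z S : Set ℕ))) ∪
      ((SA X).filter fun S => ∀ p ∈ la z S, ty p ≠ 0)) ∪
      ((SA X).filter fun S => S.card ≤ k ∧ ¬ Nd (sm z S) (la z S)) := by
  intro S hS
  rw [Finset.mem_sdiff, Finset.mem_filter, Finset.mem_filter] at hS
  obtain ⟨⟨h1', hkd⟩, h2⟩ := hS
  have h1 := SS_sub X h1'
  simp only [mem_union, mem_filter]
  by_contra hc
  push Not at hc
  obtain ⟨⟨⟨⟨c1, c2⟩, c3⟩, c4⟩, c5⟩ := hc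
  have d1 : S.card ≤ k := c1 h1
  have d2 := c2 h1 d1
  have d3 := c3 h1
  have d4 := c4 h1
  have d5 := c5 h1 d1
  apply h2
  refine ⟨?_, d5⟩
  unfold RR
  rw [mem_filter]
  exact ⟨h1', d3, d1, d2, hkd, d4⟩

/-- the comparison of the counts -/
theorem cmp (G : Finset ℕ → Prop) (T S : Finset (Finset ℕ)) (hTS : T ⊆ S) (c : ℝ) (hc0 : 0 ≤ c)
    (hc1 : c ≤ 1) :
    |((S.filter G).card : ℝ) - c * (S.card : ℝ)| ≤
      |((T.filter G).card : ℝ) - c * (T.card : ℝ)| + ((S \ T).card : ℝ) := by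
  have e1 : ((S.filter G).card : ℝ) = (T.filter G).card + ((S \ T).filter G).card := by
    rw [← Nat.cast_add, ← card_union_of_disjoint, ← filter_union, union_sdiff_of_subset hTS]
    exact disjoint_filter_filter (disjoint_sdiff)
  have e2 : (S.card : ℝ) = T.card + (S \ T).card := by
    rw [← Nat.cast_add, ← card_union_of_disjoint disjoint_sdiff, union_sdiff_of_subset hTS]
  have h1 : |(((S \ T).filter G).card : ℝ) - c * ((S \ T).card : ℝ)| ≤ ((S \ T).card : ℝ) := by
    have h2 : (((S \ T).filter G).card : ℝ) ≤ ((S \ T).card : ℝ) := by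
      exact_mod_cast card_filter_le _ _
    have h3 : (0 : ℝ) ≤ ((S \ T).card : ℝ) := Nat.cast_nonneg _
    exact Pool.Agent.Y703.CX.abs_sub_le_of (Nat.cast_nonneg _) h2 (mul_nonneg hc0 h3)
      (mul_le_of_le_one_left h3 hc1)
  have e3 : ((S.filter G).card : ℝ) - c * (S.card : ℝ) =
      (((T.filter G).card : ℝ) - c * (T.card : ℝ)) +
      ((((S \ T).filter G).card : ℝ) - c * ((S \ T).card : ℝ)) := by
    rw [e1, e2]; ring
  rw [e3]
  exact (abs_add_le _ _).trans (add_le_add le_rfl h1)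

theorem t_DQ (h3 : S_EQ) (h4 : S_LA) (h5 : S_BOX) (hK : S_KEY) (hC : CntP) (hS : S_SIE)
    (hH : S_HAL) (hB : S_BAD) (hF : S_FEW) (hM : S_MER) (hLo : S_LOW) (hKD : S_KD)
    (hN : S_NEG) (hc2 : S_C2) : S_DQ := by
  have hkey := hK h3 h4 h5
  intro A b C hA hBil
  have hC1 := hBil.1
  obtain ⟨c, X₀, hc, hlow⟩ := hLo
  rw [Metric.tendsto_nhds]
  intro ε hε
  obtain ⟨V, hV⟩ := exists_pow_lt_of_lt_one (show (0 : ℝ) < ε / 8 by linarith)
    (show (1 / 4 : ℝ) < 1 by norm_num)
  have s1 := sml_many hC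
  have s2 := sml_cut hC
  have s3 := sml_coll hC
  have s4 := sml_eps (hF hS hM)
  have s5 := sml_eps (hB hS hH hM)
  have s6 := sml_main hC1
  have s := sml_add (sml_add (sml_add (sml_add (sml_add s1 s2) s3) s4) s5) s6
  have hδ : (0 : ℝ) < c * ε / 8 := by positivity
  have hδ2 : (0 : ℝ) < c * ε / 16 := by positivity
  obtain ⟨X₁, hkd0⟩ := hKD 0 (c * ε / 16) hδ2
  obtain ⟨X₂, hkdV⟩ := hKD V (c * ε / 16) hδ2
  filter_upwards [s (c * ε / 8) hδ, ev_eL 1, eventually_ge_atTop X₀, eventually_ge_atTop X₁,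
    eventually_ge_atTop X₂] with X hX hl hX0 hX1 hX2
  rw [neg_zero, zero_mul, Real.exp_zero, mul_one] at hX
  have hl0 : 0 < eL X := by linarith
  have hlo := hlow X hX0
  obtain ⟨K0, hK0⟩ : ∃ K0 : Finset (Finset ℕ), K0 = (SS X).filter fun S => 2 * ((0 : ℕ) : ℤ) ≤ kd S :=
    ⟨_, rfl⟩
  have hk0 : |(K0.card : ℝ) - (1 / 2) * ((SS X).card : ℝ)| ≤ c * ε / 16 * X := by
    rw [hK0]
    exact hkd0 X hX1
  have hkV := hkdV X hX2
  have hXp := X_pos hl0
  have hXp' : (0 : ℝ) < X := by exact_mod_cast hXp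
  have hSpos : (0 : ℝ) < ((SS X).card : ℝ) := by
    refine lt_of_lt_of_le ?_ hlo
    positivity
  have hNN : (HH X : ℝ) * Real.log X < NN X := by
    unfold NN
    push_cast
    exact Nat.lt_floor_add_one _
  have hmain := hkey A b C hA hBil X (zz X) (HH X) (kk X) V (NN X) (kap C X) hXp (HH_pos hl0)
    (zz_pos hl) (kap_nonneg hC1 X) (kap_pow hC1 hl) hNN
  set T := (RR X (zz X) (HH X) (kk X) V).filter fun S => Nd (sm (zz X) S) (la (zz X) S) with hT
  have hTG : (RR X (zz X) (HH X) (kk X) V).filter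
      (fun S => Nd (sm (zz X) S) (la (zz X) S) ∧ Gd A b S) = T.filter (Gd A b) := by
    rw [hT, filter_filter]
  rw [hTG] at hmain
  set U := (SS X).filter (fun S => 2 * (V : ℤ) ≤ kd S) with hU
  have hTS : T ⊆ U := by
    intro S hS'
    have h6 := (mem_filter.1 hS').1
    unfold RR at h6
    obtain ⟨h7, h8⟩ := mem_filter.1 h6
    exact mem_filter.2 ⟨h7, h8.2.2.2.1⟩
  have hRS : ((RR X (zz X) (HH X) (kk X) V).card : ℝ) ≤ ((SS X).card : ℝ) := by
    exact_mod_cast card_le_card (filter_subset _ _)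
  have hcmp := cmp (Gd A b) T U hTS c2 hc2.2.1.le hc2.2.2.1.le
  have hout : ((U \ T).card : ℝ) ≤
      ((((SA X).filter fun S => kk X < S.card).card : ℝ) +
      (((SA X).filter fun S => S.card ≤ kk X ∧
        X < (∏ p ∈ sm (zz X) S, p) * ∏ p ∈ la (zz X) S, XX (HH X) (jj (HH X) p)).card : ℝ) +
      (((SA X).filter fun S => ¬ Set.InjOn (jj (HH X)) (la (zz X) S : Set ℕ)).card : ℝ) +
      (((SA X).filter fun S => ∀ p ∈ la (zz X) S, ty p ≠ 0).card : ℝ)) +
      (((SA X).filter fun S => S.card ≤ kk X ∧ ¬ Nd (sm (zz X) S) (la (zz X) S)).card : ℝ) := by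
    have g := card_le_card (out_sub X (zz X) (HH X) (kk X) V)
    rw [← hT, ← hU] at g
    have g2 := (g.trans (card_union_le _ _)).trans (Nat.add_le_add_right ((card_union_le _ _).trans
      (Nat.add_le_add_right ((card_union_le _ _).trans
      (Nat.add_le_add_right (card_union_le _ _) _)) _)) _)
    exact_mod_cast g2
  have htot : |((U.filter (Gd A b)).card : ℝ) - c2 * (U.card : ℝ)| ≤
      2 * (1 / 4 : ℝ) ^ V * ((SS X).card : ℝ) + c * ε / 8 * X := by
    have g1 : 2 * (1 / 4 : ℝ) ^ V * ((RR X (zz X) (HH X) (kk X) V).card : ℝ) ≤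
        2 * (1 / 4 : ℝ) ^ V * ((SS X).card : ℝ) := mul_le_mul_of_nonneg_left hRS (by positivity)
    linarith
  -- the good sets with `0 ≤ kd < 2 V`
  have hgood : (((SS X).filter (Gd A b)).card : ℝ) ≤ ((U.filter (Gd A b)).card : ℝ) +
      ((K0.card : ℝ) - (U.card : ℝ)) := by
    rw [hK0]
    have g1 : (SS X).filter (Gd A b) ⊆ (U.filter (Gd A b)) ∪
        (((SS X).filter fun S => 2 * ((0 : ℕ) : ℤ) ≤ kd S) \ U) := by
      intro S hS'
      obtain ⟨h6, h7⟩ := mem_filter.1 hS'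
      by_cases h8 : S ∈ U
      · exact mem_union.2 (Or.inl (mem_filter.2 ⟨h8, h7⟩))
      · refine mem_union.2 (Or.inr (mem_sdiff.2 ⟨mem_filter.2 ⟨h6, ?_⟩, h8⟩))
        have h9 := hN A b S (by
          unfold SS at h6
          exact (mem_filter.1 h6).2.1.1) h7
        simpa using h9
    have g2 : U ⊆ (SS X).filter fun S => 2 * ((0 : ℕ) : ℤ) ≤ kd S := by
      intro S hS'
      obtain ⟨h6, h7⟩ := mem_filter.1 hS'
      refine mem_filter.2 ⟨h6, ?_⟩
      have : (0 : ℤ) ≤ V := Int.natCast_nonneg V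
      push_cast
      linarith
    have g3 := (card_le_card g1).trans (card_union_le _ _)
    rw [card_sdiff_of_subset g2] at g3
    have g4 := card_le_card g2
    have g5 : ((((SS X).filter fun S => 2 * ((0 : ℕ) : ℤ) ≤ kd S).card - U.card : ℕ) : ℝ) =
        (((SS X).filter fun S => 2 * ((0 : ℕ) : ℤ) ≤ kd S).card : ℝ) - (U.card : ℝ) :=
      Nat.cast_sub g4
    rw [← g5]
    exact_mod_cast g3
  have hgood2 : ((U.filter (Gd A b)).card : ℝ) ≤ (((SS X).filter (Gd A b)).card : ℝ) := by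
    exact_mod_cast card_le_card (filter_subset_filter _ (filter_subset _ _))
  rw [abs_le] at hk0 hkV htot
  have hc20 := hc2.2.1.le
  have hc21 := hc2.2.2.1.le
  rw [Real.dist_eq]
  have e3 : (((SS X).filter (Gd A b)).card : ℝ) / ((SS X).card : ℝ) - c2 / 2 =
      ((((SS X).filter (Gd A b)).card : ℝ) - c2 / 2 * ((SS X).card : ℝ)) /
        ((SS X).card : ℝ) := by
    field_simp
  rw [e3, abs_div, abs_of_pos hSpos, div_lt_iff₀ hSpos]
  have g2 : c * ε / 8 * X ≤ ε / 8 * ((SS X).card : ℝ) := by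
    calc c * ε / 8 * X = ε / 8 * (c * X) := by ring
      _ ≤ _ := mul_le_mul_of_nonneg_left hlo (by linarith)
  have g2' : c * ε / 16 * X ≤ ε / 16 * ((SS X).card : ℝ) := by
    calc c * ε / 16 * X = ε / 16 * (c * X) := by ring
      _ ≤ _ := mul_le_mul_of_nonneg_left hlo (by linarith)
  have g3 : 2 * (1 / 4 : ℝ) ^ V * ((SS X).card : ℝ) ≤ 2 * (ε / 8) * ((SS X).card : ℝ) := by
    gcongr
  have g4 : 0 < ε * ((SS X).card : ℝ) := by positivity
  have g5 : |c2 * (U.card : ℝ) - c2 / 2 * ((SS X).card : ℝ)| ≤ ε / 16 * ((SS X).card : ℝ) := by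
    have g6 : c2 * (U.card : ℝ) - c2 / 2 * ((SS X).card : ℝ) =
        c2 * ((U.card : ℝ) - 1 / 2 * ((SS X).card : ℝ)) := by ring
    rw [g6, abs_mul, abs_of_nonneg hc20]
    have g7 : |(U.card : ℝ) - 1 / 2 * ((SS X).card : ℝ)| ≤ ε / 16 * ((SS X).card : ℝ) := by
      rw [abs_le]
      constructor <;> linarith
    calc c2 * |(U.card : ℝ) - 1 / 2 * ((SS X).card : ℝ)| ≤
          1 * |(U.card : ℝ) - 1 / 2 * ((SS X).card : ℝ)| :=
          mul_le_mul_of_nonneg_right hc21 (abs_nonneg _)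
      _ ≤ _ := by rw [one_mul]; exact g7
  rw [abs_le] at g5
  rw [abs_lt]
  constructor <;> linarith

end Pool.Agent.N973.ND.Asy
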