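import Pool.Agent.N973.ND.BOX0

/-!
# ND-BOX: the count in a box (after the file BOX of project CQ by helper657 and helper911)
-/

set_option autoImplicit false
set_option linter.unusedSectionVars false

open scoped Classical

namespace Pool.Agent.N973.ND

open Finset
open Pool.Agent.Y703.CQ (nr sg c2)

/-- the type of the labels -/
abbrev Lb (S₀ : Finset ℕ) : Type :=
  (S₀ → ZMod 2) × (S₀ → ZMod 2) × (S₀ → ZMod 2) × (S₀ → ZMod 2) × ZMod 2

/-- the label of a prime with respect to the small primes -/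
noncomputable def lb (A : ℕ → ℕ → ZMod 2) (b : ℕ → ZMod 2) (S₀ : Finset ℕ) (x : ℕ) : Lb S₀ :=
  (fun u => nr u x, fun u => nr x u, fun u => A u x, fun u => A x u, b x)

/-- the good labels -/
def LN {ι : Type} (S₀ : Finset ℕ) (τ : ι → ℕ) (β : ι → Lb S₀) : Prop :=
  ∀ w : S₀ → ZMod 2, (∃ u : S₀, w u ≠ 0) → ∃ i, τ i = 2 ∧ ∑ u : S₀, w u * (β i).2.1 u ≠ 0

/-- extension by zero -/
noncomputable def ez0 {S₀ : Finset ℕ} (v : S₀ → ZMod 2) (n : ℕ) : ZMod 2 :=
  if h : n ∈ S₀ then v ⟨n, h⟩ else 0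

theorem ez0_coe {S₀ : Finset ℕ} (v : S₀ → ZMod 2) (u : S₀) : ez0 v u = v u := by
  unfold ez0
  rw [dif_pos u.2]

theorem ty_eq_two (p : ℕ) : ty p = 2 ∨ ty p = 3 ↔ m7 p = 1 := by
  have := m7_le p
  unfold ty
  split_ifs <;> omega

section
variable {ι : Type} [Fintype ι] [LinearOrder ι] {S₀ : Finset ℕ} {p : ι → ℕ} {τ : ι → ℕ}
  (A : ℕ → ℕ → ZMod 2) (b : ℕ → ZMod 2)

theorem nd_iff (hτ : ∀ i, ty (p i) = τ i) :
    Nd S₀ (univ.image p) ↔ LN S₀ τ (fun i => lb A b S₀ (p i)) := by
  unfold Nd LN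
  constructor
  · intro h w hw
    obtain ⟨u, hu⟩ := hw
    obtain ⟨x, hx, hx1, hx2⟩ := h (ez0 w) ⟨u, u.2, by rw [ez0_coe]; exact hu⟩
    rw [Finset.mem_image] at hx
    obtain ⟨i, -, rfl⟩ := hx
    refine ⟨i, by rw [← hτ]; exact hx1, ?_⟩
    rw [← Finset.sum_coe_sort S₀] at hx2
    intro h0
    apply hx2
    rw [← h0]
    refine Finset.sum_congr rfl fun u _ => ?_
    rw [ez0_coe]
    rfl
  · intro h w hw
    obtain ⟨u, hu0, hu⟩ := hw
    obtain ⟨i, hi, hi2⟩ := h (fun u => w u) ⟨⟨u, hu0⟩, hu⟩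
    refine ⟨p i, Finset.mem_image_of_mem _ (Finset.mem_univ _), by rw [hτ]; exact hi, ?_⟩
    rw [← Finset.sum_coe_sort S₀]
    exact hi2

/-- the parametrization -/
def rr (S₀ : Finset ℕ) (p : ι → ℕ) : S₀ ⊕ ι → ℕ := Sum.elim (fun u => (u : ℕ)) p

theorem rr_inj (hp : Function.Injective p) (hd : ∀ i, p i ∉ S₀) : Function.Injective (rr S₀ p) := by
  rintro (u | i) (v | j) h
  · exact congrArg Sum.inl (Subtype.ext h)
  · exact absurd u.2 (by
      have h' : (u : ℕ) = p j := h
      rw [h']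
      exact hd j)
  · exact absurd v.2 (by
      have h' : p i = (v : ℕ) := h
      rw [← h']
      exact hd i)
  · exact congrArg Sum.inr (hp h)

theorem rr_im : univ.image (rr S₀ p) = S₀ ∪ univ.image p := by
  ext x
  simp only [mem_image, mem_univ, true_and, mem_union]
  constructor
  · rintro ⟨u | i, rfl⟩
    · exact Or.inl u.2
    · exact Or.inr ⟨i, rfl⟩
  · rintro (h | ⟨i, rfl⟩)
    · exact ⟨Sum.inl ⟨x, h⟩, rfl⟩
    · exact ⟨Sum.inr i, rfl⟩

/-- the split indices -/
noncomputable def SpR (r : S₀ ⊕ ι → ℕ) : Finset (S₀ ⊕ ι) := univ.filter fun i => m7 (r i) = 1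

/-- the indices of the columns -/
noncomputable def PcR (r : S₀ ⊕ ι → ℕ) : Finset (S₀ ⊕ ι) :=
  univ.filter fun i => ty (r i) = 2 ∨ ty (r i) = 1

/-- the matrix `N` of a tuple -/
noncomputable def NR (r : S₀ ⊕ ι → ℕ) (i j : S₀ ⊕ ι) : ZMod 2 := nr (r j) (r i)

/-- the matrix `E` of a tuple -/
noncomputable def ER (A : ℕ → ℕ → ZMod 2) (r : S₀ ⊕ ι → ℕ) (i j : S₀ ⊕ ι) : ZMod 2 :=
  if i = j then 0 else A (r i) (r j) + nr (r j) (r i)

theorem GR_eq (r : S₀ ⊕ ι → ℕ) :
    GR A b r ↔ Gv (SpR r) (PcR r) (NR r) (ER A r) (fun i => b (r i)) := by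
  have h : (fun i j => @ite _ (i = j) (Classical.propDecidable _) 0
      (A (r i) (r j) + nr (r j) (r i))) = ER A r := by
    funext i j
    unfold ER
    by_cases hij : i = j
    · rw [if_pos hij, if_pos hij]
    · rw [if_neg hij, if_neg hij]
  rw [← h]
  rfl

/-- the symbols of a tuple -/
noncomputable def sgm (A : ℕ → ℕ → ZMod 2) (J1 : Finset ι) (p : ι → ℕ) (e : sl J1) : ZMod 2 :=
  sys A e.1.2 (p e.1.1.1) (p e.1.1.2)

/-- the symmetric extension of the change of the symbols -/
theorem sx_sgm {J1 : Finset ι} {p p₀ : ι → ℕ} (c : Bool) (k l : ι)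
    (hc : c = true → k ∈ J1 ∧ l ∈ J1) (hkl : k ≠ l)
    (hs : sys A c (p l) (p k) + sys A c (p₀ l) (p₀ k) = sys A c (p k) (p l) + sys A c (p₀ k) (p₀ l)) :
    sx (sgm A J1 p + sgm A J1 p₀) c k l = sys A c (p l) (p k) + sys A c (p₀ l) (p₀ k) := by
  unfold sx
  rcases lt_or_gt_of_ne hkl with h | h
  · have h1 : ((k, l), c) ∈ sl J1 := mem_filter.2 ⟨mem_univ _, h, hc⟩
    rw [dif_pos h1, hs]
    rfl
  · have h1 : ((l, k), c) ∈ sl J1 := mem_filter.2 ⟨mem_univ _, h, fun h' => (hc h').symm⟩
    have h2 : ((k, l), c) ∉ sl J1 := fun h' => lt_asymm h (mem_filter.1 h').2.1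
    rw [dif_neg h2, dif_pos h1]
    rfl

/-- **two tuples with the same labels** -/
theorem two_tuples (hA : RecA A) (hS₀ : ∀ v ∈ S₀, Pr v) {p p₀ : ι → ℕ}
    (hp : Function.Injective p) (hp₀ : Function.Injective p₀)
    (hpr : ∀ i, Pr (p i)) (hpr₀ : ∀ i, Pr (p₀ i)) (hd : ∀ i, p i ∉ S₀) (hd₀ : ∀ i, p₀ i ∉ S₀)
    (hτ : ∀ i, ty (p i) = τ i) (hτ₀ : ∀ i, ty (p₀ i) = τ i)
    (hl : ∀ i, lb A b S₀ (p i) = lb A b S₀ (p₀ i)) :
    GR A b (rr S₀ p) ↔ Gv (SpR (rr S₀ p₀)) (PcR (rr S₀ p₀))
      (pt (NR (rr S₀ p₀)) (sx (sgm A (univ.filter fun i => τ i = 2 ∨ τ i = 3) p +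
        sgm A (univ.filter fun i => τ i = 2 ∨ τ i = 3) p₀) false))
      (pt (ER A (rr S₀ p₀)) fun k l =>
        sx (sgm A (univ.filter fun i => τ i = 2 ∨ τ i = 3) p +
          sgm A (univ.filter fun i => τ i = 2 ∨ τ i = 3) p₀) false k l +
        sx (sgm A (univ.filter fun i => τ i = 2 ∨ τ i = 3) p +
          sgm A (univ.filter fun i => τ i = 2 ∨ τ i = 3) p₀) true k l)
      (fun i => b (rr S₀ p₀ i)) := by
  set J1 : Finset ι := univ.filter fun i => τ i = 2 ∨ τ i = 3 with hJ1
  have hty : ∀ i : S₀ ⊕ ι, ty (rr S₀ p i) = ty (rr S₀ p₀ i) := by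
    rintro (u | i)
    · rfl
    · show ty (p i) = ty (p₀ i)
      rw [hτ, hτ₀]
  have e1 : SpR (rr S₀ p) = SpR (rr S₀ p₀) := by
    unfold SpR
    refine filter_congr fun i _ => ?_
    rw [← ty_eq_two, ← ty_eq_two, hty i]
  have e2 : PcR (rr S₀ p) = PcR (rr S₀ p₀) := by
    unfold PcR
    refine filter_congr fun i _ => ?_
    rw [hty i]
  have hJ : ∀ k, k ∈ J1 ↔ m7 (p k) = 1 := by
    intro k
    rw [hJ1, mem_filter, ← ty_eq_two, hτ]
    simp
  have hJ₀ : ∀ k, k ∈ J1 ↔ m7 (p₀ k) = 1 := by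
    intro k
    rw [hJ1, mem_filter, ← ty_eq_two, hτ₀]
    simp
  have huu : ∀ k, uu (p k) = uu (p₀ k) := by
    intro k
    have h1 : ty (p k) = ty (p₀ k) := by rw [hτ, hτ₀]
    have h2 := m7_le (p k)
    have h3 := m7_le (p₀ k)
    unfold ty at h1
    unfold uu
    by_cases h4 : p k % 4 = 3
    · by_cases h5 : p₀ k % 4 = 3
      · rw [if_pos h4, if_pos h5]
      · rw [if_pos h4, if_neg h5] at h1
        omega
    · by_cases h5 : p₀ k % 4 = 3
      · rw [if_neg h4, if_pos h5] at h1
        omega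
      · rw [if_neg h4, if_neg h5]
  have hrn : ∀ k l, k ≠ l → sys A false (p l) (p k) + sys A false (p₀ l) (p₀ k) =
      sys A false (p k) (p l) + sys A false (p₀ k) (p₀ l) := by
    intro k l hkl
    show nr (p l) (p k) + nr (p₀ l) (p₀ k) = nr (p k) (p l) + nr (p₀ k) (p₀ l)
    rw [nr_rec (hpr k).1 (hpr k).2.1 (hpr l).1 (hpr l).2.1 fun h => hkl (hp h),
      nr_rec (hpr₀ k).1 (hpr₀ k).2.1 (hpr₀ l).1 (hpr₀ l).2.1 fun h => hkl (hp₀ h), huu k, huu l]
    have : ∀ x y z : ZMod 2, x + z + (y + z) = x + y := by decide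
    exact this _ _ _
  have hra : ∀ k l, k ≠ l → k ∈ J1 → l ∈ J1 → sys A true (p l) (p k) + sys A true (p₀ l) (p₀ k) =
      sys A true (p k) (p l) + sys A true (p₀ k) (p₀ l) := by
    intro k l hkl hk hl'
    show A (p l) (p k) + A (p₀ l) (p₀ k) = A (p k) (p l) + A (p₀ k) (p₀ l)
    rw [hA (p k) (p l) (hpr k) (hpr l) (fun h => hkl (hp h)) ((hJ k).1 hk) ((hJ l).1 hl'),
      hA (p₀ k) (p₀ l) (hpr₀ k) (hpr₀ l) (fun h => hkl (hp₀ h)) ((hJ₀ k).1 hk) ((hJ₀ l).1 hl'),
      huu k, huu l]
    have : ∀ x y z : ZMod 2, x + z + (y + z) = x + y := by decide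
    exact this _ _ _
  have e3 : NR (rr S₀ p) = pt (NR (rr S₀ p₀)) (sx (sgm A J1 p + sgm A J1 p₀) false) := by
    funext i j
    rcases i with u | k <;> rcases j with v | l
    · rfl
    · have h1 := congrFun (congrArg (fun t => t.2.1) (hl l)) u
      exact h1
    · have h1 := congrFun (congrArg (fun t => t.1) (hl k)) v
      exact h1
    · show nr (p l) (p k) = nr (p₀ l) (p₀ k) + sx (sgm A J1 p + sgm A J1 p₀) false k l
      by_cases hkl : k = l
      · subst hkl
        rw [nr_self, nr_self, sx_self, add_zero]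
      · rw [sx_sgm A false k l (fun h => Bool.noConfusion h) hkl (hrn k l hkl)]
        show nr (p l) (p k) = nr (p₀ l) (p₀ k) + (nr (p l) (p k) + nr (p₀ l) (p₀ k))
        have : ∀ x y : ZMod 2, x = y + (x + y) := by decide
        exact this _ _
  have e4 : ∀ i ∈ SpR (rr S₀ p₀), ∀ j ∈ SpR (rr S₀ p₀), ER A (rr S₀ p) i j =
      pt (ER A (rr S₀ p₀)) (fun k l => sx (sgm A J1 p + sgm A J1 p₀) false k l +
        sx (sgm A J1 p + sgm A J1 p₀) true k l) i j := by
    intro i hi j hj
    rcases i with u | k <;> rcases j with v | l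
    · show ER A (rr S₀ p) (Sum.inl u) (Sum.inl v) = ER A (rr S₀ p₀) (Sum.inl u) (Sum.inl v)
      unfold ER
      rfl
    · show ER A (rr S₀ p) (Sum.inl u) (Sum.inr l) = ER A (rr S₀ p₀) (Sum.inl u) (Sum.inr l)
      unfold ER
      rw [if_neg (by simp), if_neg (by simp)]
      have h1 : nr (p l) u = nr (p₀ l) u := congrFun (congrArg (fun t => t.2.1) (hl l)) u
      have h2 : A u (p l) = A u (p₀ l) := congrFun (congrArg (fun t => t.2.2.1) (hl l)) u
      show A u (p l) + nr (p l) u = A u (p₀ l) + nr (p₀ l) u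
      rw [h1, h2]
    · show ER A (rr S₀ p) (Sum.inr k) (Sum.inl v) = ER A (rr S₀ p₀) (Sum.inr k) (Sum.inl v)
      unfold ER
      rw [if_neg (by simp), if_neg (by simp)]
      have h1 : nr v (p k) = nr v (p₀ k) := congrFun (congrArg (fun t => t.1) (hl k)) v
      have h2 : A (p k) v = A (p₀ k) v := congrFun (congrArg (fun t => t.2.2.2.1) (hl k)) v
      show A (p k) v + nr v (p k) = A (p₀ k) v + nr v (p₀ k)
      rw [h1, h2]
    · show ER A (rr S₀ p) (Sum.inr k) (Sum.inr l) = ER A (rr S₀ p₀) (Sum.inr k) (Sum.inr l) +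
        (sx (sgm A J1 p + sgm A J1 p₀) false k l + sx (sgm A J1 p + sgm A J1 p₀) true k l)
      unfold ER
      by_cases hkl : k = l
      · subst hkl
        rw [if_pos rfl, if_pos rfl, sx_self, sx_self, add_zero, add_zero]
      · have hne : ¬ ((Sum.inr k : S₀ ⊕ ι) = Sum.inr l) := fun h => hkl (Sum.inr_injective h)
        have hk : k ∈ J1 := (hJ₀ k).2 (mem_filter.1 hi).2
        have hl' : l ∈ J1 := (hJ₀ l).2 (mem_filter.1 hj).2
        rw [if_neg hne, if_neg hne,
          sx_sgm A false k l (fun h => Bool.noConfusion h) hkl (hrn k l hkl),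
          sx_sgm A true k l (fun _ => ⟨hk, hl'⟩) hkl (hra k l hkl hk hl')]
        show A (p k) (p l) + nr (p l) (p k) = A (p₀ k) (p₀ l) + nr (p₀ l) (p₀ k) +
          ((nr (p l) (p k) + nr (p₀ l) (p₀ k)) + (A (p l) (p k) + A (p₀ l) (p₀ k)))
        have h1 : A (p l) (p k) + A (p₀ l) (p₀ k) = A (p k) (p l) + A (p₀ k) (p₀ l) :=
          hra k l hkl hk hl'
        rw [h1]
        have : ∀ x y z w : ZMod 2, x + y = z + w + ((y + w) + (x + z)) := by decide
        exact this _ _ _ _
  have e5 : (fun i => b (rr S₀ p i)) = fun i => b (rr S₀ p₀ i) := by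
    funext i
    rcases i with u | k
    · rfl
    · exact congrArg (fun t => t.2.2.2.2) (hl k)
  rw [GR_eq, e1, e2, e3, e5]
  constructor
  · exact Gv_congr e4
  · exact Gv_congr fun i hi j hj => (e4 i hi j hj).symm

theorem card_filter_sum (P : ℕ → Prop) [DecidablePred P] (r : S₀ ⊕ ι → ℕ) :
    (univ.filter fun i : S₀ ⊕ ι => P (r i)).card =
      (univ.filter fun u : S₀ => P (r (Sum.inl u))).card +
      (univ.filter fun i : ι => P (r (Sum.inr i))).card := by
  rw [card_filter, card_filter, card_filter, Fintype.sum_sum_type]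

theorem card_coe_filter (P : ℕ → Prop) [DecidablePred P] :
    (univ.filter fun u : S₀ => P u).card = (S₀.filter P).card := by
  rw [card_filter, card_filter, ← Finset.sum_coe_sort S₀]

end

theorem HB_sub {A : ℕ → ℕ → ZMod 2} {ι : Type} {J1 : Finset ι} {C : ι → Finset ℕ} {X : ι → ℕ}
    {κ : ℝ} (h : HB A J1 C X κ) (P : ι → ℕ → Prop) [∀ i, DecidablePred (P i)] :
    HB A J1 (fun i => (C i).filter (P i)) X κ := by
  intro i l hil α β c d hαβ hβ hc hd
  have h1 := h i l hil α β (fun x => if P i x then c x else 0) (fun y => if P l y then d y else 0)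
    hαβ hβ (fun x => by
      split_ifs
      · exact hc x
      · simp) (fun y => by
      split_ifs
      · exact hd y
      · simp)
  refine (le_of_eq ?_).trans h1
  congr 1
  rw [Finset.sum_filter]
  refine Finset.sum_congr rfl fun x _ => ?_
  by_cases hx : P i x
  · rw [if_pos hx, Finset.sum_filter]
    refine Finset.sum_congr rfl fun y _ => ?_
    by_cases hy : P l y
    · rw [if_pos hy, if_pos hx, if_pos hy]
    · rw [if_neg hy, if_neg hy, mul_zero, zero_mul]
  · rw [if_neg hx]
    symm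
    refine Finset.sum_eq_zero fun y _ => ?_
    rw [if_neg hx, zero_mul, zero_mul]

/-- **The count in a box.** -/
theorem t_BOX : S_BOX := by
  intro hEQ hLA A b ι _ _ τ C X κ S₀ m hA hκ hCX hHB hS₀ hC hdis hine hkd
  set J1 : Finset ι := univ.filter fun i => τ i = 2 ∨ τ i = 3 with hJ1
  set cc : ℝ := 2 * (1 / 4 : ℝ) ^ m with hcc
  set R : ℝ := 2 ^ (sl J1).card * (κ * ∏ j, (X j : ℝ)) with hR
  have hcc0 : 0 ≤ cc := by positivity
  have hR0 : 0 ≤ R := mul_nonneg (by positivity)
    (mul_nonneg hκ (Finset.prod_nonneg fun j _ => by positivity))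
  -- facts on tuples
  have hinj : ∀ p ∈ Fintype.piFinset C, Function.Injective p := by
    intro p hp i j hij
    rw [Fintype.mem_piFinset] at hp
    by_contra hne
    have h1 := Finset.disjoint_left.1 (hdis i j hne) (hp i)
    rw [hij] at h1
    exact h1 (hp j)
  have hτ : ∀ p ∈ Fintype.piFinset C, ∀ i, ty (p i) = τ i := by
    intro p hp i
    rw [Fintype.mem_piFinset] at hp
    exact (hC i _ (hp i)).2.2
  have hd : ∀ p ∈ Fintype.piFinset C, ∀ i, p i ∉ S₀ := by
    intro p hp i
    rw [Fintype.mem_piFinset] at hp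
    exact (hC i _ (hp i)).2.1
  have hpr : ∀ p ∈ Fintype.piFinset C, ∀ i, Pr (p i) := by
    intro p hp i
    rw [Fintype.mem_piFinset] at hp
    exact (hC i _ (hp i)).1
  -- the part with given labels
  have h1 : ∀ β : ι → Lb S₀, LN S₀ τ β →
      |(((Fintype.piFinset C).filter fun p => (fun i => lb A b S₀ (p i)) = β ∧
          Gd A b (S₀ ∪ univ.image p)).card : ℝ) -
        c2 * (((Fintype.piFinset C).filter fun p => (fun i => lb A b S₀ (p i)) = β).card : ℝ)| ≤
      cc * (((Fintype.piFinset C).filter fun p => (fun i => lb A b S₀ (p i)) = β).card : ℝ) + R := by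
    intro β hβ
    by_cases hemp : ((Fintype.piFinset C).filter fun p => (fun i => lb A b S₀ (p i)) = β) = ∅
    · have he2 : ((Fintype.piFinset C).filter fun p => (fun i => lb A b S₀ (p i)) = β ∧
          Gd A b (S₀ ∪ univ.image p)) = ∅ := by
        rw [← Finset.filter_filter, hemp, Finset.filter_empty]
      rw [he2, hemp]
      simpa using hR0
    obtain ⟨p₀, hp₀⟩ := Finset.nonempty_iff_ne_empty.2 hemp
    rw [Finset.mem_filter] at hp₀
    obtain ⟨hp₀, hp₀β⟩ := hp₀
    set C' : ι → Finset ℕ := fun i => (C i).filter fun q => lb A b S₀ q = β i with hC'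
    have hpi : (Fintype.piFinset C).filter (fun p => (fun i => lb A b S₀ (p i)) = β) =
        Fintype.piFinset C' := by
      ext p
      simp only [Finset.mem_filter, Fintype.mem_piFinset, hC']
      constructor
      · rintro ⟨h2, h3⟩ i
        exact ⟨h2 i, congrFun h3 i⟩
      · intro h2
        exact ⟨fun i => (h2 i).1, funext fun i => (h2 i).2⟩
    set r₀ := rr S₀ p₀ with hr₀
    have hJm : ∀ k, k ∈ J1 ↔ m7 (p₀ k) = 1 := by
      intro k
      rw [hJ1, mem_filter, ← ty_eq_two, hτ p₀ hp₀]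
      simp
    have hrPr : ∀ i, Pr (r₀ i) := by
      rintro (v | k)
      · exact hS₀ _ v.2
      · exact hpr p₀ hp₀ k
    have hrinj : Function.Injective r₀ := rr_inj (hinj p₀ hp₀) (hd p₀ hp₀)
    have huu : ∀ i, m7 (r₀ i) ≤ 1 := fun i => m7_le _
    have hty0 : ∀ n : ℕ, (ty n = 2 ↔ m7 n = 1 ∧ uu n = 0) ∧ (ty n = 1 ↔ ¬ m7 n = 1 ∧ uu n = 1) ∧
        (ty n = 0 ↔ ¬ m7 n = 1 ∧ uu n = 0) := by
      intro n
      have h1 := m7_le n
      by_cases h2 : n % 4 = 3
      · have e1 : ty n = 2 * m7 n + 1 := by unfold ty; rw [if_pos h2]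
        have e2 : uu n = 1 := by unfold uu; rw [if_pos h2]
        rw [e1, e2]
        refine ⟨⟨fun h => by exfalso; omega, fun h => absurd h.2 (by decide)⟩,
          ⟨fun h => ⟨by omega, rfl⟩, fun h => by have := h.1; omega⟩,
          ⟨fun h => by exfalso; omega, fun h => absurd h.2 (by decide)⟩⟩
      · have e1 : ty n = 2 * m7 n + 0 := by unfold ty; rw [if_neg h2]
        have e2 : uu n = 0 := by unfold uu; rw [if_neg h2]
        rw [e1, e2]
        refine ⟨⟨fun h => ⟨by omega, rfl⟩, fun h => by rw [h.1]⟩,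
          ⟨fun h => by exfalso; omega, fun h => absurd h.2 (by decide)⟩,
          ⟨fun h => ⟨by omega, rfl⟩, fun h => by have := h.1; omega⟩⟩
    have h2 := hLA S₀ ι J1 (SpR r₀) (PcR r₀) (fun i => uu (r₀ i)) (NR r₀) (ER A r₀)
      (fun i => b (r₀ i)) m
      (by
        intro k
        rw [hJm k]
        unfold SpR
        rw [mem_filter]
        exact ⟨fun h => h.2, fun h => ⟨mem_univ _, h⟩⟩)
      (by
        intro i
        unfold SpR PcR
        simp only [mem_filter, mem_univ, true_and]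
        rw [(hty0 _).1, (hty0 _).2.1])
      (fun i => nr_self _)
      (by
        intro i j hij
        show nr (r₀ i) (r₀ j) = nr (r₀ j) (r₀ i) + uu (r₀ i) * uu (r₀ j)
        rw [mul_comm (uu (r₀ i))]
        exact nr_rec (hrPr j).1 (hrPr j).2.1 (hrPr i).1 (hrPr i).2.1 fun h => hij (hrinj h.symm))
      (by
        intro i
        unfold ER
        rw [if_pos rfl])
      (by
        intro i hi j hj
        unfold ER
        by_cases hij : i = j
        · rw [if_pos hij, if_pos hij.symm]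
        · rw [if_neg hij, if_neg fun h => hij h.symm]
          have hne : r₀ i ≠ r₀ j := fun h => hij (hrinj h)
          rw [hA (r₀ i) (r₀ j) (hrPr i) (hrPr j) hne (mem_filter.1 hi).2 (mem_filter.1 hj).2,
            nr_rec (hrPr i).1 (hrPr i).2.1 (hrPr j).1 (hrPr j).2.1 hne]
          have : ∀ x y z : ZMod 2, x + (y + z) = x + z + y := by decide
          exact this _ _ _)
      (by
        rintro w ⟨v, hv⟩
        obtain ⟨k, hk, hk2⟩ := hβ w ⟨v, hv⟩
        refine ⟨k, ?_, ?_, ?_⟩
        · rw [hJ1, mem_filter]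
          exact ⟨mem_univ _, Or.inl hk⟩
        · have h3 := hτ p₀ hp₀ k
          rw [hk] at h3
          exact ((hty0 _).1.1 h3).2
        · rw [← hp₀β] at hk2
          exact hk2)
      (by
        obtain ⟨k, hk⟩ := hine
        refine ⟨k, ?_, ?_⟩
        · rw [hJ1, mem_filter, hk]
          simp
        · have h3 := hτ p₀ hp₀ k
          rw [hk] at h3
          exact ((hty0 _).2.2.1 h3).2)
      (by
        have a1 : (SpR r₀).card = (S₀.filter fun q => m7 q = 1).card + J1.card := by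
          have a2 := card_filter_sum (fun q => m7 q = 1) r₀
          have a3 := card_coe_filter (S₀ := S₀) (fun q => m7 q = 1)
          have a4 : (univ.filter fun i : ι => m7 (r₀ (Sum.inr i)) = 1) = J1 := by
            ext k
            rw [hJm k, mem_filter]
            exact ⟨fun h => h.2, fun h => ⟨mem_univ _, h⟩⟩
          rw [a4] at a2
          rw [← a3]
          exact a2
        have a2 : (PcR r₀).card = (S₀.filter fun q => ty q = 2 ∨ ty q = 1).card +
            (univ.filter fun i => τ i = 2 ∨ τ i = 1).card := by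
          have b2 := card_filter_sum (fun q => ty q = 2 ∨ ty q = 1) r₀
          have b3 := card_coe_filter (S₀ := S₀) (fun q => ty q = 2 ∨ ty q = 1)
          have b4 : (univ.filter fun i : ι => ty (r₀ (Sum.inr i)) = 2 ∨ ty (r₀ (Sum.inr i)) = 1) =
              univ.filter fun i => τ i = 2 ∨ τ i = 1 := by
            refine filter_congr fun k _ => ?_
            rw [← hτ p₀ hp₀ k]
            rfl
          rw [b4] at b2
          rw [← b3]
          exact b2
        have a3 : (S₀.filter fun q => m7 q = 1).card = (S₀.filter fun q => ty q = 2).card +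
            (S₀.filter fun q => ty q = 3).card := by
          rw [← card_union_of_disjoint, ← filter_or]
          · congr 1
            exact filter_congr fun q _ => (ty_eq_two q).symm
          · exact disjoint_filter.2 fun q _ h h' => by omega
        have a4 : (S₀.filter fun q => ty q = 2 ∨ ty q = 1).card =
            (S₀.filter fun q => ty q = 2).card + (S₀.filter fun q => ty q = 1).card := by
          rw [← card_union_of_disjoint, ← filter_or]
          exact disjoint_filter.2 fun q _ h h' => by omega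
        have a5 : J1.card = (univ.filter fun i => τ i = 2).card +
            (univ.filter fun i => τ i = 3).card := by
          rw [← card_union_of_disjoint, ← filter_or]
          exact disjoint_filter.2 fun q _ h h' => by omega
        have a6 : (univ.filter fun i => τ i = 2 ∨ τ i = 1).card = (univ.filter fun i => τ i = 2).card +
            (univ.filter fun i => τ i = 1).card := by
          rw [← card_union_of_disjoint, ← filter_or]
          exact disjoint_filter.2 fun q _ h h' => by omega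
        unfold kd at hkd
        omega)
    set Q : (sl J1 → ZMod 2) → Prop := fun σ => Gv (SpR r₀) (PcR r₀)
      (pt (NR r₀) (sx (σ + sgm A J1 p₀) false))
      (pt (ER A r₀) fun k l => sx (σ + sgm A J1 p₀) false k l + sx (σ + sgm A J1 p₀) true k l)
      (fun i => b (r₀ i)) with hQ
    have h3 := hEQ A ι J1 C' X κ hκ
      (fun i => (Finset.card_le_card (Finset.filter_subset _ _)).trans (hCX i))
      (HB_sub hHB fun i q => lb A b S₀ q = β i) Q
    have h4 : ((Fintype.piFinset C).filter fun p => (fun i => lb A b S₀ (p i)) = β ∧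
        Gd A b (S₀ ∪ univ.image p)) = ((Fintype.piFinset C').filter fun p =>
          Q fun e => sys A e.1.2 (p e.1.1.1) (p e.1.1.2)) := by
      rw [← hpi, Finset.filter_filter]
      refine Finset.filter_congr fun p hp => ?_
      refine and_congr_right fun hl => ?_
      rw [Gd_iff A b (rr_inj (hinj p hp) (hd p hp)) rr_im]
      exact two_tuples A b hA hS₀ (hinj p hp) (hinj p₀ hp₀) (hpr p hp) (hpr p₀ hp₀) (hd p hp)
        (hd p₀ hp₀) (hτ p hp) (hτ p₀ hp₀) fun i => by
          have a1 := congrFun hl i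
          have a2 := congrFun hp₀β i
          exact a1.trans a2.symm
    have h5 : (((Fintype.piFinset C').card : ℕ) : ℝ) = ∏ j, ((C' j).card : ℝ) := by
      rw [Fintype.card_piFinset]
      push_cast
      rfl
    rw [h4, hpi, h5]
    have hQc : (univ.filter Q).card = (univ.filter fun σ : sl J1 → ZMod 2 => Gv (SpR r₀) (PcR r₀)
        (pt (NR r₀) (sx σ false)) (pt (ER A r₀) fun k l => sx σ false k l + sx σ true k l)
        (fun i => b (r₀ i))).card := by
      refine card_bij (fun σ _ => σ + sgm A J1 p₀) ?_ ?_ ?_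
      · intro σ hσ
        rw [mem_filter] at hσ ⊢
        exact ⟨mem_univ _, hσ.2⟩
      · intro σ _ σ' _ h
        exact add_right_cancel h
      · intro σ hσ
        refine ⟨σ - sgm A J1 p₀, ?_, sub_add_cancel _ _⟩
        rw [mem_filter] at hσ ⊢
        refine ⟨mem_univ _, ?_⟩
        simp only [hQ, sub_add_cancel]
        exact hσ.2
    have h2' : |((univ.filter Q).card : ℝ) / 2 ^ (sl J1).card - c2| ≤ cc := by
      rw [hQc]
      exact h2
    set n : ℝ := (((Fintype.piFinset C').filter fun p =>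
          Q fun e => sys A e.1.2 (p e.1.1.1) (p e.1.1.2)).card : ℝ) with hn
    set q : ℝ := ((univ.filter Q).card : ℝ) / 2 ^ (sl J1).card with hq
    set P : ℝ := ∏ j, ((C' j).card : ℝ) with hP
    have hP0 : 0 ≤ P := Finset.prod_nonneg fun j _ => by positivity
    have h6 : |n - c2 * P| ≤ |n - q * P| + |q - c2| * P := by
      have h7 : n - c2 * P = (n - q * P) + (q - c2) * P := by ring
      have h8 : |(q - c2) * P| = |q - c2| * P := by rw [abs_mul, abs_of_nonneg hP0]
      rw [h7, ← h8]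
      exact abs_add_le _ _
    have h7 : |q - c2| * P ≤ cc * P := mul_le_mul_of_nonneg_right h2' hP0
    have h8 : |n - q * P| ≤ R := h3
    linarith
  -- sum over the labels
  set LL := univ.filter (fun β : ι → Lb S₀ => LN S₀ τ β) with hLL
  have hfib : ∀ T : (ι → ℕ) → Prop,
      (((Fintype.piFinset C).filter fun p => Nd S₀ (univ.image p) ∧ T p).card : ℝ) =
      ∑ β ∈ LL, (((Fintype.piFinset C).filter fun p =>
        (fun i => lb A b S₀ (p i)) = β ∧ T p).card : ℝ) := by
    intro T
    rw [Finset.card_eq_sum_card_fiberwise (f := fun (p : ι → ℕ) (i : ι) => lb A b S₀ (p i))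
      (t := LL) (by
        intro p hp
        rw [Finset.mem_coe, Finset.mem_filter] at hp
        rw [Finset.mem_coe, hLL, Finset.mem_filter]
        exact ⟨Finset.mem_univ _, (nd_iff A b (hτ p hp.1)).1 hp.2.1⟩)]
    push_cast
    refine Finset.sum_congr rfl fun β hβ => ?_
    rw [hLL, Finset.mem_filter] at hβ
    congr 2
    ext p
    simp only [Finset.mem_filter]
    constructor
    · rintro ⟨⟨h3, h4, h4'⟩, h5⟩
      exact ⟨h3, h5, h4'⟩
    · rintro ⟨h3, h4, h5⟩
      refine ⟨⟨h3, ?_, h5⟩, h4⟩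
      rw [nd_iff A b (hτ p h3), h4]
      exact hβ.2
  have hf1 := hfib fun p => Gd A b (S₀ ∪ univ.image p)
  have hf2 := hfib fun _ => True
  simp only [and_true] at hf2
  rw [hf1, hf2, Finset.mul_sum, ← Finset.sum_sub_distrib]
  refine (Finset.abs_sum_le_sum_abs _ _).trans ?_
  refine (Finset.sum_le_sum fun β hβ => h1 β (Finset.mem_filter.1 hβ).2).trans ?_
  rw [Finset.sum_add_distrib, ← Finset.mul_sum, Finset.sum_const, nsmul_eq_mul]
  have h5 : ((LL.card : ℕ) : ℝ) ≤ 2 ^ ((4 * S₀.card + 1) * Fintype.card ι) := by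
    have h6 : LL.card ≤ Fintype.card (ι → Lb S₀) := Finset.card_le_univ _
    rw [Fintype.card_fun, Fintype.card_prod, Fintype.card_prod, Fintype.card_prod,
      Fintype.card_prod, Fintype.card_fun, ZMod.card,
      Fintype.card_coe, ← pow_succ, ← pow_add, ← pow_add, ← pow_add, ← pow_mul] at h6
    have h7 : (S₀.card + (S₀.card + (S₀.card + (S₀.card + 1)))) * Fintype.card ι =
        (4 * S₀.card + 1) * Fintype.card ι := by
      ring
    rw [h7] at h6
    exact_mod_cast h6
  have h6 := mul_le_mul_of_nonneg_right h5 hR0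
  rw [pow_add, mul_assoc]
  linarith

end Pool.Agent.N973.ND
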