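import Pool.Agent.N973.ND.Stm
import Pool.Agent.Y356.CQ.EQ

/-!
# ND-EQ: equidistribution of the symbols of a tuple of primes

An adaptation of the file EQ of Y356 (project CQ) to two symbols for each pair.
-/

set_option autoImplicit false
set_option linter.unusedVariables false

open scoped Classical

namespace Pool.Agent.N973.ND

open Finset
open Pool.Agent.Y703.CQ (nr sg)
open Pool.Agent.Y356.CQ (resample2 sg_zero sg_one sg_add sg_sum norm_sg sum_sg)

section
variable {ι : Type} [Fintype ι] [DecidableEq ι]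

/-- a sum over the pairs -/
def lc (h : ι × ι → ℕ → ℕ → ZMod 2) (p : ι → ℕ) : ZMod 2 := ∑ e : ι × ι, h e (p e.1) (p e.2)

/-- the dependence on two of the primes -/
theorem lc_split (g : ι × ι → ℕ → ℕ → ZMod 2) {i l : ι} (hil : i ≠ l) (p : ι → ℕ) :
    ∃ u v : ℕ → ZMod 2, ∀ x y, lc g (Function.update (Function.update p i x) l y) =
        u x + v y + (g (i, l) x y + g (l, i) y x) := by
  refine ⟨fun x => ∑ e ∈ ((univ.erase (i, l)).erase (l, i)).filter (fun e => e.1 = i ∨ e.2 = i),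
      g e (Function.update p i x e.1) (Function.update p i x e.2),
    fun y => ∑ e ∈ ((univ.erase (i, l)).erase (l, i)).filter (fun e => ¬ (e.1 = i ∨ e.2 = i)),
      g e (Function.update p l y e.1) (Function.update p l y e.2),
    fun x y => ?_⟩
  unfold lc
  have hne : ((l, i) : ι × ι) ≠ (i, l) := fun h => hil (Prod.mk.inj h).2
  rw [← Finset.add_sum_erase univ _ (Finset.mem_univ ((i, l) : ι × ι)),
    ← Finset.add_sum_erase (univ.erase ((i, l) : ι × ι)) _
      (Finset.mem_erase.2 ⟨hne, Finset.mem_univ ((l, i) : ι × ι)⟩)]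
  have e1 : Function.update (Function.update p i x) l y i = x := by
    rw [Function.update_of_ne hil, Function.update_self]
  have e2 : Function.update (Function.update p i x) l y l = y := Function.update_self _ _ _
  simp only [e1, e2]
  rw [← Finset.sum_filter_add_sum_filter_not ((univ.erase ((i, l) : ι × ι)).erase (l, i))
    (fun e => e.1 = i ∨ e.2 = i)]
  have e3 : ∑ e ∈ ((univ.erase ((i, l) : ι × ι)).erase (l, i)).filter (fun e => e.1 = i ∨ e.2 = i),
      g e (Function.update (Function.update p i x) l y e.1)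
        (Function.update (Function.update p i x) l y e.2) =
      ∑ e ∈ ((univ.erase ((i, l) : ι × ι)).erase (l, i)).filter (fun e => e.1 = i ∨ e.2 = i),
      g e (Function.update p i x e.1) (Function.update p i x e.2) := by
    refine Finset.sum_congr rfl fun e he => ?_
    rw [Finset.mem_filter, Finset.mem_erase, Finset.mem_erase] at he
    obtain ⟨⟨hne1, hne2, -⟩, hei⟩ := he
    have h1 : e.1 ≠ l ∧ e.2 ≠ l := by
      rcases hei with h | h
      · exact ⟨by rw [h]; exact hil, fun h' => hne2 (Prod.ext h h')⟩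
      · exact ⟨fun h' => hne1 (Prod.ext h' h), by rw [h]; exact hil⟩
    rw [Function.update_of_ne h1.1, Function.update_of_ne h1.2]
  have e4 : ∑ e ∈ ((univ.erase ((i, l) : ι × ι)).erase (l, i)).filter
      (fun e => ¬ (e.1 = i ∨ e.2 = i)),
      g e (Function.update (Function.update p i x) l y e.1)
        (Function.update (Function.update p i x) l y e.2) =
      ∑ e ∈ ((univ.erase ((i, l) : ι × ι)).erase (l, i)).filter (fun e => ¬ (e.1 = i ∨ e.2 = i)),
      g e (Function.update p l y e.1) (Function.update p l y e.2) := by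
    refine Finset.sum_congr rfl fun e he => ?_
    rw [Finset.mem_filter, not_or] at he
    obtain ⟨_, h1, h2⟩ := he
    have key : ∀ j, j ≠ i → Function.update (Function.update p i x) l y j =
        Function.update p l y j := by
      intro j hj
      by_cases h : j = l
      · subst h
        rw [Function.update_self, Function.update_self]
      · rw [Function.update_of_ne h, Function.update_of_ne h, Function.update_of_ne hj]
    rw [key _ h1, key _ h2]
  rw [e3, e4]
  ring

end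

section
variable {ι : Type} [Fintype ι] [LinearOrder ι] {A : ℕ → ℕ → ZMod 2}

/-- the sum over the slots -/
theorem sum_sl {J1 : Finset ι} (γ : sl J1 → ZMod 2) (p : ι → ℕ) :
    ∑ e : sl J1, γ e * sys A e.1.2 (p e.1.1.1) (p e.1.1.2) =
      lc (fun q x y => (if h : (q, false) ∈ sl J1 then γ ⟨(q, false), h⟩ else 0) * nr x y +
        (if h : (q, true) ∈ sl J1 then γ ⟨(q, true), h⟩ else 0) * A x y) p := by
  set g : (ι × ι) × Bool → ZMod 2 := fun e => if h : e ∈ sl J1 then γ ⟨e, h⟩ else 0 with hg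
  have h1 : ∑ e : sl J1, γ e * sys A e.1.2 (p e.1.1.1) (p e.1.1.2) =
      ∑ e : (ι × ι) × Bool, g e * sys A e.2 (p e.1.1) (p e.1.2) := by
    rw [← Finset.sum_subset (Finset.subset_univ (sl J1))]
    · rw [← Finset.sum_coe_sort (sl J1)]
      refine Finset.sum_congr rfl fun e _ => ?_
      simp only [hg]
      rw [dif_pos e.2]
    · intro e _ he
      simp only [hg]
      rw [dif_neg he, zero_mul]
  rw [h1, Fintype.sum_prod_type]
  unfold lc
  refine sum_congr rfl fun q _ => ?_
  rw [Fintype.sum_bool, add_comm]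
  rfl

theorem norm_S {J1 : Finset ι} {C : ι → Finset ℕ} {X : ι → ℕ} {κ : ℝ} (hκ : 0 ≤ κ)
    (hC : ∀ i, (C i).card ≤ X i) (HBh : HB A J1 C X κ) (γ : sl J1 → ZMod 2) (hγ : γ ≠ 0) :
    ‖∑ p ∈ Fintype.piFinset C, sg (∑ e : sl J1, γ e * sys A e.1.2 (p e.1.1.1) (p e.1.1.2))‖ ≤
      κ * ∏ j, (X j : ℝ) := by
  have h1 : ∃ e, γ e ≠ 0 := by
    by_contra h
    push Not at h
    exact hγ (funext h)
  obtain ⟨⟨⟨⟨i, l⟩, c₀⟩, hmem⟩, he⟩ := h1
  obtain ⟨-, hlt, hb⟩ := Finset.mem_filter.1 hmem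
  simp only at hlt hb
  have hil : i ≠ l := hlt.ne
  set α : ZMod 2 := if h : ((i, l), false) ∈ sl J1 then γ ⟨((i, l), false), h⟩ else 0 with hα
  set β : ZMod 2 := if h : ((i, l), true) ∈ sl J1 then γ ⟨((i, l), true), h⟩ else 0 with hβ
  have hαβ : α ≠ 0 ∨ β ≠ 0 := by
    cases c₀ with
    | false =>
      left
      rw [hα, dif_pos hmem]
      exact he
    | true =>
      right
      rw [hβ, dif_pos hmem]
      exact he
  have hβJ : β ≠ 0 → i ∈ J1 ∧ l ∈ J1 := by
    intro h
    by_cases h2 : ((i, l), true) ∈ sl J1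
    · exact (Finset.mem_filter.1 h2).2.2 rfl
    · exact absurd (by rw [hβ, dif_neg h2]) h
  have hno : ∀ c, ((l, i), c) ∉ sl J1 := fun c h =>
    lt_asymm hlt (Finset.mem_filter.1 h).2.1
  have hpos : 0 ≤ κ * ∏ j, (X j : ℝ) :=
    mul_nonneg hκ (Finset.prod_nonneg fun j _ => Nat.cast_nonneg _)
  by_cases hemp : (C i).card = 0 ∨ (C l).card = 0
  · have h0 : Fintype.piFinset C = ∅ := by
      rcases hemp with h | h
      · rw [Finset.card_eq_zero] at h
        exact Fintype.piFinset_eq_empty.2 ⟨i, h⟩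
      · rw [Finset.card_eq_zero] at h
        exact Fintype.piFinset_eq_empty.2 ⟨l, h⟩
    rw [h0, Finset.sum_empty, norm_zero]
    exact hpos
  rw [not_or] at hemp
  have hci : (0 : ℝ) < (C i).card := by exact_mod_cast Nat.pos_of_ne_zero hemp.1
  have hcl : (0 : ℝ) < (C l).card := by exact_mod_cast Nat.pos_of_ne_zero hemp.2
  simp only [sum_sl]
  set g : ι × ι → ℕ → ℕ → ZMod 2 := fun q x y =>
    (if h : (q, false) ∈ sl J1 then γ ⟨(q, false), h⟩ else 0) * nr x y +
        (if h : (q, true) ∈ sl J1 then γ ⟨(q, true), h⟩ else 0) * A x y with hg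
  have hg1 : ∀ x y, g (i, l) x y = α * nr x y + β * A x y := fun x y => rfl
  have hg2 : ∀ x y, g (l, i) x y = 0 := by
    intro x y
    simp only [hg]
    rw [dif_neg (hno false), dif_neg (hno true), zero_mul, zero_mul, add_zero]
  have h1 := resample2 C i l (fun p => sg (lc g p))
  have h2 : ∀ p : ι → ℕ, ‖∑ x ∈ C i, ∑ y ∈ C l,
      sg (lc g (Function.update (Function.update p i x) l y))‖ ≤ κ * (X i * X l) := by
    intro p
    obtain ⟨u, v, huv⟩ := lc_split g hil p
    have h3 := HBh i l hil α β (fun x => sg (u x)) (fun y => sg (v y)) hαβ hβJ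
      (fun x => (norm_sg _).le) (fun y => (norm_sg _).le)
    refine le_trans (le_of_eq ?_) h3
    congr 1
    refine Finset.sum_congr rfl fun x _ => Finset.sum_congr rfl fun y _ => ?_
    rw [huv x y, hg1, hg2, add_zero, sg_add, sg_add]
  have h3 : (C i).card * ((C l).card * ‖∑ p ∈ Fintype.piFinset C, sg (lc g p)‖) ≤
      (∏ j, ((C j).card : ℝ)) * (κ * (X i * X l)) := by
    have e : (C i).card * ((C l).card * ‖∑ p ∈ Fintype.piFinset C, sg (lc g p)‖) =
        ‖((C i).card : ℂ) * ((C l).card * ∑ p ∈ Fintype.piFinset C, sg (lc g p))‖ := by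
      rw [norm_mul, norm_mul, Complex.norm_natCast, Complex.norm_natCast]
    rw [e, ← h1]
    refine (norm_sum_le _ _).trans ?_
    refine (Finset.sum_le_sum fun p _ => h2 p).trans ?_
    rw [Finset.sum_const, nsmul_eq_mul, Fintype.card_piFinset]
    push_cast
    exact le_rfl
  have h4 : ∏ j, ((C j).card : ℝ) = (C i).card * ((C l).card *
      ∏ j ∈ (univ.erase i).erase l, ((C j).card : ℝ)) := by
    rw [← Finset.mul_prod_erase univ _ (Finset.mem_univ i),
      ← Finset.mul_prod_erase (univ.erase i) _ (Finset.mem_erase.2 ⟨hil.symm, Finset.mem_univ l⟩)]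
  have h5 : ∏ j, (X j : ℝ) = X i * (X l * ∏ j ∈ (univ.erase i).erase l, (X j : ℝ)) := by
    rw [← Finset.mul_prod_erase univ _ (Finset.mem_univ i),
      ← Finset.mul_prod_erase (univ.erase i) _ (Finset.mem_erase.2 ⟨hil.symm, Finset.mem_univ l⟩)]
  rw [h4, mul_assoc, mul_assoc] at h3
  have h6 := le_of_mul_le_mul_left (le_of_mul_le_mul_left h3 hci) hcl
  refine h6.trans ?_
  have h7 : ∏ j ∈ (univ.erase i).erase l, ((C j).card : ℝ) ≤
      ∏ j ∈ (univ.erase i).erase l, (X j : ℝ) :=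
    Finset.prod_le_prod (fun _ _ => Nat.cast_nonneg _) fun j _ => by exact_mod_cast hC j
  rw [h5]
  calc (∏ j ∈ (univ.erase i).erase l, ((C j).card : ℝ)) * (κ * (X i * X l)) ≤
        (∏ j ∈ (univ.erase i).erase l, (X j : ℝ)) * (κ * (X i * X l)) := by
        gcongr
    _ = κ * (X i * (X l * ∏ j ∈ (univ.erase i).erase l, (X j : ℝ))) := by ring

/-- the detection of one vector -/
theorem detect {J1 : Finset ι} (a b : sl J1 → ZMod 2) :
    ∑ γ : sl J1 → ZMod 2, sg (∑ e : sl J1, γ e * (b e - a e)) =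
      if b = a then (2 : ℂ) ^ (sl J1).card else 0 := by
  have h1 : ∑ γ : sl J1 → ZMod 2, sg (∑ e : sl J1, γ e * (b e - a e)) =
      ∏ e : sl J1, ∑ c : ZMod 2, sg (c * (b e - a e)) := by
    rw [Finset.prod_univ_sum, Fintype.piFinset_univ]
    refine Finset.sum_congr rfl fun γ _ => ?_
    rw [sg_sum]
  rw [h1]
  simp only [sum_sg]
  split_ifs with h
  · rw [Finset.prod_congr rfl (g := fun _ => (2 : ℂ)), Finset.prod_const, Finset.card_univ,
      Fintype.card_coe]
    intro e _
    rw [if_pos]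
    rw [h, sub_self]
  · have h2 : ∃ e, b e ≠ a e := by
      by_contra h'
      push Not at h'
      exact h (funext h')
    obtain ⟨e, he⟩ := h2
    refine Finset.prod_eq_zero (Finset.mem_univ e) ?_
    rw [if_neg]
    exact sub_ne_zero.2 he

/-- the count for one vector -/
theorem count_one {J1 : Finset ι} {C : ι → Finset ℕ} {X : ι → ℕ} {κ : ℝ} (hκ : 0 ≤ κ)
    (hC : ∀ i, (C i).card ≤ X i) (HBh : HB A J1 C X κ) (a : sl J1 → ZMod 2) :
    |(((Fintype.piFinset C).filter fun p =>
        (fun e : sl J1 => sys A e.1.2 (p e.1.1.1) (p e.1.1.2)) = a).card : ℝ)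
      - (∏ j, ((C j).card : ℝ)) / 2 ^ (sl J1).card| ≤ κ * ∏ j, (X j : ℝ) := by
  set m := (sl J1).card with hm
  set R : ℝ := κ * ∏ j, (X j : ℝ) with hR
  have hR0 : 0 ≤ R := mul_nonneg hκ (Finset.prod_nonneg fun j _ => Nat.cast_nonneg _)
  have hpow : (0 : ℝ) < 2 ^ m := by positivity
  set N : ℝ := (((Fintype.piFinset C).filter fun p =>
    (fun e : sl J1 => sys A e.1.2 (p e.1.1.1) (p e.1.1.2)) = a).card : ℝ) with hN
  set S : (sl J1 → ZMod 2) → ℂ := fun γ => ∑ p ∈ Fintype.piFinset C,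
    sg (∑ e : sl J1, γ e * sys A e.1.2 (p e.1.1.1) (p e.1.1.2)) with hS
  have h1 : ((N * 2 ^ m : ℝ) : ℂ) = ∑ γ : sl J1 → ZMod 2, sg (∑ e : sl J1, γ e * (- a e)) * S γ := by
    have e1 : ((N * 2 ^ m : ℝ) : ℂ) = ∑ p ∈ Fintype.piFinset C,
        (if (fun e : sl J1 => sys A e.1.2 (p e.1.1.1) (p e.1.1.2)) = a then (2 : ℂ) ^ m else 0) := by
      rw [← Finset.sum_filter, Finset.sum_const, nsmul_eq_mul, hN]
      push_cast
      rfl
    rw [e1]
    have e2 : ∀ p ∈ Fintype.piFinset C,
        (if (fun e : sl J1 => sys A e.1.2 (p e.1.1.1) (p e.1.1.2)) = a then (2 : ℂ) ^ m else 0) =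
        ∑ γ : sl J1 → ZMod 2, sg (∑ e : sl J1, γ e * (- a e)) *
          sg (∑ e : sl J1, γ e * sys A e.1.2 (p e.1.1.1) (p e.1.1.2)) := by
      intro p _
      rw [hm, ← detect]
      refine Finset.sum_congr rfl fun γ _ => ?_
      rw [← sg_add, ← Finset.sum_add_distrib]
      congr 1
      refine Finset.sum_congr rfl fun e _ => ?_
      ring
    rw [Finset.sum_congr rfl e2, Finset.sum_comm]
    refine Finset.sum_congr rfl fun γ _ => ?_
    rw [hS, Finset.mul_sum]
  have h2 : S 0 = ((∏ j, ((C j).card : ℝ) : ℝ) : ℂ) := by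
    rw [hS]
    simp only [Pi.zero_apply, zero_mul, Finset.sum_const_zero, sg_zero, Finset.sum_const,
      nsmul_eq_mul, mul_one]
    rw [Fintype.card_piFinset]
    push_cast
    rfl
  have h3 : ‖((N * 2 ^ m : ℝ) : ℂ) - ((∏ j, ((C j).card : ℝ) : ℝ) : ℂ)‖ ≤ 2 ^ m * R := by
    rw [h1, ← h2, ← Finset.add_sum_erase univ _ (Finset.mem_univ (0 : sl J1 → ZMod 2))]
    have e0 : sg (∑ e : sl J1, (0 : sl J1 → ZMod 2) e * (- a e)) = 1 := by
      simp only [Pi.zero_apply, zero_mul, Finset.sum_const_zero, sg_zero]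
    rw [e0, one_mul, add_sub_cancel_left]
    refine (norm_sum_le _ _).trans ?_
    have h4 : ∀ γ ∈ univ.erase (0 : sl J1 → ZMod 2),
        ‖sg (∑ e : sl J1, γ e * (- a e)) * S γ‖ ≤ R := by
      intro γ hγ
      rw [norm_mul, norm_sg, one_mul]
      exact norm_S hκ hC HBh γ (Finset.mem_erase.1 hγ).1
    refine (Finset.sum_le_card_nsmul _ _ _ h4).trans ?_
    rw [nsmul_eq_mul]
    refine mul_le_mul_of_nonneg_right ?_ hR0
    have h5 : (univ.erase (0 : sl J1 → ZMod 2)).card ≤ 2 ^ m := by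
      refine (Finset.card_le_univ _).trans (le_of_eq ?_)
      rw [Fintype.card_fun, ZMod.card, Fintype.card_coe]
    exact_mod_cast h5
  rw [← Complex.ofReal_sub, Complex.norm_real, Real.norm_eq_abs] at h3
  have h4 : N - (∏ j, ((C j).card : ℝ)) / 2 ^ m = (N * 2 ^ m - ∏ j, ((C j).card : ℝ)) / 2 ^ m := by
    field_simp
  rw [h4, abs_div, abs_of_pos hpow, div_le_iff₀ hpow, mul_comm R]
  exact h3

end

/-- **ND-EQ.** -/
theorem t_EQ : S_EQ := by
  intro A ι _ _ J1 C X κ hκ hC HBh Q
  have h1 : (((Fintype.piFinset C).filter fun p =>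
        Q fun e => sys A e.1.2 (p e.1.1.1) (p e.1.1.2)).card : ℝ) =
      ∑ a ∈ univ.filter Q, (((Fintype.piFinset C).filter fun p =>
        (fun e : sl J1 => sys A e.1.2 (p e.1.1.1) (p e.1.1.2)) = a).card : ℝ) := by
    rw [Finset.card_eq_sum_card_fiberwise (f := fun (p : ι → ℕ) (e : sl J1) =>
      sys A e.1.2 (p e.1.1.1) (p e.1.1.2)) (t := univ.filter Q) (by
        intro p hp
        rw [Finset.mem_coe, Finset.mem_filter] at hp
        rw [Finset.mem_coe, Finset.mem_filter]
        exact ⟨Finset.mem_univ _, hp.2⟩)]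
    push_cast
    refine Finset.sum_congr rfl fun a ha => ?_
    rw [Finset.mem_filter] at ha
    congr 2
    ext p
    simp only [Finset.mem_filter]
    constructor
    · rintro ⟨⟨h2, h3⟩, h4⟩
      exact ⟨h2, h4⟩
    · rintro ⟨h2, h3⟩
      exact ⟨⟨h2, by rw [h3]; exact ha.2⟩, h3⟩
  have h2 : ((univ.filter Q).card : ℝ) / 2 ^ (sl J1).card * ∏ j, ((C j).card : ℝ) =
      ∑ a ∈ univ.filter Q, (∏ j, ((C j).card : ℝ)) / 2 ^ (sl J1).card := by
    rw [Finset.sum_const, nsmul_eq_mul]
    ring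
  rw [h1, h2, ← Finset.sum_sub_distrib]
  refine (Finset.abs_sum_le_sum_abs _ _).trans ?_
  refine (Finset.sum_le_card_nsmul _ _ _ (fun a _ => count_one hκ hC HBh a)).trans ?_
  rw [nsmul_eq_mul]
  have hR0 : 0 ≤ κ * ∏ j, (X j : ℝ) :=
    mul_nonneg hκ (Finset.prod_nonneg fun j _ => Nat.cast_nonneg _)
  refine mul_le_mul_of_nonneg_right ?_ hR0
  have h5 : (univ.filter Q).card ≤ 2 ^ (sl J1).card := by
    refine (Finset.card_le_univ _).trans (le_of_eq ?_)
    rw [Fintype.card_fun, ZMod.card, Fintype.card_coe]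
  exact_mod_cast h5

end Pool.Agent.N973.ND
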