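import Pool.Agent.N973.ND.LA2

/-!
# ND-LA: the probability that a random completion is good
-/

set_option autoImplicit false
set_option linter.unusedSectionVars false

open scoped Classical

namespace Pool.Agent.N973.ND

open Finset
open Pool.Agent.Y703.CQ (S_C2 c2)

section

variable {U J : Type} [Fintype U] [Fintype J] [LinearOrder J] {J1 : Finset J}
  {Sp Pc : Finset (U ⊕ J)} {u : U ⊕ J → ZMod 2} {N E : U ⊕ J → U ⊕ J → ZMod 2} {m : ℕ}

/-- the changes of the symbols `A` -/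
def KK (J1 : Finset J) : Submodule (ZMod 2) (sl J1 → ZMod 2) where
  carrier := {γ | ∀ t : sl J1, t.1.2 = false → γ t = 0}
  add_mem' := by
    intro γ δ h1 h2 t ht
    rw [Pi.add_apply, h1 t ht, h2 t ht, add_zero]
  zero_mem' := fun _ _ => rfl
  smul_mem' := by
    intro a γ h t ht
    rw [Pi.smul_apply, h t ht, smul_zero]

theorem sx_KK {γ : sl J1 → ZMod 2} (h : γ ∈ KK J1) (k l : J) : sx γ false k l = 0 := by
  unfold sx
  split_ifs with h1 h2
  · exact h _ rfl
  · exact h _ rfl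
  · rfl

/-- the matrix `N` -/
noncomputable abbrev Ns (N : U ⊕ J → U ⊕ J → ZMod 2) (σ : sl J1 → ZMod 2) :
    U ⊕ J → U ⊕ J → ZMod 2 := pt N (sx σ false)

/-- the matrix `E` -/
noncomputable abbrev Es (E : U ⊕ J → U ⊕ J → ZMod 2) (σ : sl J1 → ZMod 2) :
    U ⊕ J → U ⊕ J → ZMod 2 := pt E fun k l => sx σ false k l + sx σ true k l

theorem Ns_add {γ : sl J1 → ZMod 2} (h : γ ∈ KK J1) (σ : sl J1 → ZMod 2) :
    Ns N (σ + γ) = Ns N σ := by
  funext i j
  cases i with
  | inl v => rfl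
  | inr k =>
    cases j with
    | inl w => rfl
    | inr l =>
      show N _ _ + sx (σ + γ) false k l = N _ _ + sx σ false k l
      rw [sx_add, sx_KK h, add_zero]

theorem Es_ll (σ : sl J1 → ZMod 2) (i j : U ⊕ J) (h : ∀ k l, ¬ (i = Sum.inr k ∧ j = Sum.inr l)) :
    Es E σ i j = E i j := by
  cases i with
  | inl v => rfl
  | inr k =>
    cases j with
    | inl w => rfl
    | inr l => exact absurd ⟨rfl, rfl⟩ (h k l)

theorem Es_symm (H : Hyp J1 Sp Pc u N E m) (σ : sl J1 → ZMod 2) :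
    ∀ i ∈ Sp, ∀ j ∈ Sp, Es E σ i j = Es E σ j i := by
  intro i hi j hj
  have h0 := H.es i hi j hj
  cases i with
  | inl v =>
    cases j with
    | inl w => exact h0
    | inr l => exact h0
  | inr k =>
    cases j with
    | inl w => exact h0
    | inr l =>
      show E _ _ + (sx σ false k l + sx σ true k l) = E _ _ + (sx σ false l k + sx σ true l k)
      rw [h0, sx_symm σ false k l, sx_symm σ true k l]

theorem Es_self (H : Hyp J1 Sp Pc u N E m) (σ : sl J1 → ZMod 2) (i : U ⊕ J) : Es E σ i i = 0 := by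
  have h0 := H.e0 i
  cases i with
  | inl v => exact h0
  | inr k =>
    show E _ _ + (sx σ false k k + sx σ true k k) = 0
    rw [h0, sx_self, sx_self, add_zero, add_zero]

/-- the change of the form -/
theorem bf_pt (M : U ⊕ J → U ⊕ J → ZMod 2) (F F' : U ⊕ J → U ⊕ J → ZMod 2) (δ : J → J → ZMod 2)
    (b : U ⊕ J → ZMod 2) (hF : F' = pt F δ) (y s : U ⊕ J → ZMod 2) :
    bf M F' b y s = bf M F b y s + ∑ k, ∑ l, y (Sum.inr k) * δ k l * s (Sum.inr l) := by
  subst hF
  unfold bf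
  have h1 : ∑ i, ∑ j, y i * pt F δ i j * s j = ∑ i, ∑ j, y i * F i j * s j +
      ∑ k, ∑ l, y (Sum.inr k) * δ k l * s (Sum.inr l) := by
    simp only [Fintype.sum_sum_type]
    have e1 : ∀ v j, pt F δ (Sum.inl v) j = F (Sum.inl v) j := fun _ _ => rfl
    have e2 : ∀ k v, pt F δ (Sum.inr k) (Sum.inl v) = F (Sum.inr k) (Sum.inl v) := fun _ _ => rfl
    have e3 : ∀ k l, pt F δ (Sum.inr k) (Sum.inr l) = F (Sum.inr k) (Sum.inr l) + δ k l :=
      fun _ _ => rfl
    simp only [e1, e2, e3, mul_add, add_mul, sum_add_distrib]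
    ring
  rw [h1]
  ring

theorem Es_add {γ : sl J1 → ZMod 2} (h : γ ∈ KK J1) (σ : sl J1 → ZMod 2) :
    Es E (σ + γ) = pt (Es E σ) (sx γ true) := by
  funext i j
  cases i with
  | inl v => rfl
  | inr k =>
    cases j with
    | inl w => rfl
    | inr l =>
      show E _ _ + (sx (σ + γ) false k l + sx (σ + γ) true k l) =
        E _ _ + (sx σ false k l + sx σ true k l) + sx γ true k l
      rw [sx_add, sx_add, sx_KK h]
      ring

/-- the elements of the dual kernel are determined by their values at the large primes -/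
theorem Z_ind (H : Hyp J1 Sp Pc u N E m) (b : U ⊕ J → ZMod 2) (σ : sl J1 → ZMod 2)
    {s : U ⊕ J → ZMod 2} (hs : Zk Sp Pc (Ns N σ) b s) (h : ∀ k ∈ J1, s (Sum.inr k) = 0) :
    s = 0 := by
  have hJ : ∀ k, s (Sum.inr k) = 0 := by
    intro k
    by_cases hk : k ∈ J1
    · exact h k hk
    · exact hs.1 _ fun h1 => hk ((H.sp k).1 h1)
  have hU : ∀ v, s (Sum.inl v) = 0 := by
    by_contra hc
    push Not at hc
    obtain ⟨k, hk, huk, hne⟩ := H.nd (fun v => s (Sum.inl v)) hc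
    apply hne
    have h1 := hs.2 (Sum.inr k) (by
      rw [H.pc, H.sp]
      exact Or.inl ⟨hk, huk⟩)
    unfold Ph at h1
    rw [hJ k, mul_zero, add_zero, Fintype.sum_sum_type] at h1
    have h2 : ∑ l, s (Sum.inr l) * Ns N σ (Sum.inr l) (Sum.inr k) = 0 :=
      sum_eq_zero fun l _ => by rw [hJ, zero_mul]
    rw [h2, add_zero] at h1
    exact h1
  funext i
  cases i with
  | inl v => exact hU v
  | inr k => exact hJ k

theorem pp_card (m : ℕ) : Fintype.card (Pp (2 * m)) = m * (2 * m - 1) := by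
  have h1 : Fintype.card (Pp (2 * m)) = ∑ j : Fin (2 * m), (j : ℕ) := by
    rw [Fintype.card_subtype]
    rw [card_eq_sum_card_fiberwise (f := Prod.snd) (t := univ) fun _ _ => mem_coe.2 (mem_univ _)]
    refine sum_congr rfl fun j _ => ?_
    have h2 : (univ.filter fun p : Fin (2 * m) × Fin (2 * m) => p.1 < p.2).filter
        (fun p => p.2 = j) = (Iio j).map ⟨fun i => (i, j), fun a b h => congrArg Prod.fst h⟩ := by
      ext p
      simp only [mem_filter, mem_univ, true_and, mem_map, mem_Iio]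
      constructor
      · rintro ⟨h3, h4⟩
        exact ⟨p.1, by rw [← h4]; exact h3, Prod.ext rfl h4.symm⟩
      · rintro ⟨i, hi, rfl⟩
        exact ⟨hi, rfl⟩
    rw [h2, card_map, Fin.card_Iio]
  rw [h1, Fin.sum_univ_eq_sum_range (fun i => i) (2 * m), Finset.sum_range_id]
  rcases Nat.eq_zero_or_pos m with rfl | hm
  · rfl
  · obtain ⟨n, rfl⟩ : ∃ n, m = n + 1 := ⟨m - 1, by omega⟩
    have : 2 * (n + 1) * (2 * (n + 1) - 1) = 2 * ((n + 1) * (2 * (n + 1) - 1)) := by ring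
    rw [this, Nat.mul_div_cancel_left _ (by norm_num)]

/-- the proportion of the alternating matrices which are not singular -/
noncomputable def am (m : ℕ) : ℝ := ∏ i ∈ range m, (1 - (1 / 2 : ℝ) ^ (2 * i + 1))

theorem am_bd (m : ℕ) : 0 ≤ am m ∧ am m ≤ 1 := by
  unfold am
  have h : ∀ i : ℕ, 0 ≤ 1 - (1 / 2 : ℝ) ^ (2 * i + 1) ∧ 1 - (1 / 2 : ℝ) ^ (2 * i + 1) ≤ 1 := by
    intro i
    have h1 : (1 / 2 : ℝ) ^ (2 * i + 1) ≤ 1 := pow_le_one₀ (by norm_num) (by norm_num)
    have h2 : (0 : ℝ) ≤ (1 / 2 : ℝ) ^ (2 * i + 1) := by positivity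
    exact ⟨by linarith, by linarith⟩
  exact ⟨prod_nonneg fun i _ => (h i).1, prod_le_one (fun i _ => (h i).1) fun i _ => (h i).2⟩

theorem card_alt (hALT : S_ALT) (m : ℕ) :
    ((univ.filter fun r : Pp (2 * m) → ZMod 2 => (alt r).det ≠ 0).card : ℝ) =
      2 ^ (m * (2 * m - 1)) * am m := by
  have h1 := hALT m
  unfold am
  rw [← h1]
  congr 1
  rw [← Fintype.card_subtype, ← Nat.card_eq_fintype_card]
  refine Nat.card_congr (Equiv.ofBijective
    (fun r : {r : Pp (2 * m) → ZMod 2 // (alt r).det ≠ 0} =>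
      (⟨alt r.1, alt_symm r.1, alt_self r.1, r.2⟩ : {M : Matrix (Fin (2 * m)) (Fin (2 * m)) (ZMod 2) //
        M.IsSymm ∧ (∀ i, M i i = 0) ∧ M.det ≠ 0})) ⟨?_, ?_⟩)
  · rintro ⟨r, hr⟩ ⟨r', hr'⟩ h
    rw [Subtype.mk.injEq] at h ⊢
    exact alt_inj h
  · rintro ⟨M, h1, h2, h3⟩
    refine ⟨⟨fun p => M p.1.1 p.1.2, ?_⟩, Subtype.ext (alt_of h1 h2)⟩
    rw [alt_of h1 h2]
    exact h3

/-- **the number of the changes for which the form is not degenerate** -/
theorem card_nd (hALT : S_ALT) (H : Hyp J1 Sp Pc u N E m) (b : U ⊕ J → ZMod 2)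
    (σ : sl J1 → ZMod 2) (hW : ∀ x, Wk Sp Pc (Ns N σ) b x → ∀ j, x j = 0) :
    ((univ.filter fun γ : KK J1 => ∀ s, Zk Sp Pc (Ns N (σ + γ.1)) b s →
      (∀ y, Zk Sp Pc (Ns N (σ + γ.1)) b y → bf (Ns N (σ + γ.1)) (Es E (σ + γ.1)) b y s = 0) →
      ∀ j, s j = 0).card : ℝ) = Fintype.card (KK J1) * am m := by
  set M := Ns N σ with hM
  have hcZ := card_Z hW
  rw [H.card, pow_add, mul_comm] at hcZ
  have hcZ' : Nat.card (ZZ Sp Pc M b) = 2 ^ (2 * m) :=
    Nat.eq_of_mul_eq_mul_left (show 0 < 2 ^ Pc.card by positivity) hcZ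
  have hfr : Module.finrank (ZMod 2) (ZZ Sp Pc M b) = 2 * m := by
    have h1 := Module.natCard_eq_pow_finrank (K := ZMod 2) (V := ZZ Sp Pc M b)
    rw [hcZ', Nat.card_zmod] at h1
    exact (Nat.pow_right_injective le_rfl h1).symm
  set z := Module.finBasisOfFinrankEq (ZMod 2) (ZZ Sp Pc M b) hfr with hz
  have hind : ∀ c : Fin (2 * m) → ZMod 2, (∀ k ∈ J1, ∑ a, c a * (z a : U ⊕ J → ZMod 2) (Sum.inr k) =
      0) → ∀ a, c a = 0 := by
    intro c hc
    have h1 : (∑ a, c a • z a : ZZ Sp Pc M b) = 0 := by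
      apply Subtype.ext
      refine Z_ind H b σ (∑ a, c a • z a : ZZ Sp Pc M b).2 fun k hk => ?_
      rw [← hc k hk, Submodule.coe_sum, Finset.sum_apply]
      rfl
    exact Fintype.linearIndependent_iff.1 z.linearIndependent c h1
  set L : KK J1 →ₗ[ZMod 2] (Pp (2 * m) → ZMod 2) :=
    { toFun := fun γ p => ∑ k, ∑ l, (z p.1.1 : U ⊕ J → ZMod 2) (Sum.inr k) * sx γ.1 true k l *
        (z p.1.2 : U ⊕ J → ZMod 2) (Sum.inr l)
      map_add' := fun γ δ => by
        funext p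
        simp only [Pi.add_apply, Submodule.coe_add, sx_add, mul_add, add_mul, sum_add_distrib]
      map_smul' := fun a γ => by
        funext p
        simp only [Pi.smul_apply, Submodule.coe_smul, sx_smul, RingHom.id_apply, smul_eq_mul,
          mul_sum]
        exact sum_congr rfl fun k _ => sum_congr rfl fun l _ => by ring } with hL
  have hLind : ∀ h : Pp (2 * m) → ZMod 2, (∀ γ, ∑ ρ, h ρ * L γ ρ = 0) → ∀ ρ, h ρ = 0 := by
    intro h hh
    have key : ∀ p q, p < q → p ∈ J1 → q ∈ J1 → ∑ a, ∑ c, alt h a c *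
        ((z a : U ⊕ J → ZMod 2) (Sum.inr p) * (z c : U ⊕ J → ZMod 2) (Sum.inr q)) = 0 := by
      intro p q hpq hp hq
      have hsl : ((p, q), true) ∈ sl J1 := by
        unfold sl
        rw [mem_filter]
        exact ⟨mem_univ _, hpq, fun _ => ⟨hp, hq⟩⟩
      have hK : (Pi.single (⟨((p, q), true), hsl⟩ : sl J1) (1 : ZMod 2) : sl J1 → ZMod 2) ∈
          KK J1 := by
        intro t ht
        refine Pi.single_eq_of_ne ?_ _
        rintro rfl
        exact absurd ht (by simp)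
      have h1 := hh ⟨_, hK⟩
      have h2 : ∀ ρ : Pp (2 * m), L ⟨_, hK⟩ ρ =
          (z ρ.1.1 : U ⊕ J → ZMod 2) (Sum.inr p) * (z ρ.1.2 : U ⊕ J → ZMod 2) (Sum.inr q) +
          (z ρ.1.2 : U ⊕ J → ZMod 2) (Sum.inr p) * (z ρ.1.1 : U ⊕ J → ZMod 2) (Sum.inr q) := by
        intro ρ
        have h3 := sum_single hsl (fun k l => (z ρ.1.1 : U ⊕ J → ZMod 2) (Sum.inr k) *
          (z ρ.1.2 : U ⊕ J → ZMod 2) (Sum.inr l))
        have h4 : L ⟨_, hK⟩ ρ = ∑ k, ∑ l, (z ρ.1.1 : U ⊕ J → ZMod 2) (Sum.inr k) *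
          (z ρ.1.2 : U ⊕ J → ZMod 2) (Sum.inr l) *
          sx (Pi.single (⟨((p, q), true), hsl⟩ : sl J1) (1 : ZMod 2)) true k l :=
          sum_congr rfl fun k _ => sum_congr rfl fun l _ => by
            show _ * sx _ true k l * _ = _
            ring
        rw [h4, h3]
        ring
      rw [sum_congr rfl fun ρ _ => by rw [h2 ρ]] at h1
      rw [← h1]
      exact (sum_alt h fun a c => (z a : U ⊕ J → ZMod 2) (Sum.inr p) *
        (z c : U ⊕ J → ZMod 2) (Sum.inr q)).symm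
    have key2 : ∀ p q, p ∈ J1 → q ∈ J1 → ∑ a, ∑ c, alt h a c *
        ((z a : U ⊕ J → ZMod 2) (Sum.inr p) * (z c : U ⊕ J → ZMod 2) (Sum.inr q)) = 0 := by
      intro p q hp hq
      rcases lt_trichotomy p q with hpq | hpq | hpq
      · exact key p q hpq hp hq
      · subst hpq
        rw [← sum_alt h fun a c => (z a : U ⊕ J → ZMod 2) (Sum.inr p) *
          (z c : U ⊕ J → ZMod 2) (Sum.inr p)]
        refine sum_eq_zero fun ρ _ => ?_
        rw [mul_comm ((z ρ.1.2 : U ⊕ J → ZMod 2) (Sum.inr p)), z2_add, mul_zero]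
      · rw [← key q p hpq hq hp, sum_comm]
        refine sum_congr rfl fun a _ => sum_congr rfl fun c _ => ?_
        rw [(alt_symm h).apply]
        ring
    have key3 : ∀ q ∈ J1, ∀ a, ∑ c, alt h a c * (z c : U ⊕ J → ZMod 2) (Sum.inr q) = 0 := by
      intro q hq
      apply hind
      intro p hp
      rw [← key2 p q hp hq]
      refine sum_congr rfl fun a _ => ?_
      rw [sum_mul]
      exact sum_congr rfl fun c _ => by ring
    intro ρ
    have h5 := hind (fun c => alt h ρ.1.1 c) (fun q hq => key3 q hq ρ.1.1) ρ.1.2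
    rwa [alt_lt h ρ.2] at h5
  -- the Gram matrix
  set G := gm M (Es E σ) b fun a => (z a : U ⊕ J → ZMod 2) with hG
  obtain ⟨r₀, hr₀⟩ : ∃ r₀ : Pp (2 * m) → ZMod 2, alt r₀ = G := by
    refine ⟨fun p => G p.1.1 p.1.2, alt_of ?_ ?_⟩
    · apply Matrix.IsSymm.ext
      intro a c
      exact bf_comm (Es_symm H σ) (z c).2.1 (z a).2.1
    · intro a
      exact bf_self (Es_symm H σ) (Es_self H σ) (z a).2.1
  have hgr : ∀ γ : KK J1, gm M (Es E (σ + γ.1)) b (fun a => (z a : U ⊕ J → ZMod 2)) =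
      alt (r₀ + L γ) := by
    intro γ
    have h1 : ∀ a c, bf M (Es E (σ + γ.1)) b (z a) (z c) = bf M (Es E σ) b (z a) (z c) +
        ∑ k, ∑ l, (z a : U ⊕ J → ZMod 2) (Sum.inr k) * sx γ.1 true k l *
          (z c : U ⊕ J → ZMod 2) (Sum.inr l) := fun a c =>
      bf_pt M (Es E σ) _ _ b (Es_add γ.2 σ) _ _
    rw [alt_add, hr₀]
    ext a c
    rw [Matrix.add_apply]
    show bf M (Es E (σ + γ.1)) b (z a) (z c) = bf M (Es E σ) b (z a) (z c) + alt (L γ) a c
    rw [h1]
    congr 1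
    have hsym : ∀ a c : Fin (2 * m), ∑ k, ∑ l, (z a : U ⊕ J → ZMod 2) (Sum.inr k) *
        sx γ.1 true k l * (z c : U ⊕ J → ZMod 2) (Sum.inr l) = ∑ k, ∑ l,
        (z c : U ⊕ J → ZMod 2) (Sum.inr k) * sx γ.1 true k l *
          (z a : U ⊕ J → ZMod 2) (Sum.inr l) := by
      intro a c
      rw [sum_comm]
      refine sum_congr rfl fun k _ => sum_congr rfl fun l _ => ?_
      rw [sx_symm γ.1 true l k]
      ring
    rcases lt_trichotomy a c with h | h | h
    · rw [alt_lt _ h]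
      rfl
    · subst h
      rw [alt_self]
      rw [← Fintype.sum_prod_type' (f := fun k l => (z a : U ⊕ J → ZMod 2) (Sum.inr k) *
        sx γ.1 true k l * (z a : U ⊕ J → ZMod 2) (Sum.inr l))]
      refine Finset.sum_involution (fun p _ => (p.2, p.1)) ?_ ?_ (fun _ _ => mem_univ _)
        fun p _ => rfl
      · rintro ⟨k, l⟩ _
        simp only
        rw [sx_symm γ.1 true l k]
        have : ∀ x y w : ZMod 2, x * y * w + w * y * x = 0 := by decide
        exact this _ _ _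
      · rintro ⟨k, l⟩ _ h2 h3
        apply h2
        have h4 : l = k := congrArg Prod.fst h3
        simp only
        rw [h4, sx_self, mul_zero, zero_mul]
    · rw [alt_gt _ h, hsym]
      rfl
  have e1 : (univ.filter fun γ : KK J1 => ∀ s, Zk Sp Pc (Ns N (σ + γ.1)) b s →
      (∀ y, Zk Sp Pc (Ns N (σ + γ.1)) b y → bf (Ns N (σ + γ.1)) (Es E (σ + γ.1)) b y s = 0) →
      ∀ j, s j = 0) = univ.filter fun γ : KK J1 => (alt (r₀ + L γ)).det ≠ 0 := by
    refine filter_congr fun γ _ => ?_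
    rw [Ns_add γ.2, ← hM, nondeg_iff (Es_symm H _) z, hgr γ]
  rw [e1]
  have e2 : (univ.filter fun γ : KK J1 => (alt (r₀ + L γ)).det ≠ 0).card *
      2 ^ Fintype.card (Pp (2 * m)) =
      Fintype.card (KK J1) * (univ.filter fun r : Pp (2 * m) → ZMod 2 => (alt r).det ≠ 0).card := by
    rw [card_eq_sum_card_fiberwise (f := fun γ => r₀ + L γ)
      (t := univ.filter fun r : Pp (2 * m) → ZMod 2 => (alt r).det ≠ 0) (by
        intro γ hγ
        rw [mem_coe, mem_filter] at hγ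
        rw [mem_coe, mem_filter]
        exact ⟨mem_univ _, hγ.2⟩), sum_mul]
    have e3 : ∀ r ∈ univ.filter fun r : Pp (2 * m) → ZMod 2 => (alt r).det ≠ 0,
        ((univ.filter fun γ : KK J1 => (alt (r₀ + L γ)).det ≠ 0).filter
          fun γ => r₀ + L γ = r).card * 2 ^ Fintype.card (Pp (2 * m)) = Fintype.card (KK J1) := by
      intro r hr
      rw [← card_fib L hLind (r₀ + r)]
      congr 2
      ext γ
      simp only [mem_filter, mem_univ, true_and]
      have h4 : r₀ + L γ = r ↔ L γ = r₀ + r := by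
        have h5 : ∀ x : Pp (2 * m) → ZMod 2, x + x = 0 := fun x => funext fun p => z2_add _
        constructor
        · intro h
          rw [← h, ← add_assoc, h5, zero_add]
        · intro h
          rw [h, ← add_assoc, h5, zero_add]
      rw [← h4]
      constructor
      · exact fun h => h.2
      · intro h
        refine ⟨?_, h⟩
        rw [h]
        exact (mem_filter.1 hr).2
    rw [sum_congr rfl e3, sum_const, smul_eq_mul, mul_comm]
  have e3 := card_alt hALT m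
  rw [pp_card] at e2
  have e4 : ((univ.filter fun γ : KK J1 => (alt (r₀ + L γ)).det ≠ 0).card : ℝ) *
      2 ^ (m * (2 * m - 1)) = Fintype.card (KK J1) * (2 ^ (m * (2 * m - 1)) * am m) := by
    rw [← e3]
    exact_mod_cast e2
  have h2 : (0 : ℝ) < 2 ^ (m * (2 * m - 1)) := by positivity
  have e5 : ((univ.filter fun γ : KK J1 => (alt (r₀ + L γ)).det ≠ 0).card : ℝ) *
      2 ^ (m * (2 * m - 1)) = (Fintype.card (KK J1) * am m) * 2 ^ (m * (2 * m - 1)) := by
    rw [e4]
    ring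
  exact mul_right_cancel₀ h2.ne' e5

/-- the number of the good completions -/
theorem card_good (hALT : S_ALT) (H : Hyp J1 Sp Pc u N E m) (b : U ⊕ J → ZMod 2) :
    ((univ.filter fun σ : sl J1 → ZMod 2 => Gv Sp Pc (Ns N σ) (Es E σ) b).card : ℝ) =
      am m * ((univ.filter fun σ : sl J1 → ZMod 2 =>
        ∀ x, Wk Sp Pc (Ns N σ) b x → ∀ j, x j = 0).card : ℝ) := by
  set G := fun σ : sl J1 → ZMod 2 => Gv Sp Pc (Ns N σ) (Es E σ) b with hG
  set W := fun σ : sl J1 → ZMod 2 => ∀ x, Wk Sp Pc (Ns N σ) b x → ∀ j, x j = 0 with hW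
  have h1 : ∀ γ : KK J1, ((univ.filter G).card : ℝ) =
      ∑ σ : sl J1 → ZMod 2, if G (σ + γ.1) then (1 : ℝ) else 0 := by
    intro γ
    rw [card_filter]
    push_cast
    exact (Equiv.sum_comp (Equiv.addRight γ.1) fun σ => if G σ then (1 : ℝ) else 0).symm
  have h2 : (Fintype.card (KK J1) : ℝ) * ((univ.filter G).card : ℝ) =
      ∑ σ : sl J1 → ZMod 2, ((univ.filter fun γ : KK J1 => G (σ + γ.1)).card : ℝ) := by
    have h3 : ∀ σ : sl J1 → ZMod 2, ((univ.filter fun γ : KK J1 => G (σ + γ.1)).card : ℝ) =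
        ∑ γ : KK J1, if G (σ + γ.1) then (1 : ℝ) else 0 := by
      intro σ
      rw [card_filter]
      push_cast
      rfl
    simp only [h3]
    rw [sum_comm, ← sum_congr rfl fun γ _ => h1 γ, sum_const, card_univ, nsmul_eq_mul]
  have h3 : ∀ σ : sl J1 → ZMod 2, ((univ.filter fun γ : KK J1 => G (σ + γ.1)).card : ℝ) =
      if W σ then Fintype.card (KK J1) * am m else 0 := by
    intro σ
    split_ifs with hσ
    · rw [← card_nd hALT H b σ hσ]
      congr 2
      refine filter_congr fun γ _ => ?_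
      simp only [hG, Gv]
      refine and_iff_right_iff_imp.2 fun _ => ?_
      rw [Ns_add γ.2]
      exact hσ
    · rw [Nat.cast_eq_zero, card_eq_zero, filter_eq_empty_iff]
      intro γ _ hγ
      apply hσ
      have h4 := hγ.1
      rw [Ns_add γ.2] at h4
      exact h4
  rw [sum_congr rfl fun σ _ => h3 σ, ← sum_filter, sum_const, nsmul_eq_mul] at h2
  have h4 : (0 : ℝ) < Fintype.card (KK J1) := by
    exact_mod_cast Fintype.card_pos
  have h5 : (Fintype.card (KK J1) : ℝ) * ((univ.filter G).card : ℝ) =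
      Fintype.card (KK J1) * (am m * ((univ.filter W).card : ℝ)) := by
    rw [h2]
    ring
  exact mul_left_cancel₀ h4.ne' h5

end

/-- **ND-LA.** -/
theorem t_LA (hALT : S_ALT) (hC2 : S_C2) : S_LA := by
  intro U J _ _ _ J1 Sp Pc u N E b m h1 h2 h3 h4 h5 h6 h7 h8 h9
  have H : Hyp J1 Sp Pc u N E m := ⟨h1, h2, h3, h4, h5, h6, h7, h8, h9⟩
  have e1 := card_good hALT H b
  have e2 := card_W H b
  have e3 : ((univ.filter fun σ : sl J1 → ZMod 2 =>
        ∀ x, Wk Sp Pc (Ns N σ) b x → ∀ j, x j = 0).card : ℝ) +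
      ((univ.filter fun σ : sl J1 → ZMod 2 =>
        ¬ ∀ x, Wk Sp Pc (Ns N σ) b x → ∀ j, x j = 0).card : ℝ) = 2 ^ (sl J1).card := by
    rw [← Nat.cast_add, card_filter_add_card_filter_not, card_univ, Fintype.card_fun, ZMod.card,
      Fintype.card_coe]
    push_cast
    rfl
  set g := ((univ.filter fun σ : sl J1 → ZMod 2 => Gv Sp Pc (Ns N σ) (Es E σ) b).card : ℝ)
  set w := ((univ.filter fun σ : sl J1 → ZMod 2 =>
        ∀ x, Wk Sp Pc (Ns N σ) b x → ∀ j, x j = 0).card : ℝ)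
  have e4 : ((univ.filter fun σ : sl J1 → ZMod 2 =>
        ¬ ∀ x, Wk Sp Pc (Ns N σ) b x → ∀ j, x j = 0).card : ℝ) * 4 ^ m ≤ 2 ^ (sl J1).card := by
    exact_mod_cast e2
  set w' := ((univ.filter fun σ : sl J1 → ZMod 2 =>
        ¬ ∀ x, Wk Sp Pc (Ns N σ) b x → ∀ j, x j = 0).card : ℝ)
  have hT : (0 : ℝ) < 2 ^ (sl J1).card := by positivity
  set T : ℝ := 2 ^ (sl J1).card
  have hw' : 0 ≤ w' := Nat.cast_nonneg _
  have h4m : (0 : ℝ) < 4 ^ m := by positivity
  have e5 : w' / T ≤ (1 / 4 : ℝ) ^ m := by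
    rw [div_le_iff₀ hT, one_div, inv_pow, inv_mul_eq_div, le_div_iff₀ h4m]
    exact e4
  have e6 : g / T = am m - am m * (w' / T) := by
    have : w = T - w' := by linarith
    rw [e1, this]
    field_simp
  have e7 : |am m - c2| ≤ (1 / 4 : ℝ) ^ m := hC2.1 m
  obtain ⟨a0, a1⟩ := am_bd m
  have e8 : 0 ≤ w' / T := by positivity
  show |g / T - c2| ≤ _
  rw [e6]
  have e9 : am m - am m * (w' / T) - c2 = (am m - c2) - am m * (w' / T) := by ring
  rw [e9]
  refine (abs_sub _ _).trans ?_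
  have e10 : |am m * (w' / T)| ≤ (1 / 4 : ℝ) ^ m := by
    rw [abs_of_nonneg (mul_nonneg a0 e8)]
    calc am m * (w' / T) ≤ 1 * (w' / T) := mul_le_mul_of_nonneg_right a1 e8
      _ ≤ _ := by rw [one_mul]; exact e5
  linarith

end Pool.Agent.N973.ND
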