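import Pool.Agent.N973.ND.LA2

/-!
# The elimination of the unknowns
-/

set_option autoImplicit false
set_option linter.unusedSectionVars false

open scoped Classical

namespace Pool.Agent.N973.ND

open Finset

section dual

variable {V : Type} [Fintype V] {Sp Pc : Finset V} {N E : V → V → ZMod 2} {b : V → ZMod 2}

/-- the linear map of the rows -/
noncomputable def rwL (Sp Pc : Finset V) (N : V → V → ZMod 2) (b : V → ZMod 2) :
    (V → ZMod 2) →ₗ[ZMod 2] (V → ZMod 2) where
  toFun x i := if i ∈ Sp then rw' N b (fun j => if j ∈ Pc then x j else 0) i else 0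
  map_add' x y := by
    funext i
    simp only [Pi.add_apply]
    split_ifs with h
    · have e : (fun j => if j ∈ Pc then x j + y j else 0) =
          (fun j => if j ∈ Pc then x j else 0) + fun j => if j ∈ Pc then y j else 0 := by
        funext j
        simp only [Pi.add_apply]
        split_ifs <;> simp
      rw [e, rw_add]
    · rw [add_zero]
  map_smul' a x := by
    funext i
    simp only [Pi.smul_apply, RingHom.id_apply, smul_eq_mul]
    split_ifs with h
    · have e : (fun j => if j ∈ Pc then a * x j else 0) =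
          a • fun j => if j ∈ Pc then x j else 0 := by
        funext j
        simp only [Pi.smul_apply, smul_eq_mul]
        split_ifs <;> simp
      rw [e, rw_smul]
    · rw [mul_zero]

/-- the duality -/
theorem exists_x (r : V → ZMod 2)
    (h : ∀ t, Zk Sp Pc N b t → ∑ i, t i * r i = 0) :
    ∃ x : V → ZMod 2, (∀ j, j ∉ Pc → x j = 0) ∧ ∀ i ∈ Sp, rw' N b x i = r i := by
  set r' : V → ZMod 2 := fun i => if i ∈ Sp then r i else 0 with hr'
  by_cases hr : r' ∈ LinearMap.range (rwL Sp Pc N b)
  · obtain ⟨x, hx⟩ := hr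
    refine ⟨fun j => if j ∈ Pc then x j else 0, fun j hj => if_neg hj, fun i hi => ?_⟩
    have h1 := congrFun hx i
    have h2 : rwL Sp Pc N b x i = rw' N b (fun j => if j ∈ Pc then x j else 0) i := if_pos hi
    rw [h2] at h1
    rw [h1, hr']
    exact if_pos hi
  · exfalso
    obtain ⟨f, hf, hf2⟩ := Submodule.exists_le_ker_of_notMem hr
    set t : V → ZMod 2 := fun i => if i ∈ Sp then f (Pi.single i 1) else 0 with ht
    have hfe : ∀ z : V → ZMod 2, (∀ i, i ∉ Sp → z i = 0) → f z = ∑ i, t i * z i := by
      intro z hz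
      have h1 : z = ∑ i, z i • (Pi.single i 1 : V → ZMod 2) := by
        funext j
        rw [Finset.sum_apply]
        simp only [Pi.smul_apply, Pi.single_apply, smul_eq_mul, mul_ite, mul_one, mul_zero]
        rw [sum_ite_eq, if_pos (mem_univ _)]
      conv_lhs => rw [h1]
      rw [map_sum]
      refine sum_congr rfl fun i _ => ?_
      rw [map_smul, smul_eq_mul, ht]
      by_cases hi : i ∈ Sp
      · simp only [if_pos hi]
        rw [mul_comm]
      · simp only [if_neg hi]
        rw [hz i hi, zero_mul, zero_mul]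
    have hZ : Zk Sp Pc N b t := by
      refine ⟨fun i hi => if_neg hi, fun j hj => ?_⟩
      have h1 : f (rwL Sp Pc N b (Pi.single j 1)) = 0 := hf2 ⟨_, rfl⟩
      rw [hfe (rwL Sp Pc N b (Pi.single j 1)) (fun i hi => if_neg hi)] at h1
      have h2 := pair (N := N) (b := b) (Pi.single j 1) t
      have h3 : ∑ l, (Pi.single j 1 : V → ZMod 2) l * Ph N b t l = Ph N b t j := by
        simp only [Pi.single_apply, ite_mul, one_mul, zero_mul]
        rw [sum_ite_eq', if_pos (mem_univ _)]
      rw [h3] at h2
      rw [h2, ← h1]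
      refine sum_congr rfl fun i _ => ?_
      by_cases hi : i ∈ Sp
      · congr 1
        have h4 : rwL Sp Pc N b (Pi.single j 1) i =
          rw' N b (fun l => if l ∈ Pc then (Pi.single j 1 : V → ZMod 2) l else 0) i := if_pos hi
        rw [h4]
        congr 1
        funext l
        by_cases hl : l ∈ Pc
        · rw [if_pos hl]
        · rw [if_neg hl, Pi.single_apply, if_neg fun e => hl (by rw [e]; exact hj)]
      · have h4 : t i = 0 := if_neg hi
        rw [h4, zero_mul, zero_mul]
    apply hf
    rw [hfe r' (fun i hi => if_neg hi), ← h t hZ]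
    refine sum_congr rfl fun i _ => ?_
    by_cases hi : i ∈ Sp
    · congr 1
      exact if_pos hi
    · have h4 : t i = 0 := if_neg hi
      rw [h4, zero_mul, zero_mul]

end dual

section elim

variable {V : Type} [Fintype V]

/-- the system of the equations at all the primes -/
def Sys (Sp : Finset V) (u : V → ZMod 2) (N A : V → V → ZMod 2) (b : V → ZMod 2)
    (v w : V → ZMod 2) : Prop :=
  (∀ i ∈ Sp, b i * v i + ∑ j ∈ univ.filter (fun j => j ∈ Sp ∧ j ≠ i),
      (A i j * (v i + v j) + (A i j + N i j) * (v i + w j)) + b i * (v i + w i) +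
      ∑ j ∈ univ.filter (fun j => j ∉ Sp), N i j * (v i + v j) = 0) ∧
  (∀ i ∈ Sp, (b i + u i) * w i + ∑ j ∈ univ.filter (fun j => j ∈ Sp ∧ j ≠ i),
      ((A i j + N i j + u i * u j) * (w i + v j) + (A i j + u i * u j) * (w i + w j)) +
      (b i + u i) * (w i + v i) +
      ∑ j ∈ univ.filter (fun j => j ∉ Sp), N i j * (w i + v j) = 0) ∧
  ∀ i, i ∉ Sp → (1 + u i) * v i + ∑ j ∈ univ.filter (fun j => j ∈ Sp),
      (N j i * (v i + v j) + N j i * (v i + w j)) = 0

variable {Sp Pc : Finset V} {u : V → ZMod 2} {N A E : V → V → ZMod 2} {b : V → ZMod 2}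

/-- the reduced system -/
def Red (Sp : Finset V) (u : V → ZMod 2) (N E : V → V → ZMod 2) (b : V → ZMod 2)
    (v y : V → ZMod 2) : Prop :=
  (∀ i ∈ Sp, rw' N b v i + b i * y i + ∑ j, E i j * y j = 0) ∧
  (∀ i ∈ Sp, u i * v i + Ph N b y i = 0) ∧
  ∀ i, i ∉ Sp → (1 + u i) * v i + Ph N b y i = 0

theorem sum_split (i : V) (hi : i ∈ Sp) (f : V → ZMod 2) : ∑ j, f j =
    ∑ j ∈ univ.filter (fun j => j ∈ Sp ∧ j ≠ i), f j + f i +
      ∑ j ∈ univ.filter (fun j => j ∉ Sp), f j := by
  rw [← sum_filter_add_sum_filter_not univ (fun j => j ∈ Sp) f]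
  congr 1
  have h1 : univ.filter (fun j => j ∈ Sp) = insert i (univ.filter (fun j => j ∈ Sp ∧ j ≠ i)) := by
    ext j
    simp only [mem_filter, mem_univ, true_and, mem_insert]
    constructor
    · intro h
      by_cases h2 : j = i
      · exact Or.inl h2
      · exact Or.inr ⟨h, h2⟩
    · rintro (rfl | h)
      · exact hi
      · exact h.1
  rw [h1, sum_insert (by simp), add_comm]

theorem sys_red (hN0 : ∀ i, N i i = 0) (hN : ∀ i j, i ≠ j → N j i = N i j + u i * u j)
    (hE : ∀ i ∈ Sp, ∀ j ∈ Sp, E i j = if i = j then 0 else A i j + N i j) (v w : V → ZMod 2) :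
    Sys Sp u N A b v w ↔ Red Sp u N E b v fun i => if i ∈ Sp then v i + w i else 0 := by
  set y : V → ZMod 2 := fun i => if i ∈ Sp then v i + w i else 0 with hy
  have hyS : ∀ i ∈ Sp, y i = v i + w i := fun i hi => if_pos hi
  have hyN : ∀ i, i ∉ Sp → y i = 0 := fun i hi => if_neg hi
  have z2' : ∀ x : ZMod 2, x + x = 0 := z2_add
  have h1 : ∀ i ∈ Sp, (b i * v i + ∑ j ∈ univ.filter (fun j => j ∈ Sp ∧ j ≠ i),
      (A i j * (v i + v j) + (A i j + N i j) * (v i + w j)) + b i * (v i + w i) +
      ∑ j ∈ univ.filter (fun j => j ∉ Sp), N i j * (v i + v j)) =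
      rw' N b v i + b i * y i + ∑ j, E i j * y j := by
    intro i hi
    have e1 : ∑ j, E i j * y j = ∑ j ∈ univ.filter (fun j => j ∈ Sp ∧ j ≠ i),
        (A i j + N i j) * (v j + w j) := by
      rw [sum_split i hi, hE i hi i hi, if_pos rfl, zero_mul, add_zero]
      have e2 : ∑ j ∈ univ.filter (fun j => j ∉ Sp), E i j * y j = 0 :=
        sum_eq_zero fun j hj => by rw [hyN j (mem_filter.1 hj).2, mul_zero]
      rw [e2, add_zero]
      refine sum_congr rfl fun j hj => ?_
      obtain ⟨h2, h3⟩ := (mem_filter.1 hj).2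
      rw [hE i hi j h2, if_neg (Ne.symm h3), hyS j h2]
    have e3 : rw' N b v i = b i * v i + ∑ j ∈ univ.filter (fun j => j ∈ Sp ∧ j ≠ i),
        N i j * (v i + v j) + ∑ j ∈ univ.filter (fun j => j ∉ Sp), N i j * (v i + v j) := by
      unfold rw' TT
      have e4 : ∑ j, N i j * v j + (b i + ∑ j, N i j) * v i =
          b i * v i + ∑ j, N i j * (v i + v j) := by
        rw [add_mul, sum_mul]
        have : ∑ j, N i j * (v i + v j) = ∑ j, N i j * v i + ∑ j, N i j * v j := by
          rw [← sum_add_distrib]
          exact sum_congr rfl fun j _ => by ring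
        rw [this]
        ring
      rw [e4, sum_split i hi, hN0 i, zero_mul, add_zero, add_assoc]
    rw [e1, e3, hyS i hi]
    have e5 : ∑ j ∈ univ.filter (fun j => j ∈ Sp ∧ j ≠ i),
        (A i j * (v i + v j) + (A i j + N i j) * (v i + w j)) =
        ∑ j ∈ univ.filter (fun j => j ∈ Sp ∧ j ≠ i), N i j * (v i + v j) +
        ∑ j ∈ univ.filter (fun j => j ∈ Sp ∧ j ≠ i), (A i j + N i j) * (v j + w j) := by
      rw [← sum_add_distrib]
      refine sum_congr rfl fun j _ => ?_
      linear_combination (A i j) * z2' (v i) + (A i j) * z2' (v j) - (A i j * v j + N i j * v j)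
        + (A i j * v j + N i j * v j) + (-1 : ZMod 2) * (A i j + N i j) * z2' (v j)
    rw [e5]
    ring
  have h2 : ∀ i ∈ Sp, (b i * v i + ∑ j ∈ univ.filter (fun j => j ∈ Sp ∧ j ≠ i),
      (A i j * (v i + v j) + (A i j + N i j) * (v i + w j)) + b i * (v i + w i) +
      ∑ j ∈ univ.filter (fun j => j ∉ Sp), N i j * (v i + v j)) +
      ((b i + u i) * w i + ∑ j ∈ univ.filter (fun j => j ∈ Sp ∧ j ≠ i),
      ((A i j + N i j + u i * u j) * (w i + v j) + (A i j + u i * u j) * (w i + w j)) +
      (b i + u i) * (w i + v i) +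
      ∑ j ∈ univ.filter (fun j => j ∉ Sp), N i j * (w i + v j)) =
      u i * v i + Ph N b y i := by
    intro i hi
    have e1 : Ph N b y i = b i * (v i + w i) + ∑ j ∈ univ.filter (fun j => j ∈ Sp ∧ j ≠ i),
        (N j i * (v j + w j) + N i j * (v i + w i)) +
        ∑ j ∈ univ.filter (fun j => j ∉ Sp), N i j * (v i + w i) := by
      unfold Ph TT
      rw [add_mul, sum_mul, sum_split i hi, sum_split i hi (fun j => N i j * y i), hN0 i]
      have e2 : ∑ j ∈ univ.filter (fun j => j ∉ Sp), y j * N j i = 0 :=
        sum_eq_zero fun j hj => by rw [hyN j (mem_filter.1 hj).2, zero_mul]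
      rw [e2, sum_add_distrib, hyS i hi]
      have e3 : ∑ j ∈ univ.filter (fun j => j ∈ Sp ∧ j ≠ i), y j * N j i =
          ∑ j ∈ univ.filter (fun j => j ∈ Sp ∧ j ≠ i), N j i * (v j + w j) :=
        sum_congr rfl fun j hj => by rw [hyS j (mem_filter.1 hj).2.1, mul_comm]
      rw [e3]
      ring
    rw [e1]
    have e4 : ∑ j ∈ univ.filter (fun j => j ∈ Sp ∧ j ≠ i),
        (N j i * (v j + w j) + N i j * (v i + w i)) =
        ∑ j ∈ univ.filter (fun j => j ∈ Sp ∧ j ≠ i),
          (A i j * (v i + v j) + (A i j + N i j) * (v i + w j)) +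
        ∑ j ∈ univ.filter (fun j => j ∈ Sp ∧ j ≠ i),
            ((A i j + N i j + u i * u j) * (w i + v j) + (A i j + u i * u j) * (w i + w j)) := by
      rw [← sum_add_distrib]
      refine sum_congr rfl fun j hj => ?_
      rw [hN i j (Ne.symm (mem_filter.1 hj).2.2)]
      have z3 : ∀ a n c x x' y y' : ZMod 2, (n + c) * (y + y') + n * (x + x') =
          (a * (x + y) + (a + n) * (x + y')) + ((a + n + c) * (x' + y) + (a + c) * (x' + y')) := by
        decide
      exact z3 _ _ _ _ _ _ _
    have e5 : ∑ j ∈ univ.filter (fun j => j ∉ Sp), N i j * (v i + w i) =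
        ∑ j ∈ univ.filter (fun j => j ∉ Sp), N i j * (v i + v j) +
        ∑ j ∈ univ.filter (fun j => j ∉ Sp), N i j * (w i + v j) := by
      rw [← sum_add_distrib]
      refine sum_congr rfl fun j _ => ?_
      linear_combination (-1 : ZMod 2) * N i j * z2' (v j)
    rw [e4, e5]
    have z4 : ∀ b u x x' s t p q : ZMod 2, b * x + s + b * (x + x') + p +
        ((b + u) * x' + t + (b + u) * (x' + x) + q) = u * x + (b * (x + x') + (s + t) + (p + q)) := by
      decide
    exact z4 _ _ _ _ _ _ _ _
  have h3 : ∀ i, i ∉ Sp → ((1 + u i) * v i + ∑ j ∈ univ.filter (fun j => j ∈ Sp),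
      (N j i * (v i + v j) + N j i * (v i + w j))) = (1 + u i) * v i + Ph N b y i := by
    intro i hi
    congr 1
    unfold Ph
    rw [hyN i hi, mul_zero, add_zero, ← sum_filter_add_sum_filter_not univ (fun j => j ∈ Sp)
      (fun j => y j * N j i)]
    have e2 : ∑ j ∈ univ.filter (fun j => j ∉ Sp), y j * N j i = 0 :=
      sum_eq_zero fun j hj => by rw [hyN j (mem_filter.1 hj).2, zero_mul]
    rw [e2, add_zero]
    refine sum_congr rfl fun j hj => ?_
    rw [hyS j (mem_filter.1 hj).2]
    linear_combination N j i * z2' (v i)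
  unfold Sys Red
  constructor
  · rintro ⟨a1, a2, a3⟩
    refine ⟨fun i hi => by rw [← h1 i hi]; exact a1 i hi, fun i hi => ?_, fun i hi => ?_⟩
    · rw [← h2 i hi, a1 i hi, a2 i hi, add_zero]
    · rw [← h3 i hi]
      exact a3 i hi
  · rintro ⟨a1, a2, a3⟩
    have a1' := fun i hi => (h1 i hi).trans (a1 i hi)
    refine ⟨a1', fun i hi => ?_, fun i hi => (h3 i hi).trans (a3 i hi)⟩
    have h4 := (h2 i hi).trans (a2 i hi)
    rw [a1' i hi, zero_add] at h4
    exact h4

/-- the pairing of a solution and an element of the dual kernel -/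
theorem pair_bf (t v y : V → ZMod 2) (ht : ∀ i, i ∉ Sp → t i = 0)
    (h : ∀ i ∈ Sp, rw' N b v i + b i * y i + ∑ j, E i j * y j = 0) :
    ∑ j, (v j + Ph N b y j) * Ph N b t j = bf N E b t y := by
  have h1 : ∑ j, (v j + Ph N b y j) * Ph N b t j =
      ∑ j, v j * Ph N b t j + ∑ j, Ph N b t j * Ph N b y j := by
    rw [← sum_add_distrib]
    exact sum_congr rfl fun j _ => by ring
  rw [h1, pair]
  unfold bf
  congr 1
  rw [← sum_add_distrib]
  refine sum_congr rfl fun i _ => ?_
  by_cases hi : i ∈ Sp
  · have h2 := h i hi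
    have h3 : rw' N b v i = b i * y i + ∑ j, E i j * y j := by
      have := z2_add (b i * y i + ∑ j, E i j * y j)
      linear_combination h2 - this
    rw [h3, mul_add, mul_sum]
    congr 1
    · ring
    · exact sum_congr rfl fun j _ => by ring
  · rw [ht i hi]
    simp

/-- **the elimination** -/
theorem elim (hPc : ∀ i, i ∈ Pc ↔ ((i ∈ Sp ∧ u i = 0) ∨ (i ∉ Sp ∧ u i = 1)))
    (hN0 : ∀ i, N i i = 0) (hN : ∀ i j, i ≠ j → N j i = N i j + u i * u j)
    (hE : ∀ i ∈ Sp, ∀ j ∈ Sp, E i j = if i = j then 0 else A i j + N i j) :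
    (∀ v w : V → ZMod 2, Sys Sp u N A b v w → (∀ i, v i = 0) ∧ ∀ i ∈ Sp, w i = 0) ↔
      Gv Sp Pc N E b := by
  have hu : ∀ i, u i = 0 ∨ u i = 1 := fun i => z2 _
  have hPh0 : ∀ i, Ph N b (fun _ => (0 : ZMod 2)) i = 0 := by
    intro i
    unfold Ph
    simp
  constructor
  · intro H
    refine ⟨fun x hx => ?_, fun s hs hb => ?_⟩
    · obtain ⟨hx1, hx2⟩ := hx
      have h1 : Sys Sp u N A b x x := by
        rw [sys_red hN0 hN hE]
        have e0 : (fun i => if i ∈ Sp then x i + x i else 0) = fun _ => (0 : ZMod 2) := by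
          funext i
          rw [z2_add, ite_self]
        rw [e0]
        refine ⟨fun i hi => ?_, fun i hi => ?_, fun i hi => ?_⟩
        · simp only [mul_zero, sum_const_zero, add_zero]
          exact hx2 i hi
        · rw [hPh0, add_zero]
          by_cases h2 : i ∈ Pc
          · rcases (hPc i).1 h2 with h3 | h3
            · rw [h3.2, zero_mul]
            · exact absurd hi h3.1
          · rw [hx1 i h2, mul_zero]
        · rw [hPh0, add_zero]
          by_cases h2 : i ∈ Pc
          · rcases (hPc i).1 h2 with h3 | h3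
            · exact absurd h3.1 hi
            · rw [h3.2, z2_add, zero_mul]
          · rw [hx1 i h2, mul_zero]
      exact (H x x h1).1
    · obtain ⟨x, hx1, hx2⟩ := exists_x (Sp := Sp) (Pc := Pc) (N := N) (b := b)
        (fun i => rw' N b (Ph N b s) i + b i * s i + ∑ j, E i j * s j) (by
          intro t ht
          have h1 := hb t ht
          unfold bf at h1
          have h2 : ∑ j, Ph N b t j * Ph N b s j = ∑ i, t i * rw' N b (Ph N b s) i := by
            rw [← pair]
            exact sum_congr rfl fun j _ => mul_comm _ _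
          rw [h2, ← sum_add_distrib, ← sum_add_distrib] at h1
          rw [← h1]
          refine sum_congr rfl fun i _ => ?_
          have h3 : ∑ j, t i * E i j * s j = t i * ∑ j, E i j * s j := by
            rw [mul_sum]
            exact sum_congr rfl fun j _ => by ring
          rw [h3]
          ring)
      set v : V → ZMod 2 := fun j => x j + Ph N b s j with hv
      have h1 : Sys Sp u N A b v (fun i => v i + s i) := by
        rw [sys_red hN0 hN hE]
        have e0 : (fun i => if i ∈ Sp then v i + (v i + s i) else 0) = s := by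
          funext i
          by_cases hi : i ∈ Sp
          · rw [if_pos hi, ← add_assoc, z2_add, zero_add]
          · rw [if_neg hi, hs.1 i hi]
        rw [e0]
        refine ⟨fun i hi => ?_, fun i hi => ?_, fun i hi => ?_⟩
        · have h2 : rw' N b v i = rw' N b x i + rw' N b (Ph N b s) i := by
            rw [← rw_add]
            rfl
          rw [h2, hx2 i hi]
          have := z2_add (rw' N b (Ph N b s) i + b i * s i + ∑ j, E i j * s j)
          linear_combination this
        · by_cases h2 : i ∈ Pc
          · rcases (hPc i).1 h2 with h3 | h3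
            · rw [h3.2, zero_mul, zero_add, hs.2 i h2]
            · exact absurd hi h3.1
          · have h3 : u i = 1 := by
              rcases hu i with h3 | h3
              · exact absurd ((hPc i).2 (Or.inl ⟨hi, h3⟩)) h2
              · exact h3
            rw [h3, hv]
            simp only
            rw [hx1 i h2, zero_add, one_mul, z2_add]
        · by_cases h2 : i ∈ Pc
          · rcases (hPc i).1 h2 with h3 | h3
            · exact absurd h3.1 hi
            · rw [h3.2, z2_add, zero_mul, zero_add, hs.2 i h2]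
          · have h3 : u i = 0 := by
              rcases hu i with h3 | h3
              · exact h3
              · exact absurd ((hPc i).2 (Or.inr ⟨hi, h3⟩)) h2
            rw [h3, hv]
            simp only
            rw [hx1 i h2, zero_add, add_zero, one_mul, z2_add]
      have h2 := H v _ h1
      intro j
      by_cases hj : j ∈ Sp
      · have h3 := h2.2 j hj
        rw [h2.1 j, zero_add] at h3
        exact h3
      · exact hs.1 j hj
  · rintro ⟨H1, H2⟩ v w hvw
    rw [sys_red hN0 hN hE] at hvw
    set y : V → ZMod 2 := fun i => if i ∈ Sp then v i + w i else 0 with hy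
    obtain ⟨a1, a2, a3⟩ := hvw
    have hx : ∀ j, j ∉ Pc → v j + Ph N b y j = 0 := by
      intro j hj
      by_cases hjS : j ∈ Sp
      · have h3 : u j = 1 := by
          rcases hu j with h3 | h3
          · exact absurd ((hPc j).2 (Or.inl ⟨hjS, h3⟩)) hj
          · exact h3
        have h4 := a2 j hjS
        rwa [h3, one_mul] at h4
      · have h3 : u j = 0 := by
          rcases hu j with h3 | h3
          · exact h3
          · exact absurd ((hPc j).2 (Or.inr ⟨hjS, h3⟩)) hj
        have h4 := a3 j hjS
        rwa [h3, add_zero, one_mul] at h4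
    have hZ : Zk Sp Pc N b y := by
      refine ⟨fun i hi => if_neg hi, fun j hj => ?_⟩
      rcases (hPc j).1 hj with h3 | h3
      · have h4 := a2 j h3.1
        rwa [h3.2, zero_mul, zero_add] at h4
      · have h4 := a3 j h3.1
        rwa [h3.2, z2_add, zero_mul, zero_add] at h4
    have hy0 : ∀ j, y j = 0 := by
      refine H2 y hZ fun t ht => ?_
      rw [← pair_bf t v y ht.1 a1]
      refine sum_eq_zero fun j _ => ?_
      by_cases hj : j ∈ Pc
      · rw [ht.2 j hj, mul_zero]
      · rw [hx j hj, zero_mul]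
    have hy0' : y = fun _ => 0 := funext hy0
    rw [hy0'] at a1 hx
    have hv0 : ∀ j, v j = 0 := by
      refine H1 v ⟨fun j hj => ?_, fun i hi => ?_⟩
      · have := hx j hj
        rwa [hPh0, add_zero] at this
      · have := a1 i hi
        simp only [mul_zero, sum_const_zero, add_zero] at this
        exact this
    refine ⟨hv0, fun i hi => ?_⟩
    have h5 : y i = v i + w i := if_pos hi
    rw [hy0, hv0, zero_add] at h5
    exact h5.symm

end elim

end Pool.Agent.N973.ND
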