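import Pool.Agent.N973.ND.Vs
import Pool.Agent.N973.ND.El

/-!
# The good sets and the matrix of the symbols of the primes of `ℚ(√-7)`
-/

set_option autoImplicit false
set_option linter.unusedSectionVars false

open scoped Classical

namespace Pool.Agent.N973.NT

open Finset
open Pool.Agent.N973.ND (Pr m7 uu ty m7_le z2 z2_add z2_mul z2_ne nr_rec nr_self Gv GR Gd Sys elim)
open Pool.Agent.Y703.CQ (nr)
open Pool.Agent.R426.QK (Pq prm nrm cs ss tt PD mem_PD pq_ne eq_of_dvd prime_aR prime_cjaR)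
open Pool.Agent.R426.QD (cf nb nb_or)
open Pool.Agent.Y698 (RR cj cX cY nR aR fR e7 mul_cj cj_cj nR_nat nR_mul)

/-- the symbols -/
noncomputable def AA (p q : ℕ) : ZMod 2 := cs (vp q) (vp p)

/-- the symbol modulo `√-7` -/
noncomputable def bb (p : ℕ) : ZMod 2 := ss (vp p)

/-- the element -/
noncomputable def DD (S : Finset ℕ) : RR := ((∏ p ∈ S, p : ℕ) : RR)

theorem DD_ne {S : Finset ℕ} (hS : ∀ p ∈ S, Pr p) : DD S ≠ 0 := by
  unfold DD
  exact_mod_cast (prod_ne_zero_iff.2 fun p hp => (hS p hp).1.ne_zero)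

theorem PD_DD {S : Finset ℕ} (hS : ∀ p ∈ S, Pr p) :
    PD (DD S) = S.image vp ∪ (S.filter fun p => m7 p = 1).image wp := by
  ext π
  rw [mem_PD (DD_ne hS), mem_union, mem_image, mem_image]
  have hd : ∀ p ∈ S, (p : RR) ∣ DD S := by
    intro p hp
    obtain ⟨c, hc⟩ := Finset.dvd_prod_of_mem (fun p : ℕ => p) hp
    exact ⟨(c : RR), by
      unfold DD
      rw [hc]
      push_cast
      rfl⟩
  constructor
  · rintro ⟨h1, h2⟩
    have h3 : π ∣ ∏ p ∈ S, (p : RR) := by
      have : DD S = ∏ p ∈ S, (p : RR) := by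
        unfold DD
        push_cast
        rfl
      rw [← this]
      exact h2
    obtain ⟨p, hp, h4⟩ := (h1.prime.dvd_finsetProd_iff _).1 h3
    have hP := hS p hp
    by_cases h7 : m7 p = 1
    · rw [← nb_mul_wp' hP h7] at h4
      rcases h1.prime.dvd_or_dvd h4 with h5 | h5
      · left
        exact ⟨p, hp, (eq_of_dvd h1 (vp_spec hP).1 (nb_dvd'.1 h5)).symm⟩
      · right
        exact ⟨p, mem_filter.2 ⟨hp, h7⟩, (eq_of_dvd h1 (wp_pq hP) h5).symm⟩
    · left
      refine ⟨p, hp, (eq_of_dvd h1 (vp_spec hP).1 ?_).symm⟩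
      rcases odd4 hP with h5 | h5
      · rw [((vp_spec hP).2.2.2 h7).1 h5]
        exact h4
      · rw [((vp_spec hP).2.2.2 h7).2 h5]
        exact (dvd_neg).2 h4
  · rintro (⟨p, hp, rfl⟩ | ⟨p, hp, rfl⟩)
    · exact ⟨(vp_spec (hS p hp)).1, (vp_spec (hS p hp)).2.1.trans (hd p hp)⟩
    · obtain ⟨h1, h2⟩ := mem_filter.1 hp
      exact ⟨wp_pq (hS p h1), (wp_dvd (hS p h1) h2).trans (hd p h1)⟩

section gen

variable {V : Type} [Fintype V] {r : V → ℕ}

/-- the split primes -/
noncomputable def SpV (r : V → ℕ) : Finset V := univ.filter fun i : V => m7 (r i) = 1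

theorem mem_SpV {i : V} : i ∈ SpV r ↔ m7 (r i) = 1 := by
  unfold SpV
  rw [mem_filter]
  exact ⟨fun h => h.2, fun h => ⟨mem_univ _, h⟩⟩

/-- sums over the primes of `K` -/
theorem sum_PD (hr : Function.Injective r) (hP : ∀ i, Pr (r i)) (f : RR → ZMod 2) :
    ∑ ρ ∈ PD (DD (univ.image r)), f ρ = ∑ j : V, f (vp (r j)) +
      ∑ j ∈ SpV r, f (wp (r j)) := by
  have hS : ∀ p ∈ univ.image r, Pr p := by
    intro p hp
    obtain ⟨i, -, rfl⟩ := mem_image.1 hp
    exact hP i
  have e1 : (univ.image r).image vp = univ.image fun j => vp (r j) := by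
    rw [image_image]
    rfl
  have e2 : ((univ.image r).filter fun p => m7 p = 1).image wp = (SpV r).image fun j => wp (r j) := by
    ext π
    simp only [mem_image, mem_filter, mem_univ, true_and]
    constructor
    · rintro ⟨p, ⟨⟨i, rfl⟩, h7⟩, rfl⟩
      exact ⟨i, mem_SpV.2 h7, rfl⟩
    · rintro ⟨i, hi, rfl⟩
      exact ⟨r i, ⟨⟨i, rfl⟩, mem_SpV.1 hi⟩, rfl⟩
  rw [PD_DD hS, e1, e2, sum_union, sum_image, sum_image]
  · intro i hi j hj h
    by_contra hne
    exact wp_ne (hP i) (hP j) (mem_SpV.1 hi) (mem_SpV.1 hj) (fun h' => hne (hr h')) h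
  · intro i _ j _ h
    by_contra hne
    exact vp_ne (hP i) (hP j) (fun h' => hne (hr h')) h
  · rw [disjoint_left]
    intro π h1 h2
    obtain ⟨i, -, rfl⟩ := mem_image.1 h1
    obtain ⟨j, hj, h3⟩ := mem_image.1 h2
    exact vp_ne_wp (hP i) (hP j) (mem_SpV.1 hj) h3.symm

theorem in_split (T : Finset V) (i : V) (hi : i ∈ T) (f : V → ZMod 2) :
    ∑ j ∈ T, f j = ∑ j ∈ univ.filter (fun j => j ∈ T ∧ j ≠ i), f j + f i := by
  have h1 : T = insert i (univ.filter (fun j => j ∈ T ∧ j ≠ i)) := by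
    ext j
    simp only [mem_filter, mem_univ, true_and, mem_insert]
    constructor
    · intro h
      by_cases h2 : j = i
      · exact Or.inl h2
      · exact Or.inr ⟨h, h2⟩
    · rintro (rfl | h)
      · exact hi
      · exact h.1
  conv_lhs => rw [h1]
  rw [sum_insert (by simp), add_comm]

theorem in_all (T : Finset V) (f : V → ZMod 2) :
    ∑ j ∈ T, f j = ∑ j ∈ univ.filter (fun j => j ∈ T), f j := by
  congr 1
  ext j
  simp

theorem all_split (T : Finset V) (f : V → ZMod 2) :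
    ∑ j, f j = ∑ j ∈ univ.filter (fun j => j ∈ T), f j +
      ∑ j ∈ univ.filter (fun j => j ∉ T), f j :=
  (sum_filter_add_sum_filter_not univ _ f).symm

variable (hr : Function.Injective r) (hP : ∀ i, Pr (r i)) (v : RR → ZMod 2)

include hr hP

theorem hneS {i j : V} (h : j ≠ i) : r i ≠ r j := fun h' => h (hr h').symm

/-- the equation at `vp i` -/
theorem sol1 (i : V) (hi : m7 (r i) = 1) : ss (vp (r i)) * v (vp (r i)) +
      ∑ ρ ∈ PD (DD (univ.image r)), cs ρ (vp (r i)) * (v (vp (r i)) + v ρ) =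
      bb (r i) * v (vp (r i)) + ∑ j ∈ univ.filter (fun j : V => j ∈ SpV r ∧ j ≠ i),
        (AA (r i) (r j) * (v (vp (r i)) + v (vp (r j))) +
          (AA (r i) (r j) + nr (r j) (r i)) * (v (vp (r i)) + v (wp (r j)))) +
        bb (r i) * (v (vp (r i)) + v (wp (r i))) +
        ∑ j ∈ univ.filter (fun j : V => j ∉ SpV r), nr (r j) (r i) * (v (vp (r i)) + v (vp (r j))) := by
  have hiS : i ∈ SpV r := mem_SpV.2 hi
  have z2' : ∀ x : ZMod 2, x + x = 0 := z2_add
  have e0 := sum_PD hr hP (fun ρ => cs ρ (vp (r i)) * (v (vp (r i)) + v ρ))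
  rw [Pool.Agent.N973.ND.sum_split (Sp := SpV r) i hiS] at e0
  have e0' := in_split (SpV r) i hiS (fun j => cs (wp (r j)) (vp (r i)) * (v (vp (r i)) + v (wp (r j))))
  have e1 : ∑ j ∈ univ.filter (fun j : V => j ∉ SpV r),
        cs (vp (r j)) (vp (r i)) * (v (vp (r i)) + v (vp (r j))) =
        ∑ j ∈ univ.filter (fun j : V => j ∉ SpV r),
          nr (r j) (r i) * (v (vp (r i)) + v (vp (r j))) := by
    refine sum_congr rfl fun j hj => ?_
    have h7 : m7 (r j) ≠ 1 := fun h => (mem_filter.1 hj).2 (mem_SpV.2 h)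
    have hij : j ≠ i := by
      rintro rfl
      exact h7 hi
    rw [cs_iv (hP i) (hP j) (hneS hr hP hij) hi h7]
  have e2 : ∑ j ∈ univ.filter (fun j : V => j ∈ SpV r ∧ j ≠ i),
        (AA (r i) (r j) * (v (vp (r i)) + v (vp (r j))) +
          (AA (r i) (r j) + nr (r j) (r i)) * (v (vp (r i)) + v (wp (r j)))) =
        ∑ j ∈ univ.filter (fun j : V => j ∈ SpV r ∧ j ≠ i),
          cs (vp (r j)) (vp (r i)) * (v (vp (r i)) + v (vp (r j))) +
        ∑ j ∈ univ.filter (fun j : V => j ∈ SpV r ∧ j ≠ i),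
          cs (wp (r j)) (vp (r i)) * (v (vp (r i)) + v (wp (r j))) := by
    rw [← sum_add_distrib]
    refine sum_congr rfl fun j hj => ?_
    obtain ⟨h2, h3⟩ := (mem_filter.1 hj).2
    rw [cs_wv (hP i) (hP j) (hneS hr hP h3) hi (mem_SpV.1 h2)]
    rfl
  have e3 : bb (r i) = ss (vp (r i)) := rfl
  rw [e0', z2', mul_zero, add_zero, cs_wvs (hP i) hi, e1] at e0
  rw [e0, e2, e3]
  ring

/-- the equation at `wp i` -/
theorem sol2 (i : V) (hi : m7 (r i) = 1) : ss (wp (r i)) * v (wp (r i)) +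
      ∑ ρ ∈ PD (DD (univ.image r)), cs ρ (wp (r i)) * (v (wp (r i)) + v ρ) =
      (bb (r i) + uu (r i)) * v (wp (r i)) +
        ∑ j ∈ univ.filter (fun j : V => j ∈ SpV r ∧ j ≠ i),
        ((AA (r i) (r j) + nr (r j) (r i) + uu (r i) * uu (r j)) * (v (wp (r i)) + v (vp (r j))) +
          (AA (r i) (r j) + uu (r i) * uu (r j)) * (v (wp (r i)) + v (wp (r j)))) +
        (bb (r i) + uu (r i)) * (v (wp (r i)) + v (vp (r i))) +
        ∑ j ∈ univ.filter (fun j : V => j ∉ SpV r), nr (r j) (r i) * (v (wp (r i)) + v (vp (r j))) := by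
  have hiS : i ∈ SpV r := mem_SpV.2 hi
  have z2' : ∀ x : ZMod 2, x + x = 0 := z2_add
  have e0 := sum_PD hr hP (fun ρ => cs ρ (wp (r i)) * (v (wp (r i)) + v ρ))
  rw [Pool.Agent.N973.ND.sum_split (Sp := SpV r) i hiS] at e0
  have e0' := in_split (SpV r) i hiS (fun j => cs (wp (r j)) (wp (r i)) * (v (wp (r i)) + v (wp (r j))))
  have e1 : ∑ j ∈ univ.filter (fun j : V => j ∉ SpV r),
        cs (vp (r j)) (wp (r i)) * (v (wp (r i)) + v (vp (r j))) =
        ∑ j ∈ univ.filter (fun j : V => j ∉ SpV r),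
          nr (r j) (r i) * (v (wp (r i)) + v (vp (r j))) := by
    refine sum_congr rfl fun j hj => ?_
    have h7 : m7 (r j) ≠ 1 := fun h => (mem_filter.1 hj).2 (mem_SpV.2 h)
    have hij : j ≠ i := by
      rintro rfl
      exact h7 hi
    rw [cs_iw (hP i) (hP j) (hneS hr hP hij) hi h7]
  have e2 : ∑ j ∈ univ.filter (fun j : V => j ∈ SpV r ∧ j ≠ i),
        ((AA (r i) (r j) + nr (r j) (r i) + uu (r i) * uu (r j)) * (v (wp (r i)) + v (vp (r j))) +
          (AA (r i) (r j) + uu (r i) * uu (r j)) * (v (wp (r i)) + v (wp (r j)))) =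
        ∑ j ∈ univ.filter (fun j : V => j ∈ SpV r ∧ j ≠ i),
          cs (vp (r j)) (wp (r i)) * (v (wp (r i)) + v (vp (r j))) +
        ∑ j ∈ univ.filter (fun j : V => j ∈ SpV r ∧ j ≠ i),
          cs (wp (r j)) (wp (r i)) * (v (wp (r i)) + v (wp (r j))) := by
    rw [← sum_add_distrib]
    refine sum_congr rfl fun j hj => ?_
    obtain ⟨h2, h3⟩ := (mem_filter.1 hj).2
    rw [cs_vw (hP i) (hP j) (hneS hr hP h3) hi (mem_SpV.1 h2),
      cs_ww (hP i) (hP j) (hneS hr hP h3) hi (mem_SpV.1 h2)]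
    rfl
  have e3 : bb (r i) = ss (vp (r i)) := rfl
  rw [e0', z2' (v (wp (r i))), mul_zero, add_zero, cs_vws (hP i) hi, e1] at e0
  rw [e0, e2, e3, ss_wp (hP i) hi]
  ring

/-- the equation at an inert prime -/
theorem sol3 (i : V) (hi : m7 (r i) ≠ 1) : ss (vp (r i)) * v (vp (r i)) +
      ∑ ρ ∈ PD (DD (univ.image r)), cs ρ (vp (r i)) * (v (vp (r i)) + v ρ) =
      (1 + uu (r i)) * v (vp (r i)) + ∑ j ∈ univ.filter (fun j : V => j ∈ SpV r),
        (nr (r i) (r j) * (v (vp (r i)) + v (vp (r j))) +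
          nr (r i) (r j) * (v (vp (r i)) + v (wp (r j)))) := by
  have z2' : ∀ x : ZMod 2, x + x = 0 := z2_add
  have e0 := sum_PD hr hP (fun ρ => cs ρ (vp (r i)) * (v (vp (r i)) + v ρ))
  rw [all_split (SpV r)] at e0
  have e0' := in_all (SpV r) (fun j => cs (wp (r j)) (vp (r i)) * (v (vp (r i)) + v (wp (r j))))
  have e1 : ∑ j ∈ univ.filter (fun j : V => j ∉ SpV r),
        cs (vp (r j)) (vp (r i)) * (v (vp (r i)) + v (vp (r j))) = 0 := by
    refine sum_eq_zero fun j hj => ?_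
    have h7 : m7 (r j) ≠ 1 := fun h => (mem_filter.1 hj).2 (mem_SpV.2 h)
    by_cases hij : j = i
    · rw [hij, z2', mul_zero]
    · rw [cs_ii (hP i) (hP j) (hneS hr hP hij) hi h7, zero_mul]
  have e2 : ∑ j ∈ univ.filter (fun j : V => j ∈ SpV r),
        (nr (r i) (r j) * (v (vp (r i)) + v (vp (r j))) +
          nr (r i) (r j) * (v (vp (r i)) + v (wp (r j)))) =
        ∑ j ∈ univ.filter (fun j : V => j ∈ SpV r),
          cs (vp (r j)) (vp (r i)) * (v (vp (r i)) + v (vp (r j))) +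
        ∑ j ∈ univ.filter (fun j : V => j ∈ SpV r),
          cs (wp (r j)) (vp (r i)) * (v (vp (r i)) + v (wp (r j))) := by
    rw [← sum_add_distrib]
    refine sum_congr rfl fun j hj => ?_
    have hj7 := mem_SpV.1 (mem_filter.1 hj).2
    have hij : j ≠ i := by
      rintro rfl
      exact hi hj7
    rw [cs_vi (hP j) (hP i) (hneS hr hP hij).symm hj7 hi, cs_wi (hP j) (hP i) (hneS hr hP hij).symm hj7 hi]
  rw [e0', e1, add_zero] at e0
  rw [e0, e2, ss_in (hP i) hi]

/-- the system of equations -/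
theorem sol_sys : Pool.Agent.R426.QK.Sol (PD (DD (univ.image r))) v ↔
      Sys (SpV r) (fun i => uu (r i)) (fun i j => nr (r j) (r i))
        (fun i j => AA (r i) (r j)) (fun i => bb (r i)) (fun i => v (vp (r i)))
        (fun i => v (wp (r i))) := by
  have hS : ∀ p ∈ univ.image r, Pr p := by
    intro p hp
    obtain ⟨i, -, rfl⟩ := mem_image.1 hp
    exact hP i
  unfold Pool.Agent.R426.QK.Sol Sys
  constructor
  · intro h
    refine ⟨fun i hi => ?_, fun i hi => ?_, fun i hi => ?_⟩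
    · refine (sol1 hr hP v i (mem_SpV.1 hi)).symm.trans (h _ ?_)
      rw [PD_DD hS, mem_union]
      exact Or.inl (mem_image_of_mem _ (mem_image_of_mem _ (mem_univ _)))
    · refine (sol2 hr hP v i (mem_SpV.1 hi)).symm.trans (h _ ?_)
      rw [PD_DD hS, mem_union]
      exact Or.inr (mem_image_of_mem _ (mem_filter.2 ⟨mem_image_of_mem _ (mem_univ _),
        mem_SpV.1 hi⟩))
    · refine (sol3 hr hP v i (fun h' => hi (mem_SpV.2 h'))).symm.trans (h _ ?_)
      rw [PD_DD hS, mem_union]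
      exact Or.inl (mem_image_of_mem _ (mem_image_of_mem _ (mem_univ _)))
  · rintro ⟨a1, a2, a3⟩ π hπ
    rw [PD_DD hS, mem_union, mem_image, mem_image] at hπ
    rcases hπ with ⟨p, hp, rfl⟩ | ⟨p, hp, rfl⟩
    · obtain ⟨i, -, rfl⟩ := mem_image.1 hp
      by_cases h7 : m7 (r i) = 1
      · exact (sol1 hr hP v i h7).trans (a1 i (mem_SpV.2 h7))
      · exact (sol3 hr hP v i h7).trans (a3 i fun h' => h7 (mem_SpV.1 h'))
    · obtain ⟨hpS, h7⟩ := mem_filter.1 hp
      obtain ⟨i, -, rfl⟩ := mem_image.1 hpS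
      exact (sol2 hr hP v i h7).trans (a2 i (mem_SpV.2 h7))

/-- **the translation** -/
theorem gd_iff' : Pool.Agent.R426.QK.Gd (PD (DD (univ.image r))) ↔ GR AA bb r := by
  have hS : ∀ p ∈ univ.image r, Pr p := by
    intro p hp
    obtain ⟨i, -, rfl⟩ := mem_image.1 hp
    exact hP i
  have hty0 : ∀ n : ℕ, (ty n = 2 ↔ m7 n = 1 ∧ uu n = 0) ∧ (ty n = 1 ↔ ¬ m7 n = 1 ∧ uu n = 1) := by
    intro n
    have h1 := m7_le n
    by_cases h2 : n % 4 = 3
    · have e1 : ty n = 2 * m7 n + 1 := by unfold ty; rw [if_pos h2]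
      have e2 : uu n = 1 := by unfold uu; rw [if_pos h2]
      rw [e1, e2]
      refine ⟨⟨fun h => by exfalso; omega, fun h => absurd h.2 (by decide)⟩,
        ⟨fun h => ⟨by omega, rfl⟩, fun h => by have := h.1; omega⟩⟩
    · have e1 : ty n = 2 * m7 n + 0 := by unfold ty; rw [if_neg h2]
      have e2 : uu n = 0 := by unfold uu; rw [if_neg h2]
      rw [e1, e2]
      refine ⟨⟨fun h => ⟨by omega, rfl⟩, fun h => by rw [h.1]⟩,
        ⟨fun h => by exfalso; omega, fun h => absurd h.2 (by decide)⟩⟩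
  have key := elim (Sp := SpV r)
    (Pc := univ.filter fun i : V => ty (r i) = 2 ∨ ty (r i) = 1) (u := fun i => uu (r i))
    (N := fun i j => nr (r j) (r i)) (A := fun i j => AA (r i) (r j))
    (E := fun i j => if i = j then 0 else AA (r i) (r j) + nr (r j) (r i)) (b := fun i => bb (r i))
    (by
      intro i
      rw [mem_filter, mem_SpV, (hty0 _).1, (hty0 _).2]
      exact ⟨fun h => h.2, fun h => ⟨mem_univ _, h⟩⟩)
    (fun i => nr_self _)
    (by
      intro i j hij
      show nr (r i) (r j) = nr (r j) (r i) + uu (r i) * uu (r j)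
      rw [mul_comm (uu (r i))]
      exact nr_rec (hP j).1 (hP j).2.1 (hP i).1 (hP i).2.1 fun h => hij (hr h.symm))
    (fun i _ j _ => rfl)
  unfold GR
  refine Iff.trans ?_ key
  unfold Pool.Agent.R426.QK.Gd
  constructor
  · intro h v w hvw
    -- the function on the primes of `K`
    set f : RR → ZMod 2 := fun π => if h : ∃ i : V, vp (r i) = π then v h.choose else
      if h' : ∃ i : V, m7 (r i) = 1 ∧ wp (r i) = π then w h'.choose else 0 with hf
    have hfv : ∀ i : V, f (vp (r i)) = v i := by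
      intro i
      have h1 : ∃ j : V, vp (r j) = vp (r i) := ⟨i, rfl⟩
      have h2 : f (vp (r i)) = v h1.choose := dif_pos h1
      rw [h2]
      congr 1
      by_contra hne
      exact vp_ne (hP _) (hP i) (fun h3 => hne (hr h3)) h1.choose_spec
    have hfw : ∀ i : V, m7 (r i) = 1 → f (wp (r i)) = w i := by
      intro i hi
      have h0 : ¬ ∃ j : V, vp (r j) = wp (r i) := by
        rintro ⟨j, hj⟩
        exact vp_ne_wp (hP j) (hP i) hi hj
      have h1 : ∃ j : V, m7 (r j) = 1 ∧ wp (r j) = wp (r i) := ⟨i, hi, rfl⟩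
      have h2 : f (wp (r i)) = w h1.choose := by
        simp only [hf]
        rw [dif_neg h0, dif_pos h1]
      rw [h2]
      congr 1
      by_contra hne
      exact wp_ne (hP _) (hP i) h1.choose_spec.1 hi (fun h3 => hne (hr h3))
        h1.choose_spec.2
    have hsol : Pool.Agent.R426.QK.Sol (PD (DD (univ.image r))) f := by
      rw [sol_sys hr hP]
      obtain ⟨a1, a2, a3⟩ := hvw
      have efv : (fun i => f (vp (r i))) = v := funext hfv
      rw [efv]
      refine ⟨fun i hi => ?_, fun i hi => ?_, fun i hi => ?_⟩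
      · refine Eq.trans ?_ (a1 i hi)
        simp only [hfw i (mem_SpV.1 hi)]
        congr 1
        congr 1
        congr 1
        refine sum_congr rfl fun j hj => ?_
        rw [hfw j (mem_SpV.1 (mem_filter.1 hj).2.1)]
      · refine Eq.trans ?_ (a2 i hi)
        simp only [hfw i (mem_SpV.1 hi)]
        congr 1
        congr 1
        congr 1
        refine sum_congr rfl fun j hj => ?_
        rw [hfw j (mem_SpV.1 (mem_filter.1 hj).2.1)]
      · refine Eq.trans ?_ (a3 i hi)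
        congr 1
        refine sum_congr rfl fun j hj => ?_
        simp only
        rw [hfw j (mem_SpV.1 (mem_filter.1 hj).2)]
    have h1 := h f hsol
    refine ⟨fun i => ?_, fun i hi => ?_⟩
    · rw [← hfv i]
      apply h1
      rw [PD_DD hS, mem_union]
      exact Or.inl (mem_image_of_mem _ (mem_image_of_mem _ (mem_univ _)))
    · rw [← hfw i (mem_SpV.1 hi)]
      apply h1
      rw [PD_DD hS, mem_union]
      exact Or.inr (mem_image_of_mem _ (mem_filter.2 ⟨mem_image_of_mem _ (mem_univ _),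
        mem_SpV.1 hi⟩))
  · intro h v hv π hπ
    rw [sol_sys hr hP] at hv
    obtain ⟨h1, h2⟩ := h _ _ hv
    rw [PD_DD hS, mem_union, mem_image, mem_image] at hπ
    rcases hπ with ⟨p, hp, rfl⟩ | ⟨p, hp, rfl⟩
    · obtain ⟨i, -, rfl⟩ := mem_image.1 hp
      exact h1 i
    · obtain ⟨hpS, h7⟩ := mem_filter.1 hp
      obtain ⟨i, -, rfl⟩ := mem_image.1 hpS
      exact h2 i (mem_SpV.2 h7)

end gen

/-- **the translation** -/
theorem gd_iff {S : Finset ℕ} (hS : ∀ p ∈ S, Pr p) :
    Pool.Agent.R426.QK.Gd (PD (DD S)) ↔ Gd AA bb S := by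
  have h1 := gd_iff' (V := S) (r := fun i => (i : ℕ)) Subtype.val_injective fun i => hS i i.2
  have h2 : univ.image (fun i : S => (i : ℕ)) = S := by
    ext x
    simp
  rw [h2] at h1
  exact h1

/-- the reciprocity law of the symbols -/
theorem recA : Pool.Agent.N973.ND.RecA AA := by
  intro p q hp hq hpq hp7 hq7
  have h1 := Pool.Agent.R426.QK.recP (vp p) (vp q) (vp_spec hp).1 (vp_spec hq).1 (vp_ne hp hq hpq)
  rw [tt_vp hp hp7, tt_vp hq hq7] at h1
  show cs (vp p) (vp q) = cs (vp q) (vp p) + uu p * uu q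
  rw [← h1]
  have h8 : ∀ a s : ZMod 2, a = s + (a + s) := by decide
  exact h8 _ _

end Pool.Agent.N973.NT
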