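import Pool.Agent.N973.ND.Tr
import Pool.Agent.R426.QK.Tr

/-!
# Rational twists: the determinant over the ring of integers of `ℚ(√-7)` and the good sets
-/

set_option autoImplicit false

open scoped Classical

namespace Pool.Agent.N973.NT

open Finset
open Pool.Agent.N973.ND (Pr m7)
open Pool.Agent.R426.QK (Pq prm cs ss PD mem_PD pq_of)
open Pool.Agent.R426.QD (r4)
open Pool.Agent.Y698 (RR cj nR aR fR e7 nR_nat nR_fR)
open Pool.Agent.R426.QK (r4_four four_eq)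
open Pool.Agent.Y698.SG (gd mc mr lg)
open Pool.Agent.R426.QK (prime_cjaR)

/-- the prime factors of a number of the class -/
theorem pr_of {D : ℕ} (h4 : D % 4 = 1) (h7 : ¬ 7 ∣ D) : ∀ p ∈ D.primeFactors, Pr p := by
  intro p hp
  have h1 := Nat.prime_of_mem_primeFactors hp
  have h2 := Nat.dvd_of_mem_primeFactors hp
  refine ⟨h1, ?_, ?_⟩
  · rintro rfl
    omega
  · rintro rfl
    exact h7 h2

theorem not_fR {D : ℕ} (h7 : ¬ 7 ∣ D) : ¬ fR ∣ (D : RR) := by
  refine not_dvd_of nR_fR ?_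
  rw [nR_nat]
  intro h
  have h1 : (7 : ℤ) ∣ (D : ℤ) := Int.Prime.dvd_pow' (by norm_num) h
  exact h7 (by exact_mod_cast h1)

theorem four_dvd_nat {D : ℕ} (h4 : D % 4 = 1) : (4 : RR) ∣ (D : RR) - 1 := by
  refine ⟨((D / 4 : ℕ) : RR), ?_⟩
  have h : D = 4 * (D / 4) + 1 := by omega
  have h1 : ((D : ℕ) : RR) = ((4 * (D / 4) + 1 : ℕ) : RR) := congrArg _ h
  rw [h1]
  push_cast
  ring

/-- a rational number of the class is primary -/
theorem prm_nat {D : ℕ} (h4 : D % 4 = 1) (h7 : ¬ 7 ∣ D) : prm (D : RR) := by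
  have h4' := four_dvd_nat h4
  refine ⟨?_, ?_, not_fR h7⟩
  · obtain ⟨c, hc⟩ := h4'
    have h1 : (D : RR) = 1 + 4 * c := by linear_combination hc
    rw [h1, map_add, map_one, r4_four, add_zero]
  · intro h1
    have h2 : cj aR ∣ (D : RR) - 1 := by
      refine dvd_trans ?_ h4'
      rw [four_eq]
      exact ((dvd_mul_left (cj aR) aR).mul_right _)
    have h3 := dvd_sub h1 h2
    rw [sub_sub_cancel] at h3
    exact prime_cjaR.not_isUnit (isUnit_of_dvd_one h3)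

theorem DD_nat {D : ℕ} (hsq : Squarefree D) : DD D.primeFactors = (D : RR) := by
  unfold DD
  rw [Nat.prod_primeFactors_of_squarefree hsq]

/-- the determinant of the set of the primary prime divisors -/
theorem gd_PD (T : Finset RR) : gd (mc id) (mr id) T ≠ 0 ↔ Pool.Agent.R426.QK.Gd T := by
  have hk : gd (mc (id : RR → RR)) (mr id) T = 0 ↔ ¬ Pool.Agent.R426.QK.Gd T := by
    rw [Pool.Agent.R426.QD.gd_zero_iff]
    unfold Pool.Agent.R426.QD.Kr Pool.Agent.R426.QK.Gd Pool.Agent.R426.QK.Sol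
    constructor
    · rintro ⟨v, h1, p, hp, hv⟩ hG
      exact hv (hG v (fun π hπ => h1 π hπ) p hp)
    · intro hG
      push Not at hG
      obtain ⟨v, h1, π, hπ, hv⟩ := hG
      exact ⟨v, fun p hp => h1 p hp, π, hπ, hv⟩
  constructor
  · intro h
    by_contra hG
    exact h (hk.2 hG)
  · intro h h0
    exact hk.1 h0 h

/-- the set of the primary prime divisors -/
theorem eq_PD {D : ℕ} (h4 : D % 4 = 1) (h7 : ¬ 7 ∣ D) {S : Finset RR}
    (hS : ∀ p, p ∈ S ↔ Prime p ∧ p ∣ (D : RR) ∧ r4 p = 1) : S = PD (D : RR) := by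
  have h0 : (D : RR) ≠ 0 := by
    have : D ≠ 0 := by omega
    exact_mod_cast this
  ext π
  rw [hS, mem_PD h0]
  constructor
  · rintro ⟨h1, h2, h3⟩
    exact ⟨pq_of (prm_nat h4 h7) h1 h2 h3, h2⟩
  · rintro ⟨h1, h2⟩
    exact ⟨h1.prime, h2, h1.prm.r4⟩

/-- **the bridge** -/
theorem bridge {D : ℕ} (hsq : Squarefree D) (h4 : D % 4 = 1) (h7 : ¬ 7 ∣ D) {S : Finset RR}
    (hS : ∀ p, p ∈ S ↔ Prime p ∧ p ∣ (D : RR) ∧ r4 p = 1) :
    gd (mc id) (mr id) S ≠ 0 ↔ Pool.Agent.N973.ND.Gd AA bb D.primeFactors := by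
  rw [gd_PD, eq_PD h4 h7 hS, ← DD_nat hsq]
  exact gd_iff (pr_of h4 h7)

/-- the class of the integral elements -/
theorem clsE_nat {D : ℕ} (hsq : Squarefree D) (h4 : D % 4 = 1) (h7 : ¬ 7 ∣ D)
    (hs : Squarefree (D : RR)) :
    Pool.Agent.R426.QK.GoodE (D : RR) ↔ Pool.Agent.N973.ND.Gd AA bb D.primeFactors := by
  unfold Pool.Agent.R426.QK.GoodE
  rw [← DD_nat hsq, gd_iff (pr_of h4 h7), DD_nat hsq]
  exact ⟨fun h => h.2, fun h => ⟨⟨hs, four_dvd_nat h4, not_fR h7⟩, h⟩⟩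

end Pool.Agent.N973.NT
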