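import Pool.Agent.N973.ND.Tr
import Pool.Agent.R426.QK.Bil
import Pool.Agent.Y710.CQ.BIL

/-!
# ND-BIL: bilinear sums of the symbols
-/

set_option autoImplicit false
set_option linter.unusedSectionVars false

open scoped Classical

namespace Pool.Agent.N973.NT

open Finset
open Pool.Agent.N973.ND (Pr m7 uu ty m7_le z2 z2_add z2_mul z2_ne nr_rec nr_self BilP)
open Pool.Agent.Y703.CQ (nr sg)
open Pool.Agent.R426.QK (Pq prm nrm cs ss tt ez nrm_cast)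
open Pool.Agent.Y698 (RR cj cX cY nR aR fR e7 mul_cj cj_cj nR_nat nR_mul)
open Pool.Agent.Y710.CQ (xi bil sg_xi)

theorem sg_add (a b : ZMod 2) : sg (a + b) = sg a * sg b := by
  rcases z2 a with rfl | rfl <;> rcases z2 b with rfl | rfl
  · simp [sg]
  · simp [sg]
  · simp [sg]
  · rw [z2_add]
    simp [sg]

theorem sg_norm (a : ZMod 2) : ‖sg a‖ = 1 := by
  unfold sg
  split_ifs <;> simp

theorem sg_ez (a : ZMod 2) : sg a = ez a := rfl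

/-- the sign of a product -/
theorem sg_mul (a b : ZMod 2) : sg (a * b) = (1 + sg a + sg b - sg a * sg b) / 2 := by
  rcases z2 a with rfl | rfl <;> rcases z2 b with rfl | rfl <;> norm_num [sg]

/-- the twist by the sign -/
theorem twist {P Q : Finset ℕ} {f : ℕ → ℕ → ℂ} {z K : ℝ} (hz : 0 ≤ z)
    (h : ∀ c d : ℕ → ℂ, (∀ p, ‖c p‖ ≤ 1) → (∀ q, ‖d q‖ ≤ 1) →
      ‖∑ p ∈ P, ∑ q ∈ Q, c p * d q * f p q‖ ^ 24 * z ≤ K)
    (c d : ℕ → ℂ) (hc : ∀ p, ‖c p‖ ≤ 1) (hd : ∀ q, ‖d q‖ ≤ 1) :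
    ‖∑ p ∈ P, ∑ q ∈ Q, c p * d q * (f p q * sg (uu p * uu q))‖ ^ 24 * z ≤ 2 ^ 24 * K := by
  set c' : ℕ → ℂ := fun p => c p * sg (uu p) with hc'
  set d' : ℕ → ℂ := fun q => d q * sg (uu q) with hd'
  have hcn : ∀ p, ‖c' p‖ ≤ 1 := fun p => by
    rw [hc']
    simp only
    rw [norm_mul, sg_norm, mul_one]
    exact hc p
  have hdn : ∀ p, ‖d' p‖ ≤ 1 := fun p => by
    rw [hd']
    simp only
    rw [norm_mul, sg_norm, mul_one]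
    exact hd p
  have h1 := h c d hc hd
  have h2 := h c' d hcn hd
  have h3 := h c d' hc hdn
  have h4 := h c' d' hcn hdn
  set S1 := ∑ p ∈ P, ∑ q ∈ Q, c p * d q * f p q with hS1
  set S2 := ∑ p ∈ P, ∑ q ∈ Q, c' p * d q * f p q with hS2
  set S3 := ∑ p ∈ P, ∑ q ∈ Q, c p * d' q * f p q with hS3
  set S4 := ∑ p ∈ P, ∑ q ∈ Q, c' p * d' q * f p q with hS4
  have e : ∑ p ∈ P, ∑ q ∈ Q, c p * d q * (f p q * sg (uu p * uu q)) =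
      (S1 + S2 + S3 - S4) / 2 := by
    rw [hS1, hS2, hS3, hS4, ← sum_add_distrib, ← sum_add_distrib, ← sum_sub_distrib, sum_div]
    refine sum_congr rfl fun p _ => ?_
    rw [← sum_add_distrib, ← sum_add_distrib, ← sum_sub_distrib, sum_div]
    refine sum_congr rfl fun q _ => ?_
    rw [sg_mul, hc', hd']
    ring
  rw [e]
  have h5 : ‖(S1 + S2 + S3 - S4) / 2‖ ≤ (‖S1‖ + ‖S2‖ + ‖S3‖ + ‖S4‖) / 2 := by
    rw [norm_div, Complex.norm_ofNat]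
    have h6 := norm_sub_le (S1 + S2 + S3) S4
    have h7 := norm_add_le (S1 + S2) S3
    have h8 := norm_add_le S1 S2
    have : ‖S1 + S2 + S3 - S4‖ ≤ ‖S1‖ + ‖S2‖ + ‖S3‖ + ‖S4‖ := by linarith
    linarith
  obtain ⟨M, hM0, hM, hMK⟩ : ∃ M : ℝ, 0 ≤ M ∧ ‖(S1 + S2 + S3 - S4) / 2‖ ≤ 2 * M ∧ M ^ 24 * z ≤ K := by
    by_contra hcon
    push Not at hcon
    have k1' : 2 * ‖S1‖ < ‖(S1 + S2 + S3 - S4) / 2‖ := not_le.1 fun h' =>
      absurd h1 (not_le.2 (hcon ‖S1‖ (norm_nonneg _) h'))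
    have k2' : 2 * ‖S2‖ < ‖(S1 + S2 + S3 - S4) / 2‖ := not_le.1 fun h' =>
      absurd h2 (not_le.2 (hcon ‖S2‖ (norm_nonneg _) h'))
    have k3' : 2 * ‖S3‖ < ‖(S1 + S2 + S3 - S4) / 2‖ := not_le.1 fun h' =>
      absurd h3 (not_le.2 (hcon ‖S3‖ (norm_nonneg _) h'))
    have k4' : 2 * ‖S4‖ < ‖(S1 + S2 + S3 - S4) / 2‖ := not_le.1 fun h' =>
      absurd h4 (not_le.2 (hcon ‖S4‖ (norm_nonneg _) h'))
    linarith
  calc ‖(S1 + S2 + S3 - S4) / 2‖ ^ 24 * z ≤ (2 * M) ^ 24 * z :=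
        mul_le_mul_of_nonneg_right (pow_le_pow_left₀ (norm_nonneg _) hM 24) hz
    _ = 2 ^ 24 * (M ^ 24 * z) := by ring
    _ ≤ 2 ^ 24 * K := by
        apply mul_le_mul_of_nonneg_left hMK (by positivity)

/-- the rational symbols, `X ≤ Y` -/
theorem bil0 {P Q : Finset ℕ} {X Y z : ℕ} (hz : 1 ≤ z) (hzX : z ≤ X) (hXY : X ≤ Y)
    (hP : ∀ p ∈ P, Pr p ∧ p ≤ X) (hQ : ∀ q ∈ Q, Pr q ∧ q ≤ Y)
    (c d : ℕ → ℂ) (hc : ∀ p, ‖c p‖ ≤ 1) (hd : ∀ q, ‖d q‖ ≤ 1) :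
    ‖∑ p ∈ P, ∑ q ∈ Q, c p * d q * xi p q‖ ^ 24 * z ≤ (3 * 6 ^ 6) ^ 2 * ((X : ℝ) * Y) ^ 24 := by
  have hzr : (1 : ℝ) ≤ z := by exact_mod_cast hz
  have h1 := bil (hz.trans hzX) hXY (fun p hp => ⟨(hP p hp).1.1, (hP p hp).1.2.1, (hP p hp).2⟩)
    (fun p hp => ⟨(hQ p hp).1.1, (hQ p hp).1.2.1, (hQ p hp).2⟩) c d hc hd
  have h2 : (z : ℝ) ≤ X := by exact_mod_cast hzX
  set S := ‖∑ p ∈ P, ∑ q ∈ Q, c p * d q * xi p q‖ with hS
  have hS0 : 0 ≤ S := norm_nonneg _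
  have h3 : S ^ 12 * z ≤ 3 * 6 ^ 6 * ((X : ℝ) * Y) ^ 12 := by
    calc S ^ 12 * z ≤ (3 * 6 ^ 6 * ((X : ℝ) ^ 11 * (Y : ℝ) ^ 12)) * X := by
          apply mul_le_mul h1 h2 (by positivity) (by positivity)
      _ = 3 * 6 ^ 6 * ((X : ℝ) * Y) ^ 12 := by ring
  calc S ^ 24 * z ≤ S ^ 24 * (z * z) := by
        apply mul_le_mul_of_nonneg_left _ (by positivity)
        nlinarith
    _ = (S ^ 12 * z) ^ 2 := by ring
    _ ≤ (3 * 6 ^ 6 * ((X : ℝ) * Y) ^ 12) ^ 2 := pow_le_pow_left₀ (by positivity) h3 2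
    _ = (3 * 6 ^ 6) ^ 2 * ((X : ℝ) * Y) ^ 24 := by ring

/-- the rational symbols -/
theorem bil1 {P Q : Finset ℕ} {X Y z : ℕ} (hz : 1 ≤ z) (hzX : z ≤ X) (hzY : z ≤ Y)
    (hP : ∀ p ∈ P, Pr p ∧ p ≤ X) (hQ : ∀ q ∈ Q, Pr q ∧ q ≤ Y) (hdis : Disjoint P Q)
    (c d : ℕ → ℂ) (hc : ∀ p, ‖c p‖ ≤ 1) (hd : ∀ q, ‖d q‖ ≤ 1) :
    ‖∑ p ∈ P, ∑ q ∈ Q, c p * d q * sg (nr p q)‖ ^ 24 * z ≤
      2 ^ 24 * ((3 * 6 ^ 6) ^ 2 * ((X : ℝ) * Y) ^ 24) := by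
  have hne : ∀ p ∈ P, ∀ q ∈ Q, p ≠ q := fun p hp q hq he =>
    (Finset.disjoint_left.1 hdis) hp (he ▸ hq)
  rcases le_total X Y with hXY | hXY
  · have h1 := bil0 hz hzX hXY hP hQ c d hc hd
    have e1 : ∑ p ∈ P, ∑ q ∈ Q, c p * d q * sg (nr p q) =
        ∑ p ∈ P, ∑ q ∈ Q, c p * d q * xi p q := by
      refine sum_congr rfl fun p hp => sum_congr rfl fun q hq => ?_
      rw [sg_xi (hP p hp).1.1 (hQ q hq).1.1 (hne p hp q hq)]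
    rw [e1]
    refine h1.trans ?_
    have : 0 ≤ (3 * 6 ^ 6) ^ 2 * ((X : ℝ) * Y) ^ 24 := by positivity
    nlinarith
  · have e1 : ∑ p ∈ P, ∑ q ∈ Q, c p * d q * sg (nr p q) =
        ∑ p ∈ P, ∑ q ∈ Q, c p * d q * (xi q p * sg (uu p * uu q)) := by
      refine sum_congr rfl fun p hp => sum_congr rfl fun q hq => ?_
      obtain ⟨hp1, hp2, hp3⟩ := (hP p hp).1
      obtain ⟨hq1, hq2, hq3⟩ := (hQ q hq).1
      rw [← sg_xi hq1 hp1 (hne p hp q hq).symm, ← sg_add]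
      congr 2
      rw [mul_comm (uu p)]
      exact nr_rec hq1 hq2 hp1 hp2 (hne p hp q hq).symm
    rw [e1]
    refine twist (by positivity) (fun c' d' hc' hd' => ?_) c d hc hd
    have h1 := bil0 hz hzY hXY hQ hP d' c' hd' hc'
    have e2 : ∑ p ∈ P, ∑ q ∈ Q, c' p * d' q * xi q p = ∑ q ∈ Q, ∑ p ∈ P, d' q * c' p * xi q p := by
      rw [sum_comm]
      exact sum_congr rfl fun q _ => sum_congr rfl fun p _ => by ring
    rw [e2]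
    refine h1.trans (le_of_eq ?_)
    ring

/-- the symbols of the primes of `K` -/
theorem bil2 (C₀ : ℝ)
    (hC : ∀ (P Q : Finset RR) (A B z : ℕ) (c d : RR → ℂ),
      (∀ π ∈ P, Pq π ∧ nrm π ≤ A) → (∀ ρ ∈ Q, Pq ρ ∧ nrm ρ ≤ B) → Disjoint P Q →
      1 ≤ z → z ≤ A → z ≤ B → (∀ π, ‖c π‖ ≤ 1) → (∀ ρ, ‖d ρ‖ ≤ 1) →
      ‖∑ π ∈ P, ∑ ρ ∈ Q, c π * d ρ * ez (cs π ρ)‖ ^ 24 * z ≤ C₀ * ((A : ℝ) * B) ^ 24)
    (g h : ℕ → RR) (hg : ∀ p, Pr p → m7 p = 1 → Pq (g p) ∧ nrm (g p) = p)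
    (hh : ∀ p, Pr p → m7 p = 1 → Pq (h p) ∧ nrm (h p) = p)
    {P Q : Finset ℕ} {X Y z : ℕ} (hz : 1 ≤ z) (hzX : z ≤ X) (hzY : z ≤ Y)
    (hP : ∀ p ∈ P, Pr p ∧ p ≤ X) (hQ : ∀ q ∈ Q, Pr q ∧ q ≤ Y) (hdis : Disjoint P Q)
    (hP7 : ∀ p ∈ P, m7 p = 1) (hQ7 : ∀ p ∈ Q, m7 p = 1)
    (c d : ℕ → ℂ) (hc : ∀ p, ‖c p‖ ≤ 1) (hd : ∀ q, ‖d q‖ ≤ 1) :
    ‖∑ p ∈ P, ∑ q ∈ Q, c p * d q * sg (cs (g q) (h p))‖ ^ 24 * z ≤ C₀ * ((X : ℝ) * Y) ^ 24 := by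
  have h1 := hC (Q.image g) (P.image h) Y X z (fun π => d (nrm π)) (fun π => c (nrm π))
    (by
      intro π hπ
      obtain ⟨q, hq, rfl⟩ := mem_image.1 hπ
      obtain ⟨h2, h3⟩ := hg q (hQ q hq).1 (hQ7 q hq)
      exact ⟨h2, by rw [h3]; exact (hQ q hq).2⟩)
    (by
      intro π hπ
      obtain ⟨q, hq, rfl⟩ := mem_image.1 hπ
      obtain ⟨h2, h3⟩ := hh q (hP q hq).1 (hP7 q hq)
      exact ⟨h2, by rw [h3]; exact (hP q hq).2⟩)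
    (by
      rw [disjoint_left]
      intro π h2 h3
      obtain ⟨q, hq, rfl⟩ := mem_image.1 h2
      obtain ⟨p, hp, h4⟩ := mem_image.1 h3
      have h5 := congrArg nrm h4
      rw [(hg q (hQ q hq).1 (hQ7 q hq)).2, (hh p (hP p hp).1 (hP7 p hp)).2] at h5
      rw [h5] at hp
      exact (Finset.disjoint_left.1 hdis) hp hq)
    hz hzY hzX (fun π => hd _) (fun π => hc _)
  have e1 : ∑ π ∈ Q.image g, ∑ ρ ∈ P.image h, d (nrm π) * c (nrm ρ) * ez (cs π ρ) =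
      ∑ p ∈ P, ∑ q ∈ Q, c p * d q * sg (cs (g q) (h p)) := by
    rw [sum_image, sum_comm]
    · rw [sum_image]
      · refine sum_congr rfl fun p hp => sum_congr rfl fun q hq => ?_
        rw [(hg q (hQ q hq).1 (hQ7 q hq)).2, (hh p (hP p hp).1 (hP7 p hp)).2, sg_ez]
        ring
      · intro p hp q hq h5
        have h6 := congrArg nrm h5
        rw [(hh q (hP q hq).1 (hP7 q hq)).2, (hh p (hP p hp).1 (hP7 p hp)).2] at h6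
        exact h6
    · intro p hp q hq h5
      have h6 := congrArg nrm h5
      rw [(hg q (hQ q hq).1 (hQ7 q hq)).2, (hg p (hQ p hp).1 (hQ7 p hp)).2] at h6
      exact h6
  rw [e1] at h1
  refine h1.trans (le_of_eq ?_)
  ring

theorem vp_n {p : ℕ} (hp : Pr p) (h7 : m7 p = 1) : Pq (vp p) ∧ nrm (vp p) = p := by
  refine ⟨(vp_spec hp).1, ?_⟩
  rw [nrm_vp hp, if_pos h7]

theorem wp_n {p : ℕ} (hp : Pr p) (h7 : m7 p = 1) : Pq (wp p) ∧ nrm (wp p) = p := by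
  refine ⟨wp_pq hp, ?_⟩
  have := nR_wp hp h7
  rw [← nrm_cast] at this
  exact_mod_cast this

/-- **ND-BIL** -/
theorem t_BIL : ∃ C : ℝ, BilP AA C := by
  obtain ⟨C₀, hC1, hC⟩ := Pool.Agent.R426.QK.t_BIL
  refine ⟨2 ^ 24 * ((3 * 6 ^ 6) ^ 2) + 2 ^ 24 * C₀, ?_, ?_⟩
  · have : (1 : ℝ) ≤ 2 ^ 24 * ((3 * 6 ^ 6) ^ 2) := by norm_num
    have : (0 : ℝ) ≤ 2 ^ 24 * C₀ := by positivity
    linarith
  intro P Q X Y z c d α β hP hQ hdis hαβ hβ hz hzX hzY hc hd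
  have hXY : (0 : ℝ) ≤ ((X : ℝ) * Y) ^ 24 := by positivity
  have hne : ∀ p ∈ P, ∀ q ∈ Q, p ≠ q := fun p hp q hq he =>
    (Finset.disjoint_left.1 hdis) hp (he ▸ hq)
  rcases z2 β with hb | hb
  · have ha : α = 1 := by
      rcases hαβ with h | h
      · exact (z2_ne α).1 h
      · exact absurd hb h
    rw [ha, hb]
    simp only [one_mul, zero_mul, add_zero]
    refine (bil1 hz hzX hzY hP hQ hdis c d hc hd).trans ?_
    have : 0 ≤ 2 ^ 24 * C₀ * ((X : ℝ) * Y) ^ 24 := by positivity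
    linarith
  · obtain ⟨hP7, hQ7⟩ := hβ (by rw [hb]; exact one_ne_zero)
    have h0 : C₀ * ((X : ℝ) * Y) ^ 24 ≤ 2 ^ 24 * (C₀ * ((X : ℝ) * Y) ^ 24) := by
      have : 0 ≤ C₀ * ((X : ℝ) * Y) ^ 24 := by positivity
      linarith
    have h00 : 0 ≤ 2 ^ 24 * (3 * 6 ^ 6) ^ 2 * ((X : ℝ) * Y) ^ 24 := by positivity
    rcases z2 α with ha | ha
    · rw [ha, hb]
      simp only [one_mul, zero_mul, zero_add]
      refine (bil2 C₀ hC vp vp (fun p hp h7 => vp_n hp h7) (fun p hp h7 => vp_n hp h7) hz hzX hzY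
        hP hQ hdis hP7 hQ7 c d hc hd).trans ?_
      linarith
    · rw [ha, hb]
      simp only [one_mul]
      have e1 : ∑ p ∈ P, ∑ q ∈ Q, c p * d q * sg (nr p q + AA p q) =
          ∑ p ∈ P, ∑ q ∈ Q, c p * d q * (sg (cs (wp q) (vp p)) * sg (uu p * uu q)) := by
        refine sum_congr rfl fun p hp => sum_congr rfl fun q hq => ?_
        rw [← sg_add, cs_wv (hP p hp).1 (hQ q hq).1 (hne p hp q hq) (hP7 p hp) (hQ7 q hq)]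
        congr 2
        rw [nr_rec (hP p hp).1.1 (hP p hp).1.2.1 (hQ q hq).1.1 (hQ q hq).1.2.1 (hne p hp q hq)]
        show nr p q + cs (vp q) (vp p) = cs (vp q) (vp p) + (nr p q + uu p * uu q) + uu p * uu q
        have h8 : ∀ n a u : ZMod 2, n + a = a + (n + u) + u := by decide
        exact h8 _ _ _
      rw [e1]
      refine (twist (by positivity) (fun c' d' hc' hd' => bil2 C₀ hC wp vp
        (fun p hp h7 => wp_n hp h7) (fun p hp h7 => vp_n hp h7) hz hzX hzY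
        hP hQ hdis hP7 hQ7 c' d' hc' hd') c d hc hd).trans ?_
      linarith

end Pool.Agent.N973.NT
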