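import Pool.Agent.N973.ND.Asy
import Pool.Agent.N973.ND.BOX
import Pool.Agent.N973.ND.LA
import Pool.Agent.N973.ND.EQ
import Pool.Agent.N973.ND.Bil
import Pool.Agent.N226.ND.KEY
import Pool.Agent.N713.ND.CNT
import Pool.Agent.N713.ND.FEW
import Pool.Agent.N713.ND.NS
import Pool.Agent.N897.ND.HAL
import Pool.Agent.N897.ND.BAD
import Pool.Agent.N186.ND.KD
import Pool.Agent.Y839.CQ.SYM
import Pool.Agent.Y948.CQ.C2
import Pool.Agent.Y405.CQ.MER
import Pool.Agent.Y488.CX.Sie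

/-!
# ND: the exact proportion of the good `D`, all squarefree `D ≡ 1` modulo `4` prime to `7`
-/

set_option autoImplicit false

open scoped Classical

namespace Pool.Agent.N973.ND

theorem t_DQ_all : S_DQ :=
  Asy.t_DQ t_EQ (t_LA (t_ALT Pool.Agent.Y839.CQ.t_SYM) Pool.Agent.Y948.CQ.t_C2) t_BOX
    Pool.Agent.N226.ND.KEY.t_KEY Pool.Agent.N713.ND.CNT.t_CNT Pool.Agent.Y488.CX.t_SIE
    Pool.Agent.N897.ND.t_HAL Pool.Agent.N897.ND.t_BAD Pool.Agent.N713.ND.FEW.t_FEW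
    Pool.Agent.Y405.CQ.t_MER Pool.Agent.N713.ND.NS.t_LOW Pool.Agent.N186.ND.t_KD
    Pool.Agent.N713.ND.NS.t_NEG Pool.Agent.Y948.CQ.t_C2

theorem t_DEN : S_DEN := Pool.Agent.N713.ND.NS.t_NS t_DQ_all

open Finset in
/-- **the proportion of the `D` whose matrix is not singular** -/
theorem prop : Filter.Tendsto
  (fun X : ℕ => (((Icc 1 X).filter fun D => Squarefree D ∧ D % 4 = 1 ∧ ¬ 7 ∣ D ∧
      Gd NT.AA NT.bb D.primeFactors).card : ℝ) /
    (((Icc 1 X).filter fun D => Squarefree D ∧ D % 4 = 1 ∧ ¬ 7 ∣ D).card : ℝ))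
  Filter.atTop (nhds (Pool.Agent.Y703.CQ.c2 / 2)) := by
  obtain ⟨C, hC⟩ := NT.t_BIL
  exact t_DEN NT.AA NT.bb C NT.recA hC

end Pool.Agent.N973.ND
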