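import Pool.Agent.R426.QK.Sym
import Pool.Agent.R426.QK.Cheb
import Pool.Agent.N973.ND.BOX0

/-!
# The primary primes above the rational primes and their symbols
-/

set_option autoImplicit false
set_option linter.unusedSectionVars false

open scoped Classical

namespace Pool.Agent.N973.NT

open Finset
open Pool.Agent.N973.ND (Pr m7 uu ty m7_le z2 z2_add z2_mul z2_ne nr_rec nr_self)
open Pool.Agent.Y703.CQ (nr)
open Pool.Agent.R426.QD (r4 r4_eq r4_a r4_m4 Pn recG tp et nb cf sy_nb sp_nb nb_mem nb_or pn_cf lg_sy_nb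
  lg_e7_nb tp_pm p3_fR Pn.seven P3)
open Pool.Agent.R426.QC (In spl_sy sy_int jac_odd jac_even cop_of_norm sg4 Pm coord4 cj_dvd)
open Pool.Agent.R426.QK (Pq prm nrm nrm_cast nrm_eq' nrm_mul cs ss tt PD mem_PD pq_ne eq_of_dvd tp_tt
  nrm_natCast recP exists_PP not_aR sy_pm prime_aR prime_cjaR sy_per' sy_mul' dvd_nrm)
open Pool.Agent.Y698 (RR cj cX cY nR aR fR e7 mul_cj cj_cj nR_nat nR_mul qch irr_or_norm nonsq_of_irr
  sp_cj_ne e7_cj e7_neg r7 r7_sq cop_cast isUnit_iff nR_fR e7_eq_zero)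
open Pool.Agent.Y698.SG (sy lg lg_one lg_neg_one lg_mul)
open Pool.Agent.W192.HK (sp)
open Pool.Agent.Y279.SG (nR_dvd dvd_coord unit_of_nR cXY_cj qch_eq)

theorem m7_iff (p : ℕ) : m7 p = 1 ↔ p % 7 = 1 ∨ p % 7 = 2 ∨ p % 7 = 4 := by
  unfold m7
  split_ifs with h
  · exact ⟨fun _ => h, fun _ => rfl⟩
  · exact ⟨fun h' => absurd h' (by norm_num), fun h' => absurd h' h⟩

/-- the symbol `(-7 / p)` -/
theorem jac7 {p : ℕ} (h : Pr p) : jacobiSym (-7) p = if m7 p = 1 then 1 else -1 := by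
  have hpo : Odd p := h.1.odd_of_ne_two h.2.1
  have h7 : p % 7 ≠ 0 := by
    intro h0
    exact h.2.2 ((Nat.prime_dvd_prime_iff_eq (by norm_num) h.1).1 (Nat.dvd_of_mod_eq_zero h0)).symm
  have h1 : jacobiSym (-7) p = jacobiSym p 7 := by
    have e : (-7 : ℤ) = -1 * ((7 : ℕ) : ℤ) := by norm_num
    rw [e, jacobiSym.mul_left, jacobiSym.at_neg_one hpo]
    rcases Nat.odd_mod_four_iff.1 (Nat.odd_iff.1 hpo) with h4 | h4
    · rw [ZMod.χ₄_nat_one_mod_four h4, one_mul]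
      exact (jacobiSym.quadratic_reciprocity_one_mod_four h4 (by decide)).symm
    · rw [ZMod.χ₄_nat_three_mod_four h4, jacobiSym.quadratic_reciprocity_three_mod_four
        (by norm_num) h4]
      ring
  have h2 : jacobiSym (p : ℤ) 7 = jacobiSym ((p % 7 : ℕ) : ℤ) 7 := by
    rw [jacobiSym.mod_left]
    push_cast
    rfl
  rw [h1, h2]
  have h3 : p % 7 < 7 := Nat.mod_lt _ (by norm_num)
  have h4 := m7_iff p
  by_cases h5 : m7 p = 1
  · rw [if_pos h5]
    rcases h4.1 h5 with h6 | h6 | h6 <;> rw [h6] <;> norm_num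
  · rw [if_neg h5]
    have h6 : ¬ (p % 7 = 1 ∨ p % 7 = 2 ∨ p % 7 = 4) := fun h' => h5 (h4.2 h')
    have h7 : p % 7 = 3 ∨ p % 7 = 5 ∨ p % 7 = 6 := by omega
    rcases h7 with h7 | h7 | h7 <;> rw [h7] <;> norm_num

theorem sq7 {p : ℕ} (h : Pr p) : IsSquare (-7 : ZMod p) ↔ m7 p = 1 := by
  have _ : Fact p.Prime := ⟨h.1⟩
  have h1 := jac7 h
  rw [← jacobiSym.legendreSym.to_jacobiSym] at h1
  have hne : ((-7 : ℤ) : ZMod p) ≠ 0 := by
    intro h0
    rw [ZMod.intCast_zmod_eq_zero_iff_dvd, Int.dvd_neg] at h0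
    have h2 : p ∣ 7 := by exact_mod_cast h0
    exact h.2.2 ((Nat.prime_dvd_prime_iff_eq h.1 (by norm_num)).1 h2)
  have h2 := legendreSym.eq_one_iff p hne
  rw [h1] at h2
  have e : ((-7 : ℤ) : ZMod p) = -7 := by push_cast; rfl
  rw [e] at h2
  rw [← h2]
  split_ifs with h3
  · exact ⟨fun _ => h3, fun _ => rfl⟩
  · exact ⟨fun h' => absurd h' (by norm_num), fun h' => absurd h' h3⟩

theorem in_of {p : ℕ} (h : Pr p) (h7 : m7 p ≠ 1) : In p := ⟨h.1, h.2.1, fun h' => h7 ((sq7 h).1 h')⟩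

theorem norm_of {p : ℕ} (h : Pr p) (h7 : m7 p = 1) : ∃ g : RR, nR g = p := by
  rcases irr_or_norm h.1 with h1 | h1
  · exact absurd ((sq7 h).2 h7) (nonsq_of_irr h.1 h.2.1 h1)
  · exact h1

theorem irr_of {p : ℕ} (h : Pr p) (h7 : m7 p ≠ 1) : Irreducible (p : RR) := by
  rcases irr_or_norm h.1 with h1 | ⟨g, hg⟩
  · exact h1
  · exfalso
    apply h7
    rw [m7_iff]
    have h2 := r7_sq g
    rw [hg] at h2
    have h3 : ∀ z : ZMod 7, z ^ 2 = 0 ∨ z ^ 2 = 1 ∨ z ^ 2 = 2 ∨ z ^ 2 = 4 := by decide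
    have h4 : ∀ n : ℕ, ((p : ℤ) : ZMod 7) = (n : ZMod 7) → p % 7 = n % 7 := by
      intro n hn
      rw [Int.cast_natCast, ZMod.natCast_eq_natCast_iff'] at hn
      exact hn
    have h5 : p % 7 ≠ 0 := by
      intro h0
      exact h.2.2 ((Nat.prime_dvd_prime_iff_eq (by norm_num) h.1).1
        (Nat.dvd_of_mod_eq_zero h0)).symm
    rcases h3 (r7 g) with h6 | h6 | h6 | h6
    · have := h4 0 (by rw [← h2, h6]; rfl)
      omega
    · have := h4 1 (by rw [← h2, h6]; rfl)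
      omega
    · have := h4 2 (by rw [← h2, h6]; rfl)
      omega
    · have := h4 4 (by rw [← h2, h6]; rfl)
      omega

theorem nR_aR : nR aR = 2 := by
  unfold nR
  rw [Pool.Agent.Y698.cXY_aR.1, Pool.Agent.Y698.cXY_aR.2]
  norm_num

theorem nR_cj (g : RR) : nR (cj g) = nR g := by
  unfold nR
  rw [(cXY_cj g).1, (cXY_cj g).2]
  ring

/-- divisors and norms -/
theorem not_dvd_of {x y : RR} {m : ℤ} (hx : nR x = m) (h : ¬ m ∣ nR y) : ¬ x ∣ y := by
  intro h1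
  apply h
  rw [← hx]
  exact nR_dvd (Ideal.mem_span_singleton.2 h1)

theorem pr_odd {p : ℕ} (h : Pr p) : ¬ (2 : ℤ) ∣ (p : ℤ) ∧ ¬ (7 : ℤ) ∣ (p : ℤ) := by
  constructor
  · intro h1
    have h2 : 2 ∣ p := by exact_mod_cast h1
    exact h.2.1 ((Nat.prime_dvd_prime_iff_eq (by norm_num) h.1).1 h2).symm
  · intro h1
    have h2 : 7 ∣ p := by exact_mod_cast h1
    exact h.2.2 ((Nat.prime_dvd_prime_iff_eq (by norm_num) h.1).1 h2).symm

theorem exists_vp {p : ℕ} (h : Pr p) : ∃ π : RR, Pq π ∧ π ∣ (p : RR) ∧ (m7 p = 1 → nR π = p) ∧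
    (m7 p ≠ 1 → (p % 4 = 1 → π = p) ∧ (p % 4 = 3 → π = -(p : RR))) := by
  obtain ⟨ho2, ho7⟩ := pr_odd h
  by_cases h7 : m7 p = 1
  · obtain ⟨g, hg⟩ := norm_of h h7
    have hgi : Irreducible g := by
      refine ⟨fun hu => ?_, fun x y hxy => ?_⟩
      · rcases isUnit_iff.1 hu with rfl | rfl
        · have h1 : nR (1 : RR) = 1 := by
            unfold nR
            rw [Pool.Agent.Y698.cXY_one.1, Pool.Agent.Y698.cXY_one.2]
            norm_num
          rw [h1] at hg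
          exact h.1.one_lt.ne' (by exact_mod_cast hg.symm)
        · have h1 : nR (-1 : RR) = 1 := by
            rw [Pool.Agent.Y698.nR_neg]
            unfold nR
            rw [Pool.Agent.Y698.cXY_one.1, Pool.Agent.Y698.cXY_one.2]
            norm_num
          rw [h1] at hg
          exact h.1.one_lt.ne' (by exact_mod_cast hg.symm)
      · have h1 : nR x * nR y = p := by rw [← nR_mul, ← hxy, hg]
        have h2 : nrm x * nrm y = p := by
          have h3 : ((nrm x * nrm y : ℕ) : ℤ) = p := by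
            push_cast
            rw [nrm_cast, nrm_cast]
            exact h1
          exact_mod_cast h3
        have hu : ∀ z : RR, nrm z = 1 → IsUnit z := fun z hz => unit_of_nR (by
          rw [← nrm_cast, hz]
          norm_num)
        rcases (Nat.dvd_prime h.1).1 (Dvd.intro _ h2) with h3 | h3
        · exact Or.inl (hu x h3)
        · right
          apply hu
          rw [h3] at h2
          exact Nat.eq_of_mul_eq_mul_left h.1.pos (by rw [h2, mul_one])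
    have ha : ¬ aR ∣ g := not_dvd_of nR_aR (by rw [hg]; exact ho2)
    have hc : ¬ cj aR ∣ g := not_dvd_of ((nR_cj aR).trans nR_aR) (by rw [hg]; exact ho2)
    have hf : ¬ fR ∣ g := not_dvd_of nR_fR (by rw [hg]; exact ho7)
    obtain ⟨π, hπ, hass⟩ := exists_PP hgi.prime ha hc hf
    have hn : nR π = p := by
      obtain ⟨u, hu⟩ := hass
      rw [← hg, ← hu, nR_mul]
      rcases isUnit_iff.1 u.isUnit with h1 | h1 <;> rw [h1]
      · have h1 : nR (1 : RR) = 1 := by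
          unfold nR
          rw [Pool.Agent.Y698.cXY_one.1, Pool.Agent.Y698.cXY_one.2]
          norm_num
        rw [h1, mul_one]
      · have h1 : nR (-1 : RR) = 1 := by
          rw [Pool.Agent.Y698.nR_neg]
          unfold nR
          rw [Pool.Agent.Y698.cXY_one.1, Pool.Agent.Y698.cXY_one.2]
          norm_num
        rw [h1, mul_one]
    refine ⟨π, hπ, ?_, fun _ => hn, fun h' => absurd h7 h'⟩
    have h3 := mul_cj π
    rw [hn] at h3
    exact ⟨cj π, by rw [h3]; push_cast; rfl⟩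
  · have hirr := irr_of h h7
    have hpn : nR (p : RR) = (p : ℤ) ^ 2 := nR_nat p
    have hd2 : ¬ (2 : ℤ) ∣ nR (p : RR) := by
      rw [hpn]
      intro h1
      exact ho2 (Int.prime_two.dvd_of_dvd_pow h1)
    have hd7 : ¬ (7 : ℤ) ∣ nR (p : RR) := by
      rw [hpn]
      intro h1
      exact ho7 ((Nat.prime_iff_prime_int.1 (by norm_num : Nat.Prime 7)).dvd_of_dvd_pow h1)
    have hc : ¬ cj aR ∣ (p : RR) := not_dvd_of ((nR_cj aR).trans nR_aR) hd2
    have hf : ¬ fR ∣ (p : RR) := not_dvd_of nR_fR hd7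
    rcases Nat.odd_mod_four_iff.1 (Nat.odd_iff.1 (h.1.odd_of_ne_two h.2.1)) with h4 | h4
    · refine ⟨p, ⟨hirr.prime, ?_, hc, hf⟩, dvd_rfl, fun h' => absurd h' h7,
        fun _ => ⟨fun _ => rfl, fun h' => by omega⟩⟩
      apply r4_m4
      refine ⟨((p / 4 : ℕ) : RR), ?_⟩
      have h5 : p = 1 + 4 * (p / 4) := by omega
      conv_lhs => rw [h5]
      push_cast
      rfl
    · refine ⟨-(p : RR), ⟨hirr.prime.neg, ?_, fun h' => hc ((dvd_neg).1 h'),
        fun h' => hf ((dvd_neg).1 h')⟩, (neg_dvd).2 dvd_rfl, fun h' => absurd h' h7,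
        fun _ => ⟨fun h' => by omega, fun _ => rfl⟩⟩
      apply r4_m4
      refine ⟨-((p / 4 : ℕ) : RR) - 1, ?_⟩
      have h5 : p = 3 + 4 * (p / 4) := by omega
      conv_lhs => rw [h5]
      push_cast
      ring

/-- the primary prime above a prime -/
noncomputable def vp (p : ℕ) : RR := if h : Pr p then (exists_vp h).choose else 1

theorem vp_spec {p : ℕ} (h : Pr p) : Pq (vp p) ∧ vp p ∣ (p : RR) ∧ (m7 p = 1 → nR (vp p) = p) ∧
    (m7 p ≠ 1 → (p % 4 = 1 → vp p = p) ∧ (p % 4 = 3 → vp p = -(p : RR))) := by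
  unfold vp
  rw [dif_pos h]
  exact (exists_vp h).choose_spec

/-- the conjugate -/
noncomputable def wp (p : ℕ) : RR := cf (vp p)

theorem odd4 {p : ℕ} (h : Pr p) : p % 4 = 1 ∨ p % 4 = 3 :=
  Nat.odd_mod_four_iff.1 (Nat.odd_iff.1 (h.1.odd_of_ne_two h.2.1))

theorem nrm_vp {p : ℕ} (h : Pr p) : nrm (vp p) = if m7 p = 1 then p else p ^ 2 := by
  obtain ⟨-, -, h1, h2⟩ := vp_spec h
  split_ifs with h7
  · have h3 := h1 h7
    rw [← nrm_cast] at h3
    exact_mod_cast h3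
  · rcases odd4 h with h4 | h4
    · rw [(h2 h7).1 h4, nrm_natCast]
    · rw [(h2 h7).2 h4]
      unfold nrm
      rw [Pool.Agent.Y698.nR_neg]
      exact nrm_natCast p

theorem tt_vp {p : ℕ} (h : Pr p) (h7 : m7 p = 1) : tt (vp p) = uu p := by
  unfold tt uu
  rw [nrm_vp h, if_pos h7]

theorem tt_vp' {p : ℕ} (h : Pr p) (h7 : m7 p ≠ 1) : tt (vp p) = 0 := by
  unfold tt
  rw [nrm_vp h, if_neg h7, if_neg]
  rcases odd4 h with h4 | h4 <;> rw [pow_two, Nat.mul_mod, h4] <;> norm_num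

theorem cj_fR : cj fR = -fR := by
  unfold fR
  rw [map_sub, map_mul, map_ofNat, map_one, Pool.Agent.R426.QC.cj_aR]
  ring

theorem fR_dvd_cj {x : RR} : fR ∣ cj x ↔ fR ∣ x := by
  have h1 : fR ∣ cj x ↔ cj fR ∣ cj x := by rw [cj_fR, neg_dvd]
  rw [h1, cj_dvd]

theorem nb_dvd' {y ϖ : RR} : y ∣ nb ϖ ↔ y ∣ ϖ := by
  rcases nb_or ϖ with h1 | h1 <;> rw [h1]
  exact dvd_neg

theorem wp_pq {p : ℕ} (h : Pr p) : Pq (wp p) := by
  obtain ⟨h1, -⟩ := vp_spec h
  have h2 := pn_cf h1.pn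
  refine ⟨h2.pr, h2.r4, ?_, ?_⟩
  · intro h3
    have h4 : cj aR ∣ cj (nb (vp p)) := h3
    rw [cj_dvd, nb_dvd'] at h4
    exact not_aR h1.prm h4
  · intro h3
    have h4 : fR ∣ cj (nb (vp p)) := h3
    rw [fR_dvd_cj, nb_dvd'] at h4
    exact h1.prm.cop7 h4

theorem nb_mul_wp (p : ℕ) : nb (vp p) * wp p = ((nR (vp p) : ℤ) : RR) := by
  unfold wp cf
  rw [mul_cj]
  rcases nb_or (vp p) with h1 | h1 <;> rw [h1]
  rw [Pool.Agent.Y698.nR_neg]

theorem vp_mul_cj {p : ℕ} (h : Pr p) (h7 : m7 p = 1) : vp p * cj (vp p) = (p : RR) := by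
  rw [mul_cj, (vp_spec h).2.2.1 h7]
  push_cast
  rfl

theorem nb_mul_wp' {p : ℕ} (h : Pr p) (h7 : m7 p = 1) : nb (vp p) * wp p = (p : RR) := by
  rw [nb_mul_wp, (vp_spec h).2.2.1 h7]
  push_cast
  rfl

theorem wp_dvd {p : ℕ} (h : Pr p) (h7 : m7 p = 1) : wp p ∣ (p : RR) :=
  ⟨nb (vp p), by rw [mul_comm]; exact (nb_mul_wp' h h7).symm⟩

/-- a prime above one prime only -/
theorem ne_of {p q : ℕ} (hp : Pr p) (hq : Pr q) (hpq : p ≠ q) {π : RR} (h : Prime π)
    (h1 : π ∣ (p : RR)) : ¬ π ∣ (q : RR) := fun h2 =>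
  h.not_isUnit ((cop_cast ((Nat.coprime_primes hp.1 hq.1).2 hpq)).isUnit_of_dvd' h1 h2)

theorem vp_ne {p q : ℕ} (hp : Pr p) (hq : Pr q) (hpq : p ≠ q) : vp p ≠ vp q := by
  intro h
  have h1 := ne_of hp hq hpq (vp_spec hp).1.prime (vp_spec hp).2.1
  rw [h] at h1
  exact h1 (vp_spec hq).2.1

theorem vp_ne_wp {p q : ℕ} (hp : Pr p) (hq : Pr q) (hq7 : m7 q = 1) : vp p ≠ wp q := by
  intro h
  by_cases hpq : p = q
  · subst hpq
    have h1 := sp_cj_ne hp.1 hp.2.2 ((vp_spec hp).2.2.1 hq7)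
    apply h1
    have h2 : sp (vp p) = sp (cj (nb (vp p))) := congrArg sp h
    rw [h2]
    rcases nb_or (vp p) with h3 | h3 <;> rw [h3]
    rw [map_neg]
    exact Ideal.span_singleton_neg _
  · have h1 := ne_of hp hq hpq (vp_spec hp).1.prime (vp_spec hp).2.1
    rw [h] at h1
    exact h1 (wp_dvd hq hq7)

theorem wp_ne {p q : ℕ} (hp : Pr p) (hq : Pr q) (hp7 : m7 p = 1) (hq7 : m7 q = 1) (hpq : p ≠ q) :
    wp p ≠ wp q := by
  intro h
  have h1 := ne_of hp hq hpq (wp_pq hp).prime (wp_dvd hp hp7)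
  rw [h] at h1
  exact h1 (wp_dvd hq hq7)

theorem ndvd {π ρ : RR} (h : Pq π) (h' : Pq ρ) (hne : π ≠ ρ) : ¬ π ∣ ρ := fun hd =>
  hne (eq_of_dvd h h' hd)

end Pool.Agent.N973.NT
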