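import Pool.Agent.N973.ND.Vp

/-!
# The symbols
-/

set_option autoImplicit false
set_option linter.unusedSectionVars false

open scoped Classical

namespace Pool.Agent.N973.NT

open Finset
open Pool.Agent.N973.ND (Pr m7 uu ty m7_le z2 z2_add z2_mul z2_ne nr_rec nr_self)
open Pool.Agent.Y703.CQ (nr)
open Pool.Agent.R426.QD (r4 r4_eq r4_a r4_m4 Pn recG tp et nb cf sy_nb sp_nb nb_mem nb_or pn_cf lg_sy_nb
  lg_e7_nb tp_pm p3_fR Pn.seven P3)
open Pool.Agent.R426.QC (In spl_sy sy_int jac_odd jac_even cop_of_norm sg4 Pm coord4 cj_dvd sy_negm)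
open Pool.Agent.R426.QK (Pq prm nrm nrm_cast nrm_eq' nrm_mul cs ss tt PD mem_PD pq_ne eq_of_dvd tp_tt
  nrm_natCast recP exists_PP not_aR sy_pm prime_aR prime_cjaR sy_per' sy_mul' dvd_nrm)
open Pool.Agent.Y698 (RR cj cX cY nR aR fR e7 mul_cj cj_cj nR_nat nR_mul qch irr_or_norm nonsq_of_irr
  sp_cj_ne e7_cj e7_neg r7 r7_sq cop_cast isUnit_iff nR_fR e7_eq_zero qch_val)
open Pool.Agent.Y698.SG (sy lg lg_one lg_neg_one lg_mul)
open Pool.Agent.W192.HK (sp)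
open Pool.Agent.Y279.SG (nR_dvd dvd_coord unit_of_nR cXY_cj qch_eq sy_cj)

theorem mem_sp' {x y : RR} : x ∈ sp y ↔ y ∣ x := Ideal.mem_span_singleton

/-- the rational symbol -/
theorem lg_qch {p q : ℕ} (hp : p.Prime) (h : ¬ p ∣ q) : lg (qch p q) = nr p q := by
  have _ : Fact p.Prime := ⟨hp⟩
  have hne : (((q : ℤ) : ℤ) : ZMod p) ≠ 0 := by
    rw [Int.cast_natCast, Ne, ZMod.natCast_eq_zero_iff]
    exact h
  have h1 := legendreSym.eq_one_iff p hne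
  rw [Int.cast_natCast] at h1
  unfold qch lg nr
  rw [← jacobiSym.legendreSym.to_jacobiSym]
  by_cases h2 : IsSquare ((q : ℕ) : ZMod p)
  · rw [if_pos h2, h1.2 h2, Int.cast_one, if_pos rfl]
  · rw [if_neg h2, if_neg]
    intro h3
    apply h2
    rw [← h1]
    exact_mod_cast h3

theorem ndvd_nat {p q : ℕ} (hp : Pr p) (hq : Pr q) (hpq : p ≠ q) : ¬ p ∣ q := fun h =>
  hpq ((Nat.prime_dvd_prime_iff_eq hp.1 hq.1).1 h)

theorem qch_pm {p : ℕ} (hp : p.Prime) {m : ℤ} (h : ¬ (p : ℤ) ∣ m) : qch p m = 1 ∨ qch p m = -1 := by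
  rcases qch_val hp m with h1 | h1
  · exact absurd h1.1 h
  · exact h1.2

/-- (c) -/
theorem cs_vw {p q : ℕ} (hp : Pr p) (hq : Pr q) (hpq : p ≠ q) (hp7 : m7 p = 1) (hq7 : m7 q = 1) :
    cs (vp q) (wp p) = cs (vp q) (vp p) + nr q p + uu p * uu q := by
  obtain ⟨hvq, hvqd, hvqn, -⟩ := vp_spec hq
  obtain ⟨hvp, hvpd, hvpn, -⟩ := vp_spec hp
  have h1 : ¬ vp q ∣ vp p := ndvd hvq hvp (vp_ne hq hp (Ne.symm hpq))
  have h2 : ¬ vp q ∣ wp p := ndvd hvq (wp_pq hp) (vp_ne_wp hq hp hp7)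
  have h2' : ¬ vp q ∣ nb (vp p) := fun h => h1 (nb_dvd'.1 h)
  have h3 := sy_mul' hvq (nb (vp p)) (wp p)
  rw [nb_mul_wp' hp hp7] at h3
  have h4 : sy (vp q) (p : RR) = qch q p := by
    have := sy_int hq.1 (hvqn hq7) (p : ℤ)
    rwa [Int.cast_natCast] at this
  rw [h4] at h3
  have h5 := congrArg lg h3
  rw [lg_qch hq.1 (ndvd_nat hq hp (Ne.symm hpq)), lg_mul (sy_pm h2') (sy_pm h2),
    lg_sy_nb hvq.prime hvq.od (fun h => h1 (mem_sp'.1 h)), tp_tt hvq, tp_tt hvp, tt_vp hq hq7,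
    tt_vp hp hp7] at h5
  have h6 : cs (vp q) (wp p) = lg (sy (vp q) (wp p)) := rfl
  have h7 : cs (vp q) (vp p) = lg (sy (vp q) (vp p)) := rfl
  rw [h6, h7]
  have h8 : ∀ n a b w u : ZMod 2, n = u * b + a + w → w = a + n + b * u := by decide
  exact h8 _ _ _ _ _ h5

/-- (b) -/
theorem cs_ww {p q : ℕ} (hp : Pr p) (hq : Pr q) (hpq : p ≠ q) (hp7 : m7 p = 1) (hq7 : m7 q = 1) :
    cs (wp q) (wp p) = cs (vp q) (vp p) + uu p * uu q := by
  obtain ⟨hvq, hvqd, hvqn, -⟩ := vp_spec hq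
  obtain ⟨hvp, hvpd, hvpn, -⟩ := vp_spec hp
  have h1 : ¬ vp q ∣ vp p := ndvd hvq hvp (vp_ne hq hp (Ne.symm hpq))
  have h2 : cs (wp q) (wp p) = lg (sy (cj (nb (vp q))) (cj (nb (vp p)))) := rfl
  rw [h2, sy_cj, sy_nb, lg_sy_nb hvq.prime hvq.od (fun h => h1 (mem_sp'.1 h)), tp_tt hvq, tp_tt hvp,
    tt_vp hq hq7, tt_vp hp hp7]
  have h7 : cs (vp q) (vp p) = lg (sy (vp q) (vp p)) := rfl
  rw [h7]
  ring

/-- (d) -/
theorem cs_wv {p q : ℕ} (hp : Pr p) (hq : Pr q) (hpq : p ≠ q) (hp7 : m7 p = 1) (hq7 : m7 q = 1) :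
    cs (wp q) (vp p) = cs (vp q) (vp p) + nr q p := by
  obtain ⟨hvq, hvqd, hvqn, -⟩ := vp_spec hq
  obtain ⟨hvp, hvpd, hvpn, -⟩ := vp_spec hp
  have h1 : ¬ vp q ∣ vp p := ndvd hvq hvp (vp_ne hq hp (Ne.symm hpq))
  have h2 : ¬ vp q ∣ cj (vp p) := by
    intro h
    have h3 : vp q ∣ wp p := by
      show vp q ∣ cj (nb (vp p))
      rcases nb_or (vp p) with h4 | h4 <;> rw [h4]
      · exact h
      · rw [map_neg]
        exact (dvd_neg).2 h
    exact ndvd hvq (wp_pq hp) (vp_ne_wp hq hp hp7) h3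
  have h0 : sy (wp q) (vp p) = sy (vp q) (cj (vp p)) := by
    have h3 : sy (wp q) (vp p) = sy (cj (nb (vp q))) (cj (cj (vp p))) := by
      rw [cj_cj]
      rfl
    rw [h3, sy_cj, sy_nb]
  have h3 := sy_mul' hvq (vp p) (cj (vp p))
  rw [vp_mul_cj hp hp7] at h3
  have h4 : sy (vp q) (p : RR) = qch q p := by
    have := sy_int hq.1 (hvqn hq7) (p : ℤ)
    rwa [Int.cast_natCast] at this
  rw [h4] at h3
  have h5 := congrArg lg h3
  rw [lg_qch hq.1 (ndvd_nat hq hp (Ne.symm hpq)), lg_mul (sy_pm h1) (sy_pm h2)] at h5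
  have h6 : cs (wp q) (vp p) = lg (sy (vp q) (cj (vp p))) := congrArg lg h0
  have h7 : cs (vp q) (vp p) = lg (sy (vp q) (vp p)) := rfl
  rw [h6, h7]
  have h8 : ∀ n a w : ZMod 2, n = a + w → w = a + n := by decide
  exact h8 _ _ _ h5

/-- (h) -/
theorem cs_in {q : ℕ} (hq : Pr q) (hq7 : m7 q ≠ 1) (x : RR) : sy (vp q) x = qch q (nR x) := by
  rcases odd4 hq with h4 | h4
  · rw [((vp_spec hq).2.2.2 hq7).1 h4]
    exact (in_of hq hq7).sy x
  · rw [((vp_spec hq).2.2.2 hq7).2 h4, sy_negm]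
    exact (in_of hq hq7).sy x

theorem nR_wp {p : ℕ} (hp : Pr p) (hp7 : m7 p = 1) : nR (wp p) = p := by
  have h1 : wp p = cj (nb (vp p)) := rfl
  rw [h1, nR_cj]
  rcases nb_or (vp p) with h4 | h4 <;> rw [h4]
  · exact (vp_spec hp).2.2.1 hp7
  · rw [Pool.Agent.Y698.nR_neg]
    exact (vp_spec hp).2.2.1 hp7

theorem cs_iv {p q : ℕ} (hp : Pr p) (hq : Pr q) (hpq : p ≠ q) (hp7 : m7 p = 1) (hq7 : m7 q ≠ 1) :
    cs (vp q) (vp p) = nr q p := by
  have h1 : cs (vp q) (vp p) = lg (sy (vp q) (vp p)) := rfl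
  rw [h1, cs_in hq hq7, (vp_spec hp).2.2.1 hp7]
  exact lg_qch hq.1 (ndvd_nat hq hp (Ne.symm hpq))

theorem cs_iw {p q : ℕ} (hp : Pr p) (hq : Pr q) (hpq : p ≠ q) (hp7 : m7 p = 1) (hq7 : m7 q ≠ 1) :
    cs (vp q) (wp p) = nr q p := by
  have h1 : cs (vp q) (wp p) = lg (sy (vp q) (wp p)) := rfl
  rw [h1, cs_in hq hq7, nR_wp hp hp7]
  exact lg_qch hq.1 (ndvd_nat hq hp (Ne.symm hpq))

/-- (i) -/
theorem cs_vi {p q : ℕ} (hp : Pr p) (hq : Pr q) (hpq : p ≠ q) (hp7 : m7 p = 1) (hq7 : m7 q ≠ 1) :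
    cs (vp p) (vp q) = nr q p := by
  have h1 := recP (vp p) (vp q) (vp_spec hp).1 (vp_spec hq).1 (vp_ne hp hq hpq)
  rw [tt_vp' hq hq7, mul_zero, cs_iv hp hq hpq hp7 hq7] at h1
  have h8 : ∀ n a : ZMod 2, n + a = 0 → n = a := by decide
  exact h8 _ _ h1

theorem cs_wi {p q : ℕ} (hp : Pr p) (hq : Pr q) (hpq : p ≠ q) (hp7 : m7 p = 1) (hq7 : m7 q ≠ 1) :
    cs (wp p) (vp q) = nr q p := by
  have h1 := recP (wp p) (vp q) (wp_pq hp) (vp_spec hq).1 (Ne.symm (vp_ne_wp hq hp hp7))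
  rw [tt_vp' hq hq7, mul_zero, cs_iw hp hq hpq hp7 hq7] at h1
  have h8 : ∀ n a : ZMod 2, n + a = 0 → n = a := by decide
  exact h8 _ _ h1

/-- (j) -/
theorem cs_ii {p q : ℕ} (hp : Pr p) (hq : Pr q) (hpq : p ≠ q) (hp7 : m7 p ≠ 1) (hq7 : m7 q ≠ 1) :
    cs (vp q) (vp p) = 0 := by
  have h1 : cs (vp q) (vp p) = lg (sy (vp q) (vp p)) := rfl
  rw [h1, cs_in hq hq7]
  have h2 : nR (vp p) = (p : ℤ) ^ 2 := by
    have h3 := nrm_vp hp
    rw [if_neg hp7] at h3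
    rw [← nrm_cast, h3]
    push_cast
    rfl
  have h3 : qch q ((p : ℤ) ^ 2) = 1 := by
    unfold qch
    rw [jacobiSym.sq_one']
    · norm_num
    · rw [← Int.isCoprime_iff_gcd_eq_one]
      exact Nat.isCoprime_iff_coprime.2 ((Nat.coprime_primes hp.1 hq.1).2 hpq)
  rw [h2, h3, lg_one]

/-- (k) -/
theorem ss_in {q : ℕ} (hq : Pr q) (hq7 : m7 q ≠ 1) : ss (vp q) = 1 + uu q := by
  have h1 : ss (vp q) = lg (e7 (vp q)) := rfl
  have h2 := (in_of hq hq7).e7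
  rcases odd4 hq with h4 | h4
  · rw [h1, ((vp_spec hq).2.2.2 hq7).1 h4, h2, lg_neg_one]
    unfold uu
    rw [if_neg (by omega), add_zero]
  · rw [h1, ((vp_spec hq).2.2.2 hq7).2 h4, e7_neg, h2, neg_neg, lg_one]
    unfold uu
    rw [if_pos h4]
    decide

theorem e7_vp {p : ℕ} (hp : Pr p) : vp p ∉ sp fR := fun h =>
  (vp_spec hp).1.prm.cop7 (mem_sp'.1 h)

/-- (g) -/
theorem ss_wp {p : ℕ} (hp : Pr p) (hp7 : m7 p = 1) : ss (wp p) = ss (vp p) + uu p := by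
  have h1 : ss (wp p) = lg (e7 (cj (nb (vp p)))) := rfl
  rw [h1, e7_cj, lg_e7_nb (e7_vp hp), tp_tt (vp_spec hp).1, tt_vp hp hp7, add_comm]
  rfl

theorem two_cop {p : ℕ} (hp : Pr p) : ((2 : ℤ)).gcd p = 1 := by
  rw [← Int.isCoprime_iff_gcd_eq_one]
  exact_mod_cast Nat.isCoprime_iff_coprime.2 ((Nat.coprime_primes Nat.prime_two hp.1).2
    (Ne.symm hp.2.1))

/-- the symbol of the second coordinate -/
theorem qch_cY {p : ℕ} (hp : Pr p) (hp7 : m7 p = 1) : qch p (-cY (vp p)) = 1 := by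
  obtain ⟨hv, -, hn, -⟩ := vp_spec hp
  have hn := hn hp7
  have hpo : Odd p := hp.1.odd_of_ne_two hp.2.1
  have e0 : (-cY (vp p)) = -1 * cY (vp p) := by ring
  unfold qch
  rw [e0, jacobiSym.mul_left, jacobiSym.at_neg_one hpo]
  rcases hv.pn.cases with h1 | ⟨p', A, B, h1, hAB⟩
  · obtain ⟨x, y, hx, hy⟩ := coord4 h1.m4
    have hpe : (p : ℤ) = (1 + 4 * x + 2 * y) ^ 2 + 7 * (2 * y) ^ 2 := by
      rw [← hn]
      unfold nR
      rw [hx, hy]
      ring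
    have hy0 : (2 * y : ℤ) ≠ 0 := by
      intro h0
      have h2 : y = 0 := by omega
      rw [h2] at hpe
      have h3 := cop_of_norm hp.1 (a := 1 + 4 * x) (b := 0) (by rw [hpe]; ring)
      rw [isCoprime_zero_right] at h3
      rcases Int.isUnit_iff.1 h3 with h4 | h4
      · rw [h4] at hpe
        have : (p : ℤ) = 1 := by rw [hpe]; ring
        exact hp.1.one_lt.ne' (by exact_mod_cast this)
      · rw [h4] at hpe
        have : (p : ℤ) = 1 := by rw [hpe]; ring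
        exact hp.1.one_lt.ne' (by exact_mod_cast this)
    have hj := jac_even (A := 1 + 4 * x + 2 * y) (B := 2 * y) (N := p) (by omega) (by omega) hy0
      (cop_of_norm hp.1 hpe) hpe
    have e1 : cY (vp p) = 2 * (2 * y) := by rw [hy]; ring
    have h8 : (p : ℤ) % 8 = if (2 * y) % 4 = 0 then 1 else 5 := by
      have ha := Pool.Agent.Y919.SG.sq8 (t := 1 + 4 * x + 2 * y) (by omega)
      split_ifs with h2
      · obtain ⟨z, hz⟩ : ∃ z, y = 2 * z := ⟨y / 2, by omega⟩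
        have : 7 * (2 * y) ^ 2 = 8 * (14 * z ^ 2) := by rw [hz]; ring
        omega
      · obtain ⟨z, hz⟩ : ∃ z, y = 2 * z + 1 := ⟨y / 2, by omega⟩
        have : 7 * (2 * y) ^ 2 = 28 + 8 * (14 * (z ^ 2 + z)) := by rw [hz]; ring
        omega
    have h4 : p % 4 = 1 := by
      split_ifs at h8 <;> omega
    rw [e1, jacobiSym.mul_left, hj, ZMod.χ₄_nat_one_mod_four h4, jacobiSym.at_two hpo,
      ZMod.χ₈_nat_eq_if_mod_eight]
    by_cases h2 : (2 * y) % 4 = 0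
    · rw [if_pos h2] at h8 ⊢
      rw [if_neg (by omega), if_pos (by omega)]
      norm_num
    · rw [if_neg h2] at h8 ⊢
      rw [if_neg (by omega), if_neg (by omega)]
      norm_num
  · have hpp : p' = p := by
      have := h1.nR
      rw [hn] at this
      exact_mod_cast this.symm
    subst hpp
    have hpe := h1.eqn
    have hj := jac_odd h1.hB (cop_of_norm h1.pr hpe) hpe h1.m4
    have hA := h1.hA
    have hB := h1.hB
    have h8 : (p' : ℤ) % 8 = if A % 4 = 0 then 7 else 3 := by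
      have ha := Pool.Agent.Y919.SG.sq8 hB
      split_ifs with h2
      · obtain ⟨z, hz⟩ : ∃ z, A = 4 * z := ⟨A / 4, by omega⟩
        have : A ^ 2 = 8 * (2 * z ^ 2) := by rw [hz]; ring
        omega
      · obtain ⟨z, hz⟩ : ∃ z, A = 4 * z + 2 := ⟨A / 4, by omega⟩
        have : A ^ 2 = 4 + 8 * (2 * z ^ 2 + 2 * z) := by rw [hz]; ring
        omega
    rw [h1.hY, jacobiSym.mul_left, hj, ZMod.χ₄_nat_three_mod_four h1.m4, jacobiSym.at_two hpo,
      ZMod.χ₈_nat_eq_if_mod_eight]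
    unfold sg4
    by_cases h2 : A % 4 = 0
    · rw [if_pos h2] at h8
      rw [if_neg (by omega), if_pos (by omega), if_neg (by omega)]
      norm_num
    · rw [if_neg h2] at h8
      rw [if_neg (by omega), if_neg (by omega), if_pos (by omega)]
      norm_num

/-- (e), (f) -/
theorem sy_cjv {p : ℕ} (hp : Pr p) (hp7 : m7 p = 1) : sy (vp p) (cj (vp p)) = e7 (vp p) := by
  obtain ⟨hv, -, hn, -⟩ := vp_spec hp
  have hn := hn hp7
  have e1 : cj (vp p) - ((-cY (vp p) : ℤ) : RR) * fR = vp p := by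
    have h1 : cj (vp p) = (cX (vp p) : RR) + (cY (vp p) : RR) * (1 - aR) := rfl
    have h2 := Pool.Agent.Y279.SG.dec (vp p)
    conv_rhs => rw [h2]
    rw [h1]
    unfold fR
    push_cast
    ring
  have h1 : sy (vp p) (cj (vp p)) = sy (vp p) (((-cY (vp p) : ℤ) : RR) * fR) :=
    sy_per' ⟨1, by rw [mul_one]; exact e1⟩
  have h7 : fR ∉ sp (vp p) := by
    intro h
    have h2 := nR_dvd h
    rw [hn, nR_fR] at h2
    have h3 : p ∣ 7 := by exact_mod_cast h2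
    exact hp.2.2 ((Nat.prime_dvd_prime_iff_eq hp.1 (by norm_num)).1 h3)
  have h2 : sy (vp p) fR = e7 (vp p) := by
    have h3 := Pn.seven hv.pn (e7_vp hp) h7
    have h4 : sy (vp p) fR = 1 ∨ sy (vp p) fR = -1 := sy_pm fun h => h7 (mem_sp'.2 h)
    have h5 := Pool.Agent.R426.QD.e7_sgn (e7_vp hp)
    rcases h4 with h4 | h4 <;> rcases h5 with h5 | h5 <;> rw [h4, h5] at h3 ⊢
    · rw [lg_one, lg_neg_one] at h3
      exact absurd h3 (by decide)
    · rw [lg_one, lg_neg_one] at h3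
      exact absurd h3 (by decide)
  rw [h1, sy_mul' hv, sy_int hp.1 hn, qch_cY hp hp7, one_mul, h2]

theorem cs_wvs {p : ℕ} (hp : Pr p) (hp7 : m7 p = 1) : cs (wp p) (vp p) = ss (vp p) := by
  have h3 : sy (wp p) (vp p) = sy (cj (nb (vp p))) (cj (cj (vp p))) := by
    rw [cj_cj]
    rfl
  have h4 : sy (wp p) (vp p) = e7 (vp p) := by
    rw [h3, sy_cj, sy_nb, sy_cjv hp hp7]
  exact congrArg lg h4

theorem cs_vws {p : ℕ} (hp : Pr p) (hp7 : m7 p = 1) : cs (vp p) (wp p) = ss (vp p) + uu p := by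
  have h1 := recP (vp p) (wp p) (vp_spec hp).1 (wp_pq hp) (vp_ne_wp hp hp hp7)
  have h2 : tt (wp p) = uu p := by
    have h3 : nrm (wp p) = p := by
      have := nR_wp hp hp7
      rw [← nrm_cast] at this
      exact_mod_cast this
    unfold tt uu
    rw [h3]
  rw [cs_wvs hp hp7, tt_vp hp hp7, h2, z2_mul] at h1
  have h8 : ∀ a s u : ZMod 2, a + s = u → a = s + u := by decide
  exact h8 _ _ _ h1

end Pool.Agent.N973.NT
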