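import Pool.Agent.N973.ND.LA0

/-!
# The probability that the kernel is not zero
-/

set_option autoImplicit false
set_option linter.unusedSectionVars false

open scoped Classical

namespace Pool.Agent.N973.ND

open Finset

section sx

variable {J : Type} [Fintype J] [LinearOrder J] {J1 : Finset J}

theorem sx_add (σ τ : sl J1 → ZMod 2) (c : Bool) (k l : J) :
    sx (σ + τ) c k l = sx σ c k l + sx τ c k l := by
  unfold sx
  split_ifs
  · rfl
  · rfl
  · rw [add_zero]

theorem sx_smul (a : ZMod 2) (σ : sl J1 → ZMod 2) (c : Bool) (k l : J) :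
    sx (a • σ) c k l = a * sx σ c k l := by
  unfold sx
  split_ifs
  · rfl
  · rfl
  · rw [mul_zero]

theorem sl_lt {k l : J} {c : Bool} (h : ((k, l), c) ∈ sl J1) : k < l := by
  unfold sl at h
  exact (mem_filter.1 h).2.1

theorem sx_symm (σ : sl J1 → ZMod 2) (c : Bool) (k l : J) : sx σ c k l = sx σ c l k := by
  unfold sx
  by_cases h : ((k, l), c) ∈ sl J1
  · have h' : ((l, k), c) ∉ sl J1 := fun h' => lt_asymm (sl_lt h) (sl_lt h')
    rw [dif_pos h, dif_neg h', dif_pos h]
  · rw [dif_neg h]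
    by_cases h' : ((l, k), c) ∈ sl J1
    · rw [dif_pos h', dif_pos h']
    · rw [dif_neg h', dif_neg h', dif_neg h]

theorem sx_self (σ : sl J1 → ZMod 2) (c : Bool) (k : J) : sx σ c k k = 0 := by
  unfold sx
  have h : ((k, k), c) ∉ sl J1 := fun h => lt_irrefl _ (sl_lt h)
  rw [dif_neg h, dif_neg h]

/-- one slot -/
theorem sx_single {p q : J} {c : Bool} (h : ((p, q), c) ∈ sl J1) (k l : J) :
    sx (Pi.single (⟨((p, q), c), h⟩ : sl J1) (1 : ZMod 2)) c k l =
      (if k = p ∧ l = q then 1 else 0) + (if k = q ∧ l = p then 1 else 0) := by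
  have hpq := sl_lt h
  unfold sx
  by_cases h1 : ((k, l), c) ∈ sl J1
  · rw [dif_pos h1]
    have hkl := sl_lt h1
    have h2 : ¬ (k = q ∧ l = p) := by
      rintro ⟨rfl, rfl⟩
      exact lt_asymm hkl hpq
    rw [if_neg h2, add_zero]
    by_cases h3 : k = p ∧ l = q
    · rw [if_pos h3]
      obtain ⟨rfl, rfl⟩ := h3
      exact Pi.single_eq_same _ _
    · rw [if_neg h3]
      refine Pi.single_eq_of_ne ?_ _
      intro h4
      have h5 := congrArg Subtype.val h4
      simp only [Prod.mk.injEq] at h5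
      exact h3 ⟨h5.1.1, h5.1.2⟩
  · rw [dif_neg h1]
    have h3 : ¬ (k = p ∧ l = q) := by
      rintro ⟨rfl, rfl⟩
      exact h1 h
    rw [if_neg h3, zero_add]
    by_cases h2 : ((l, k), c) ∈ sl J1
    · rw [dif_pos h2]
      by_cases h4 : k = q ∧ l = p
      · rw [if_pos h4]
        obtain ⟨rfl, rfl⟩ := h4
        exact Pi.single_eq_same _ _
      · rw [if_neg h4]
        refine Pi.single_eq_of_ne ?_ _
        intro h5
        have h6 := congrArg Subtype.val h5
        simp only [Prod.mk.injEq] at h6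
        exact h4 ⟨h6.1.2, h6.1.1⟩
    · rw [dif_neg h2]
      have h4 : ¬ (k = q ∧ l = p) := by
        rintro ⟨rfl, rfl⟩
        exact h2 h
      rw [if_neg h4]

/-- a sum with one slot -/
theorem sum_single {p q : J} {c : Bool} (h : ((p, q), c) ∈ sl J1) (F : J → J → ZMod 2) :
    ∑ k, ∑ l, F k l * sx (Pi.single (⟨((p, q), c), h⟩ : sl J1) (1 : ZMod 2)) c k l =
      F p q + F q p := by
  have h1 : ∀ k l, F k l * sx (Pi.single (⟨((p, q), c), h⟩ : sl J1) (1 : ZMod 2)) c k l =
      (if k = p ∧ l = q then F k l else 0) + (if k = q ∧ l = p then F k l else 0) := by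
    intro k l
    rw [sx_single h, mul_add]
    split_ifs <;> ring
  simp only [h1, sum_add_distrib]
  congr 1
  · rw [sum_eq_single p, sum_eq_single q]
    · rw [if_pos ⟨rfl, rfl⟩]
    · intro l _ hl
      rw [if_neg fun h => hl h.2]
    · intro h; exact absurd (mem_univ _) h
    · intro k _ hk
      exact sum_eq_zero fun l _ => by rw [if_neg fun h => hk h.1]
    · intro h; exact absurd (mem_univ _) h
  · rw [sum_eq_single q, sum_eq_single p]
    · rw [if_pos ⟨rfl, rfl⟩]
    · intro l _ hl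
      rw [if_neg fun h => hl h.2]
    · intro h; exact absurd (mem_univ _) h
    · intro k _ hk
      exact sum_eq_zero fun l _ => by rw [if_neg fun h => hk h.1]
    · intro h; exact absurd (mem_univ _) h

end sx

section

variable {U J : Type} [Fintype U] [Fintype J] [LinearOrder J]

/-- the hypotheses of ND-LA -/
structure Hyp (J1 : Finset J) (Sp Pc : Finset (U ⊕ J)) (u : U ⊕ J → ZMod 2)
    (N E : U ⊕ J → U ⊕ J → ZMod 2) (m : ℕ) : Prop where
  sp : ∀ k, Sum.inr k ∈ Sp ↔ k ∈ J1
  pc : ∀ i, i ∈ Pc ↔ ((i ∈ Sp ∧ u i = 0) ∨ (i ∉ Sp ∧ u i = 1))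
  n0 : ∀ i, N i i = 0
  rc : ∀ i j, i ≠ j → N j i = N i j + u i * u j
  e0 : ∀ i, E i i = 0
  es : ∀ i ∈ Sp, ∀ j ∈ Sp, E i j = E j i
  nd : ∀ w : U → ZMod 2, (∃ v, w v ≠ 0) → ∃ k ∈ J1, u (Sum.inr k) = 0 ∧
    ∑ v, w v * N (Sum.inl v) (Sum.inr k) ≠ 0
  ine : ∃ k, k ∉ J1 ∧ u (Sum.inr k) = 0
  card : Sp.card = Pc.card + 2 * m

/-- the row of the matrix -/
def rw' {V : Type} [Fintype V] (N : V → V → ZMod 2) (b : V → ZMod 2) (x : V → ZMod 2) (i : V) :
    ZMod 2 := ∑ j, N i j * x j + TT N b i * x i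

theorem rw_eq {V : Type} [Fintype V] (N : V → V → ZMod 2) (b : V → ZMod 2) (x : V → ZMod 2) (i : V) :
    rw' N b x i = ∑ j, N i j * (x j + x i) + b i * x i := by
  unfold rw' TT
  rw [add_mul, sum_mul]
  have : ∀ j, N i j * (x j + x i) = N i j * x j + N i j * x i := fun j => by ring
  simp only [this, sum_add_distrib]
  ring

theorem row_inl (N : U ⊕ J → U ⊕ J → ZMod 2) (δ : J → J → ZMod 2) (b : U ⊕ J → ZMod 2)
    (x : U ⊕ J → ZMod 2) (v : U) : rw' (pt N δ) b x (Sum.inl v) = rw' N b x (Sum.inl v) := by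
  rw [rw_eq, rw_eq]
  congr 1

theorem row_inr (N : U ⊕ J → U ⊕ J → ZMod 2) (δ : J → J → ZMod 2) (b : U ⊕ J → ZMod 2)
    (x : U ⊕ J → ZMod 2) (k : J) : rw' (pt N δ) b x (Sum.inr k) = rw' N b x (Sum.inr k) +
      ∑ l, δ k l * (x (Sum.inr l) + x (Sum.inr k)) := by
  rw [rw_eq, rw_eq, Fintype.sum_sum_type, Fintype.sum_sum_type]
  have e1 : ∀ v : U, pt N δ (Sum.inr k) (Sum.inl v) = N (Sum.inr k) (Sum.inl v) := fun _ => rfl
  have e2 : ∀ l : J, pt N δ (Sum.inr k) (Sum.inr l) = N (Sum.inr k) (Sum.inr l) + δ k l :=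
    fun _ => rfl
  simp only [e1, e2, add_mul, sum_add_distrib]
  ring

variable {J1 : Finset J} {Sp Pc : Finset (U ⊕ J)} {u : U ⊕ J → ZMod 2}
  {N E : U ⊕ J → U ⊕ J → ZMod 2} {m : ℕ}

/-- the number of the completions with a given vector in the kernel -/
theorem card_x (H : Hyp J1 Sp Pc u N E m) (b : U ⊕ J → ZMod 2) {x : U ⊕ J → ZMod 2}
    (hx : ∀ j, j ∉ Pc → x j = 0) {l₀ : J} (hl : x (Sum.inr l₀) ≠ 0) :
    (univ.filter fun σ : sl J1 → ZMod 2 => ∀ k ∈ J1,
      rw' (pt N (sx σ false)) b x (Sum.inr k) = 0).card * 2 ^ J1.card = 2 ^ (sl J1).card := by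
  set L : (sl J1 → ZMod 2) →ₗ[ZMod 2] ({k // k ∈ J1} → ZMod 2) :=
    { toFun := fun σ k => ∑ l, (x (Sum.inr l) + x (Sum.inr k.1)) * sx σ false k.1 l
      map_add' := fun σ τ => by
        funext k
        simp only [Pi.add_apply, sx_add, mul_add, sum_add_distrib]
      map_smul' := fun a σ => by
        funext k
        simp only [Pi.smul_apply, sx_smul, RingHom.id_apply, smul_eq_mul, mul_sum]
        exact sum_congr rfl fun l _ => by ring } with hL
  have hind : ∀ a : {k // k ∈ J1} → ZMod 2, (∀ σ, ∑ ρ, a ρ * L σ ρ = 0) → ∀ ρ, a ρ = 0 := by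
    intro a ha
    set a' : J → ZMod 2 := fun k => if h : k ∈ J1 then a ⟨k, h⟩ else 0 with ha'
    have key : ∀ p q : J, p < q → (a' p + a' q) * (x (Sum.inr p) + x (Sum.inr q)) = 0 := by
      intro p q hpq
      have hsl : ((p, q), false) ∈ sl J1 := by
        unfold sl
        rw [mem_filter]
        exact ⟨mem_univ _, hpq, fun h => Bool.noConfusion h⟩
      have h1 := ha (Pi.single ⟨((p, q), false), hsl⟩ 1)
      have h2 := sum_single hsl (fun k l => a' k * (x (Sum.inr l) + x (Sum.inr k)))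
      have h3 : ∑ k, ∑ l, a' k * (x (Sum.inr l) + x (Sum.inr k)) *
          sx (Pi.single (⟨((p, q), false), hsl⟩ : sl J1) (1 : ZMod 2)) false k l = 0 := by
        rw [← h1, ← Finset.sum_subset (subset_univ J1)]
        · rw [← Finset.sum_coe_sort J1]
          refine sum_congr rfl fun k _ => ?_
          have h4 : a' (k : J) = a k := by
            simp only [ha']
            rw [dif_pos k.2]
          rw [h4]
          show _ = a k * ∑ l, _
          rw [mul_sum]
          exact sum_congr rfl fun l _ => by ring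
        · intro k _ hk
          have h4 : a' k = 0 := by
            simp only [ha']
            rw [dif_neg hk]
          exact sum_eq_zero fun l _ => by rw [h4, zero_mul, zero_mul]
      rw [h3] at h2
      linear_combination -h2
    have key2 : ∀ p q : J, (a' p + a' q) * (x (Sum.inr p) + x (Sum.inr q)) = 0 := by
      intro p q
      rcases lt_trichotomy p q with h | h | h
      · exact key p q h
      · rw [h, z2_add, zero_mul]
      · rw [add_comm (a' p), add_comm (x _)]
        exact key q p h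
    obtain ⟨k₀, hk₀, hu₀⟩ := H.ine
    have hx0 : x (Sum.inr k₀) = 0 := by
      apply hx
      rw [H.pc, H.sp]
      rintro (h | h)
      · exact hk₀ h.1
      · rw [hu₀] at h
        exact zero_ne_one h.2
    have ha0 : a' k₀ = 0 := by
      simp only [ha']
      rw [dif_neg hk₀]
    have h1 : ∀ p, a' p * x (Sum.inr p) = 0 := by
      intro p
      have := key2 p k₀
      rwa [ha0, hx0, add_zero, add_zero] at this
    have hl1 : x (Sum.inr l₀) = 1 := (z2_ne _).1 hl
    have hal : a' l₀ = 0 := by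
      have := h1 l₀
      rwa [hl1, mul_one] at this
    have h2 : ∀ p, a' p = 0 := by
      intro p
      rcases z2 (x (Sum.inr p)) with h | h
      · have := key2 p l₀
        rwa [hal, h, hl1, add_zero, zero_add, mul_one] at this
      · have := h1 p
        rwa [h, mul_one] at this
    intro k
    have := h2 k
    simp only [ha'] at this
    rwa [dif_pos k.2] at this
  have h1 := card_fib L hind (fun k => rw' N b x (Sum.inr k.1))
  rw [Fintype.card_coe, Fintype.card_fun, ZMod.card, Fintype.card_coe] at h1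
  rw [← h1]
  congr 2
  refine filter_congr fun σ _ => ?_
  constructor
  · intro h
    funext k
    have h2 := h k.1 k.2
    rw [row_inr] at h2
    have h3 : ∀ a b : ZMod 2, a + b = 0 → b = a := by decide
    have h4 := h3 _ _ h2
    rw [← h4]
    show ∑ l, _ = _
    exact sum_congr rfl fun l _ => by ring
  · intro h k hk
    have h2 := congrFun h ⟨k, hk⟩
    rw [row_inr, ← h2]
    show ∑ l, _ + _ = _
    rw [← sum_add_distrib]
    refine sum_eq_zero fun l _ => ?_
    rw [mul_comm, z2_add]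

/-- the extension by zero -/
noncomputable def ex {V : Type} {P : Finset V} (x : {j // j ∈ P} → ZMod 2) (j : V) : ZMod 2 :=
  if h : j ∈ P then x ⟨j, h⟩ else 0

theorem ex_add {V : Type} {P : Finset V} (x y : {j // j ∈ P} → ZMod 2) (j : V) :
    ex (x + y) j = ex x j + ex y j := by
  unfold ex
  split_ifs
  · rfl
  · rw [add_zero]

theorem ex_smul {V : Type} {P : Finset V} (a : ZMod 2) (x : {j // j ∈ P} → ZMod 2) (j : V) :
    ex (a • x) j = a * ex x j := by
  unfold ex
  split_ifs
  · rfl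
  · rw [mul_zero]

theorem ex_res {V : Type} {P : Finset V} {x : V → ZMod 2} (h : ∀ j, j ∉ P → x j = 0) :
    ex (fun j : {j // j ∈ P} => x j) = x := by
  funext j
  unfold ex
  split_ifs with h1
  · rfl
  · exact (h j h1).symm

theorem ex_single {V : Type} {P : Finset V} [DecidableEq {j // j ∈ P}] (j : {j // j ∈ P}) (l : V) :
    ex (Pi.single j (1 : ZMod 2)) l = if l = j.1 then 1 else 0 := by
  unfold ex
  by_cases h : l ∈ P
  · rw [dif_pos h]
    by_cases h2 : l = j.1
    · subst h2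
      rw [if_pos rfl]
      exact Pi.single_eq_same _ _
    · rw [if_neg h2]
      exact Pi.single_eq_of_ne (fun h3 => h2 (congrArg Subtype.val h3)) _
  · rw [dif_neg h, if_neg]
    rintro rfl
    exact h j.2

theorem rw_add {V : Type} [Fintype V] (N : V → V → ZMod 2) (b : V → ZMod 2) (x y : V → ZMod 2)
    (i : V) : rw' N b (x + y) i = rw' N b x i + rw' N b y i := by
  unfold rw'
  simp only [Pi.add_apply, mul_add, sum_add_distrib]
  ring

theorem rw_smul {V : Type} [Fintype V] (N : V → V → ZMod 2) (b : V → ZMod 2) (a : ZMod 2)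
    (x : V → ZMod 2) (i : V) : rw' N b (a • x) i = a * rw' N b x i := by
  unfold rw'
  simp only [Pi.smul_apply, smul_eq_mul, mul_add, mul_sum]
  congr 1
  · exact sum_congr rfl fun j _ => by ring
  · ring

/-- the number of the vectors with zero rows at the small primes -/
theorem card_U (H : Hyp J1 Sp Pc u N E m) (b : U ⊕ J → ZMod 2) :
    (univ.filter fun x : U ⊕ J → ZMod 2 => (∀ j, j ∉ Pc → x j = 0) ∧
      ∀ v : U, Sum.inl v ∈ Sp → rw' N b x (Sum.inl v) = 0).card *
      2 ^ (univ.filter fun v : U => Sum.inl v ∈ Sp).card ≤ 2 ^ Pc.card := by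
  set SU := univ.filter fun v : U => Sum.inl v ∈ Sp with hSU
  set L : ({j // j ∈ Pc} → ZMod 2) →ₗ[ZMod 2] ({v // v ∈ SU} → ZMod 2) :=
    { toFun := fun x v => rw' N b (ex x) (Sum.inl v.1)
      map_add' := fun x y => by
        funext v
        have e : ex (x + y) = ex x + ex y := funext (ex_add x y)
        rw [e, rw_add]
        rfl
      map_smul' := fun a x => by
        funext v
        have e : ex (a • x) = a • ex x := funext (ex_smul a x)
        rw [e, rw_smul]
        rfl } with hL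
  have hind : ∀ a : {v // v ∈ SU} → ZMod 2, (∀ x, ∑ ρ, a ρ * L x ρ = 0) → ∀ ρ, a ρ = 0 := by
    intro a ha
    by_contra hc
    push Not at hc
    obtain ⟨ρ, hρ⟩ := hc
    obtain ⟨k, hk, huk, hne⟩ := H.nd (fun v => if h : v ∈ SU then a ⟨v, h⟩ else 0)
      ⟨ρ.1, by rw [dif_pos ρ.2]; exact hρ⟩
    have hkP : Sum.inr k ∈ Pc := by
      rw [H.pc, H.sp]
      exact Or.inl ⟨hk, huk⟩
    apply hne
    have h1 := ha (Pi.single ⟨Sum.inr k, hkP⟩ 1)
    have h2 : ∀ v : {v // v ∈ SU}, L (Pi.single ⟨Sum.inr k, hkP⟩ 1) v =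
        N (Sum.inl v.1) (Sum.inr k) := by
      intro v
      show rw' N b (ex (Pi.single ⟨Sum.inr k, hkP⟩ 1)) (Sum.inl v.1) = _
      unfold rw'
      rw [ex_single, if_neg (by simp), mul_zero, add_zero, sum_eq_single (Sum.inr k)]
      · rw [ex_single, if_pos rfl, mul_one]
      · intro j _ hj
        rw [ex_single, if_neg hj, mul_zero]
      · intro h; exact absurd (mem_univ _) h
    refine Eq.trans ?_ h1
    rw [← Finset.sum_subset (subset_univ SU)]
    · rw [← Finset.sum_coe_sort SU]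
      refine sum_congr rfl fun v _ => ?_
      rw [h2 v, dif_pos v.2]
    · intro v _ hv
      rw [dif_neg hv, zero_mul]
  have h1 := card_fib L hind 0
  rw [Fintype.card_coe, Fintype.card_fun, ZMod.card, Fintype.card_coe] at h1
  rw [← h1]
  refine Nat.mul_le_mul_right _ ?_
  apply card_le_card_of_injOn (fun x (j : {j // j ∈ Pc}) => x j)
  · intro x hx
    rw [mem_coe, mem_filter] at hx
    rw [mem_coe, mem_filter]
    refine ⟨mem_univ _, ?_⟩
    funext v
    show rw' N b (ex fun j : {j // j ∈ Pc} => x j) (Sum.inl v.1) = 0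
    rw [ex_res hx.2.1]
    exact hx.2.2 _ (mem_filter.1 v.2).2
  · intro x hx y hy h
    rw [mem_coe, mem_filter] at hx hy
    rw [← ex_res hx.2.1, ← ex_res hy.2.1]
    exact congrArg ex h

theorem card_Sp (H : Hyp J1 Sp Pc u N E m) :
    (univ.filter fun v : U => Sum.inl v ∈ Sp).card + J1.card = Sp.card := by
  have h1 : Sp = (univ.filter fun v : U => Sum.inl v ∈ Sp).map ⟨Sum.inl, Sum.inl_injective⟩ ∪
      J1.map ⟨Sum.inr, Sum.inr_injective⟩ := by
    ext i
    simp only [mem_union, mem_map, mem_filter, mem_univ, true_and, Function.Embedding.coeFn_mk]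
    constructor
    · intro h
      cases i with
      | inl v => exact Or.inl ⟨v, h, rfl⟩
      | inr k => exact Or.inr ⟨k, (H.sp k).1 h, rfl⟩
    · rintro (⟨v, h, rfl⟩ | ⟨k, h, rfl⟩)
      · exact h
      · exact (H.sp k).2 h
  have h2 : Disjoint ((univ.filter fun v : U => Sum.inl v ∈ Sp).map
      ⟨(Sum.inl : U → U ⊕ J), Sum.inl_injective⟩)
      (J1.map ⟨(Sum.inr : J → U ⊕ J), Sum.inr_injective⟩) := by
    rw [disjoint_left]
    intro i hi hi'
    simp only [mem_map, Function.Embedding.coeFn_mk] at hi hi'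
    obtain ⟨v, -, rfl⟩ := hi
    obtain ⟨k, -, h⟩ := hi'
    exact absurd h (by simp)
  conv_rhs => rw [h1]
  rw [card_union_of_disjoint h2, card_map, card_map]

/-- **few completions have a kernel** -/
theorem card_W (H : Hyp J1 Sp Pc u N E m) (b : U ⊕ J → ZMod 2) :
    (univ.filter fun σ : sl J1 → ZMod 2 =>
      ¬ ∀ x, Wk Sp Pc (pt N (sx σ false)) b x → ∀ j, x j = 0).card * 4 ^ m ≤ 2 ^ (sl J1).card := by
  set XU := univ.filter fun x : U ⊕ J → ZMod 2 => (∀ j, j ∉ Pc → x j = 0) ∧
      ∀ v : U, Sum.inl v ∈ Sp → rw' N b x (Sum.inl v) = 0 with hXU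
  set XJ := XU.filter fun x => ∃ l, x (Sum.inr l) ≠ 0 with hXJ
  have h1 : (univ.filter fun σ : sl J1 → ZMod 2 =>
      ¬ ∀ x, Wk Sp Pc (pt N (sx σ false)) b x → ∀ j, x j = 0) ⊆
      XJ.biUnion fun x => univ.filter fun σ : sl J1 → ZMod 2 => ∀ k ∈ J1,
        rw' (pt N (sx σ false)) b x (Sum.inr k) = 0 := by
    intro σ hσ
    rw [mem_filter] at hσ
    obtain ⟨-, hσ⟩ := hσ
    push Not at hσ
    obtain ⟨x, hx, j, hj⟩ := hσ
    have hrow : ∀ i ∈ Sp, rw' (pt N (sx σ false)) b x i = 0 := hx.2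
    have hxJ : ∃ l, x (Sum.inr l) ≠ 0 := by
      by_contra hc
      push Not at hc
      have hjU : ∃ v, x (Sum.inl v) ≠ 0 := by
        cases j with
        | inl v => exact ⟨v, hj⟩
        | inr k => exact absurd (hc k) hj
      obtain ⟨k, hk, huk, hne⟩ := H.nd (fun v => x (Sum.inl v)) hjU
      apply hne
      have h2 := hrow (Sum.inr k) ((H.sp k).2 hk)
      rw [row_inr] at h2
      have h3 : ∑ l, sx σ false k l * (x (Sum.inr l) + x (Sum.inr k)) = 0 :=
        sum_eq_zero fun l _ => by rw [hc, hc, add_zero, mul_zero]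
      rw [h3, add_zero] at h2
      unfold rw' at h2
      rw [hc k, mul_zero, add_zero, Fintype.sum_sum_type] at h2
      have h4 : ∑ l, N (Sum.inr k) (Sum.inr l) * x (Sum.inr l) = 0 :=
        sum_eq_zero fun l _ => by rw [hc, mul_zero]
      rw [h4, add_zero] at h2
      rw [← h2]
      refine sum_congr rfl fun v _ => ?_
      rw [H.rc (Sum.inl v) (Sum.inr k) (by simp), huk, mul_zero, add_zero, mul_comm]
    rw [mem_biUnion]
    refine ⟨x, ?_, ?_⟩
    · rw [hXJ, mem_filter, hXU, mem_filter]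
      refine ⟨⟨mem_univ _, hx.1, fun v hv => ?_⟩, hxJ⟩
      rw [← row_inl N (sx σ false)]
      exact hrow _ hv
    · rw [mem_filter]
      exact ⟨mem_univ _, fun k hk => hrow _ ((H.sp k).2 hk)⟩
  have h2 := (card_le_card h1).trans card_biUnion_le
  have h3 : ∀ x ∈ XJ, (univ.filter fun σ : sl J1 → ZMod 2 => ∀ k ∈ J1,
        rw' (pt N (sx σ false)) b x (Sum.inr k) = 0).card * 2 ^ J1.card = 2 ^ (sl J1).card := by
    intro x hx
    rw [hXJ, mem_filter, hXU, mem_filter] at hx
    obtain ⟨⟨-, hx1, -⟩, l, hl⟩ := hx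
    exact card_x H b hx1 hl
  have h4 : (univ.filter fun σ : sl J1 → ZMod 2 =>
      ¬ ∀ x, Wk Sp Pc (pt N (sx σ false)) b x → ∀ j, x j = 0).card * 2 ^ J1.card ≤
      XJ.card * 2 ^ (sl J1).card := by
    refine (Nat.mul_le_mul_right _ h2).trans ?_
    rw [sum_mul, sum_congr rfl h3, sum_const, smul_eq_mul]
  have h5 : XJ.card ≤ XU.card := card_le_card (filter_subset _ _)
  have h6 := card_U H b
  have h7 := card_Sp H
  have h8 := H.card
  set a := (univ.filter fun σ : sl J1 → ZMod 2 =>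
      ¬ ∀ x, Wk Sp Pc (pt N (sx σ false)) b x → ∀ j, x j = 0).card
  set s := (univ.filter fun v : U => Sum.inl v ∈ Sp).card
  have h9 : a * 2 ^ J1.card * 2 ^ s ≤ 2 ^ (sl J1).card * 2 ^ Pc.card := by
    calc a * 2 ^ J1.card * 2 ^ s ≤ XJ.card * 2 ^ (sl J1).card * 2 ^ s :=
          Nat.mul_le_mul_right _ h4
      _ ≤ XU.card * 2 ^ (sl J1).card * 2 ^ s := by gcongr
      _ = 2 ^ (sl J1).card * (XU.card * 2 ^ s) := by ring
      _ ≤ _ := Nat.mul_le_mul_left _ h6
  have h10 : (2 : ℕ) ^ J1.card * 2 ^ s = 4 ^ m * 2 ^ Pc.card := by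
    rw [← pow_add, show (4 : ℕ) = 2 ^ 2 by norm_num, ← pow_mul, ← pow_add]
    congr 1
    omega
  rw [mul_assoc, h10, ← mul_assoc] at h9
  exact Nat.le_of_mul_le_mul_right h9 (by positivity)

end

end Pool.Agent.N973.ND
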