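import Pool.Agent.N973.ND.Stm

/-!
# Linear algebra over the field with two elements: fibres, alternating matrices
-/

set_option autoImplicit false

open scoped Classical

namespace Pool.Agent.N973.ND

open Finset
open Pool.Agent.Y703.CQ (S_SYM)

theorem z2 (a : ZMod 2) : a = 0 ∨ a = 1 := by revert a; decide

theorem z2_add (a : ZMod 2) : a + a = 0 := by revert a; decide

theorem z2_mul (a : ZMod 2) : a * a = a := by revert a; decide

theorem z2_ne (a : ZMod 2) : a ≠ 0 ↔ a = 1 := by revert a; decide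

/-- the fibres of a linear map with independent coordinates -/
theorem card_fib {M R : Type} [AddCommGroup M] [Module (ZMod 2) M] [Fintype M] [Fintype R]
    (L : M →ₗ[ZMod 2] (R → ZMod 2))
    (h : ∀ a : R → ZMod 2, (∀ σ, ∑ ρ, a ρ * L σ ρ = 0) → ∀ ρ, a ρ = 0) (r : R → ZMod 2) :
    (univ.filter fun σ => L σ = r).card * 2 ^ Fintype.card R = Fintype.card M := by
  have hsurj : Function.Surjective L := by
    rw [← LinearMap.dualMap_injective_iff, injective_iff_map_eq_zero]
    intro φ hφ
    have h1 : ∀ v : R → ZMod 2, φ v = ∑ ρ, φ (Pi.single ρ 1) * v ρ := by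
      intro v
      conv_lhs => rw [← Finset.univ_sum_single v]
      rw [map_sum]
      refine sum_congr rfl fun ρ _ => ?_
      have h2 : (Pi.single ρ (v ρ) : R → ZMod 2) = v ρ • Pi.single ρ 1 := by
        rw [← Pi.single_smul, smul_eq_mul, mul_one]
      rw [h2, map_smul, smul_eq_mul, mul_comm]
    have h3 := h (fun ρ => φ (Pi.single ρ 1)) (fun σ => by
      rw [← h1]
      exact LinearMap.congr_fun hφ σ)
    refine LinearMap.ext fun v => ?_
    rw [h1 v]
    exact sum_eq_zero fun ρ _ => by rw [h3 ρ, zero_mul]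
  have h1 : ∀ r' : R → ZMod 2, (univ.filter fun σ => L σ = r').card =
      (univ.filter fun σ => L σ = r).card := fun r' =>
    AddMonoidHom.card_fiber_eq_of_mem_range L (hsurj r') (hsurj r)
  have h2 : Fintype.card M = ∑ r' : R → ZMod 2, (univ.filter fun σ => L σ = r').card := by
    rw [← card_univ]
    exact card_eq_sum_card_fiberwise fun _ _ => mem_coe.2 (mem_univ _)
  rw [h2, sum_congr rfl fun r' _ => h1 r', sum_const, card_univ, Fintype.card_fun, ZMod.card,
    smul_eq_mul, mul_comm]

/-- the determinant of an alternating matrix of odd size -/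
theorem det_alt {n : ℕ} (hn : Odd n) (M : Matrix (Fin n) (Fin n) (ZMod 2)) (hs : M.IsSymm)
    (h0 : ∀ i, M i i = 0) : M.det = 0 := by
  rw [Matrix.det_apply]
  have hfix : ∀ σ : Equiv.Perm (Fin n), σ⁻¹ = σ → ∃ i, σ i = i := by
    intro σ hσ
    obtain ⟨f, hf⟩ : ∃ f : Function.End (Fin n), ∀ i, f i = σ i := ⟨fun i => σ i, fun _ => rfl⟩
    have h1 : f ^ 2 ^ 1 = 1 := by
      have h2 : σ * σ = 1 := by nth_rewrite 1 [← hσ]; exact inv_mul_cancel σ
      funext i
      have h3 := Equiv.Perm.congr_fun h2 i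
      have h4 : (f ^ 2 ^ 1) i = f (f i) := rfl
      rw [h4, hf, hf]
      exact h3
    have h2 := Equiv.Perm.card_fixedPoints_modEq (p := 2) h1
    rw [Fintype.card_fin] at h2
    by_contra hc
    push Not at hc
    have h2 : n ≡ 0 [MOD 2] := by
      refine Nat.ModEq.trans h2 ?_
      have he : IsEmpty (Function.fixedPoints f) := ⟨fun x => hc x.1 ((hf x.1).symm.trans x.2)⟩
      have key : ∀ inst : Fintype (Function.fixedPoints f), @Fintype.card _ inst = 0 :=
        fun inst => Fintype.card_eq_zero_iff.2 he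
      exact congrArg (· % 2) (key _)
    have h4 := hn
    rw [Nat.odd_iff] at h4
    have h5 : n % 2 = 0 % 2 := h2
    omega
  refine Finset.sum_involution (fun σ _ => σ⁻¹) ?_ ?_ (fun _ _ => mem_univ _) fun σ _ => inv_inv σ
  · intro σ _
    have h1 : ∏ i, M (σ⁻¹ i) i = ∏ i, M (σ i) i := by
      rw [← Equiv.prod_comp σ (fun i => M (σ⁻¹ i) i)]
      refine prod_congr rfl fun i _ => ?_
      have h3 : σ⁻¹ (σ i) = i := σ.symm_apply_apply i
      rw [h3]
      exact hs.apply _ _
    rw [h1, Equiv.Perm.sign_inv, ← smul_add]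
    have h2 : ∏ i, M (σ i) i + ∏ i, M (σ i) i = 0 := z2_add _
    rw [h2, smul_zero]
  · intro σ _ h1 h2
    apply h1
    obtain ⟨i, hi⟩ := hfix σ h2
    rw [prod_eq_zero (mem_univ i) (by rw [hi]; exact h0 i), smul_zero]

/-- the alternating matrix attached to a symmetric matrix -/
def hat {n : ℕ} (S : Matrix (Fin n) (Fin n) (ZMod 2)) : Matrix (Fin (n + 1)) (Fin (n + 1)) (ZMod 2) :=
  Matrix.of fun i j => Fin.lastCases (motive := fun _ => ZMod 2)
    (Fin.lastCases (motive := fun _ => ZMod 2) 0 (fun j => S j j) j)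
    (fun i => Fin.lastCases (motive := fun _ => ZMod 2) (S i i) (fun j => S i j + S i i * S j j) j) i

theorem hat_ll {n : ℕ} (S : Matrix (Fin n) (Fin n) (ZMod 2)) :
    hat S (Fin.last n) (Fin.last n) = 0 := by simp [hat]

theorem hat_lc {n : ℕ} (S : Matrix (Fin n) (Fin n) (ZMod 2)) (j : Fin n) :
    hat S (Fin.last n) j.castSucc = S j j := by simp [hat]

theorem hat_cl {n : ℕ} (S : Matrix (Fin n) (Fin n) (ZMod 2)) (i : Fin n) :
    hat S i.castSucc (Fin.last n) = S i i := by simp [hat]

theorem hat_cc {n : ℕ} (S : Matrix (Fin n) (Fin n) (ZMod 2)) (i j : Fin n) :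
    hat S i.castSucc j.castSucc = S i j + S i i * S j j := by simp [hat]

theorem hat_symm {n : ℕ} {S : Matrix (Fin n) (Fin n) (ZMod 2)} (hs : S.IsSymm) :
    (hat S).IsSymm := by
  apply Matrix.IsSymm.ext
  intro i j
  refine Fin.lastCases ?_ (fun i => ?_) i <;> refine Fin.lastCases ?_ (fun j => ?_) j
  · rfl
  · rw [hat_cl, hat_lc]
  · rw [hat_cl, hat_lc]
  · rw [hat_cc, hat_cc, hs.apply, mul_comm]

theorem hat_diag {n : ℕ} (S : Matrix (Fin n) (Fin n) (ZMod 2)) (i : Fin (n + 1)) :
    hat S i i = 0 := by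
  refine Fin.lastCases ?_ (fun i => ?_) i
  · exact hat_ll S
  · rw [hat_cc, z2_mul, z2_add]

/-- the diagonal of a symmetric matrix -/
theorem diag_eq {n : ℕ} {S : Matrix (Fin n) (Fin n) (ZMod 2)} (hs : S.IsSymm) (v : Fin n → ZMod 2) :
    ∑ i, v i * S.mulVec v i = ∑ i, S i i * v i := by
  have h1 : ∑ i, v i * S.mulVec v i = ∑ p : Fin n × Fin n, v p.1 * S p.1 p.2 * v p.2 := by
    rw [Fintype.sum_prod_type]
    refine sum_congr rfl fun i _ => ?_
    unfold Matrix.mulVec dotProduct
    rw [mul_sum]
    exact sum_congr rfl fun j _ => by ring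
  rw [h1, ← sum_filter_add_sum_filter_not univ (fun p : Fin n × Fin n => p.1 = p.2)]
  have h2 : ∑ p ∈ univ.filter (fun p : Fin n × Fin n => ¬ p.1 = p.2), v p.1 * S p.1 p.2 * v p.2 =
      0 := by
    refine Finset.sum_involution (fun p _ => (p.2, p.1)) ?_ ?_ ?_ fun p _ => rfl
    · rintro ⟨i, j⟩ _
      simp only
      rw [hs.apply i j]
      have : v i * S i j * v j + v j * S i j * v i = v i * S i j * v j + v i * S i j * v j := by
        ring
      rw [this, z2_add]
    · rintro ⟨i, j⟩ hp _ h3
      rw [mem_filter] at hp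
      exact hp.2 (congrArg Prod.fst h3).symm
    · rintro ⟨i, j⟩ hp
      rw [mem_filter] at hp ⊢
      exact ⟨mem_univ _, fun h => hp.2 h.symm⟩
  rw [h2, add_zero]
  refine (Finset.sum_bij (fun (i : Fin n) _ => (i, i)) ?_ ?_ ?_ ?_).symm
  · intro i _
    rw [mem_filter]
    exact ⟨mem_univ _, rfl⟩
  · intro i _ j _ h
    exact congrArg Prod.fst h
  · rintro ⟨i, j⟩ hp
    rw [mem_filter] at hp
    have : i = j := hp.2
    subst this
    exact ⟨i, mem_univ _, rfl⟩
  · intro i _
    have := z2_mul (v i)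
    calc S i i * v i = S i i * (v i * v i) := by rw [this]
      _ = _ := by ring

/-- the two matrices are singular at the same time -/
theorem det_hat {n : ℕ} (hn : Odd n) {S : Matrix (Fin n) (Fin n) (ZMod 2)} (hs : S.IsSymm) :
    (hat S).det ≠ 0 ↔ S.det ≠ 0 := by
  have hmul : ∀ (x : Fin (n + 1) → ZMod 2), ((hat S).mulVec x (Fin.last n) =
      ∑ j, S j j * x j.castSucc) ∧ ∀ i : Fin n, (hat S).mulVec x i.castSucc =
        S.mulVec (fun j => x j.castSucc) i + S i i * (∑ j, S j j * x j.castSucc) +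
          S i i * x (Fin.last n) := by
    intro x
    constructor
    · show ∑ j, hat S (Fin.last n) j * x j = _
      rw [Fin.sum_univ_castSucc, hat_ll, zero_mul, add_zero]
      exact sum_congr rfl fun j _ => by rw [hat_lc]
    · intro i
      show ∑ j, hat S i.castSucc j * x j = ∑ j, S i j * x j.castSucc + _ + _
      rw [Fin.sum_univ_castSucc, hat_cl, mul_sum, ← sum_add_distrib]
      congr 1
      exact sum_congr rfl fun j _ => by rw [hat_cc]; ring
  rw [not_iff_not, ← Matrix.exists_mulVec_eq_zero_iff, ← Matrix.exists_mulVec_eq_zero_iff]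
  constructor
  · rintro ⟨x, hx, hx0⟩
    by_contra hS
    rw [Matrix.exists_mulVec_eq_zero_iff] at hS
    obtain ⟨h1, h2⟩ := hmul x
    rw [hx0] at h1
    have h3 : ∀ i : Fin n, S.mulVec (fun j => x j.castSucc) i = S i i * x (Fin.last n) := by
      intro i
      have h4 := h2 i
      rw [hx0, ← h1] at h4
      have h5 : (0 : Fin (n + 1) → ZMod 2) i.castSucc = 0 := rfl
      have h6 : (0 : Fin (n + 1) → ZMod 2) (Fin.last n) = 0 := rfl
      rw [h5, h6, mul_zero, add_zero] at h4
      have h7 : ∀ a b : ZMod 2, 0 = a + b → a = b := by decide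
      exact h7 _ _ h4
    have h1' : ∑ j, S j j * x j.castSucc = 0 := h1.symm
    rcases z2 (x (Fin.last n)) with h5 | h5
    · have h6 : S.mulVec (fun j => x j.castSucc) = 0 := by
        funext i
        rw [h3 i, h5, mul_zero]
        rfl
      have h7 : ¬ (fun j : Fin n => x j.castSucc) = 0 := by
        intro h8
        apply hx
        funext i
        refine Fin.lastCases ?_ (fun i => ?_) i
        · exact h5
        · exact congrFun h8 i
      exact hS (Matrix.exists_mulVec_eq_zero_iff.1 ⟨_, h7, h6⟩)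
    · -- the matrix `S + d dᵀ` is alternating of odd size
      set M : Matrix (Fin n) (Fin n) (ZMod 2) := Matrix.of fun i j => S i j + S i i * S j j with hM
      have hM0 := det_alt hn M (by
        apply Matrix.IsSymm.ext
        intro i j
        simp only [hM, Matrix.of_apply]
        rw [hs.apply, mul_comm]) (by
        intro i
        simp only [hM, Matrix.of_apply]
        rw [z2_mul, z2_add])
      obtain ⟨v, hv, hv0⟩ := Matrix.exists_mulVec_eq_zero_iff.2 hM0
      have h6 : ∀ i, S.mulVec v i = S i i * ∑ j, S j j * v j := by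
        intro i
        have h7 := congrFun hv0 i
        have h8 : M.mulVec v i = S.mulVec v i + S i i * ∑ j, S j j * v j := by
          unfold Matrix.mulVec dotProduct
          rw [mul_sum, ← sum_add_distrib]
          refine sum_congr rfl fun j _ => ?_
          simp only [hM, Matrix.of_apply]
          ring
        rw [h8] at h7
        have h9 : ∀ a b : ZMod 2, a + b = 0 → a = b := by decide
        exact h9 _ _ h7
      rcases z2 (∑ j, S j j * v j) with h7 | h7
      · apply hS
        refine Matrix.exists_mulVec_eq_zero_iff.1 ⟨v, hv, ?_⟩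
        funext i
        rw [h6 i, h7, mul_zero]
        rfl
      · -- `v` and `x` agree
        have h8 : S.mulVec (v - fun j => x j.castSucc) = 0 := by
          rw [Matrix.mulVec_sub]
          funext i
          rw [Pi.sub_apply, h6 i, h3 i, h7, h5, sub_self]
          rfl
        have h9 : v = fun j => x j.castSucc := by
          by_contra hc
          exact hS (Matrix.exists_mulVec_eq_zero_iff.1 ⟨_, sub_ne_zero.2 hc, h8⟩)
        rw [h9] at h7
        simp only at h7
        rw [h1'] at h7
        exact zero_ne_one h7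
  · rintro ⟨v, hv, hv0⟩
    have h1 : ∑ i, S i i * v i = 0 := by
      rw [← diag_eq hs v, hv0]
      simp
    refine ⟨fun i => Fin.lastCases (motive := fun _ => ZMod 2) 0 v i, ?_, ?_⟩
    · intro h
      apply hv
      funext i
      have := congrFun h i.castSucc
      simpa using this
    · obtain ⟨h2, h3⟩ := hmul fun i => Fin.lastCases (motive := fun _ => ZMod 2) 0 v i
      simp only [Fin.lastCases_castSucc, Fin.lastCases_last] at h2 h3
      funext i
      refine Fin.lastCases ?_ (fun i => ?_) i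
      · rw [h2, h1]
        rfl
      · rw [h3 i, h1, mul_zero, add_zero, add_zero]
        exact congrFun hv0 i

/-- **ND-ALT.** -/
theorem t_ALT (hSYM : S_SYM) : S_ALT := by
  intro m
  rcases Nat.eq_zero_or_pos m with rfl | hm
  · have h1 : Nat.card {M : Matrix (Fin (2 * 0)) (Fin (2 * 0)) (ZMod 2) // M.IsSymm ∧
        (∀ i, M i i = 0) ∧ M.det ≠ 0} = 1 := by
      rw [Nat.card_eq_one_iff_unique]
      refine ⟨⟨fun a b => Subtype.ext (by ext i; exact i.elim0)⟩,
        ⟨⟨1, Matrix.isSymm_one, fun i => i.elim0, by simp⟩⟩⟩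
    rw [h1]
    simp
  · obtain ⟨n, rfl⟩ : ∃ n, m = n + 1 := ⟨m - 1, by omega⟩
    have hodd : Odd (2 * n + 1) := ⟨n, rfl⟩
    have h1 := hSYM (2 * n + 1)
    have e1 : (2 * n + 1 + 1) / 2 = n + 1 := by omega
    have e2 : (2 * n + 1) * (2 * n + 1 + 1) / 2 = (n + 1) * (2 * (n + 1) - 1) := by
      have : (2 * n + 1) * (2 * n + 1 + 1) = 2 * ((n + 1) * (2 * (n + 1) - 1)) := by
        have : 2 * (n + 1) - 1 = 2 * n + 1 := by omega
        rw [this]
        ring
      rw [this, Nat.mul_div_cancel_left _ (by norm_num)]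
    rw [e1, e2] at h1
    rw [← h1]
    have hsz : 2 * (n + 1) = 2 * n + 1 + 1 := by ring
    rw [hsz]
    congr 1
    refine (Nat.card_congr (Equiv.ofBijective
      (fun S : {M : Matrix (Fin (2 * n + 1)) (Fin (2 * n + 1)) (ZMod 2) // M.IsSymm ∧ M.det ≠ 0} =>
        (⟨hat S.1, hat_symm S.2.1, hat_diag S.1, (det_hat hodd S.2.1).2 S.2.2⟩ :
          {M : Matrix (Fin (2 * n + 1 + 1)) (Fin (2 * n + 1 + 1)) (ZMod 2) // M.IsSymm ∧
            (∀ i, M i i = 0) ∧ M.det ≠ 0})) ⟨?_, ?_⟩)).symm
    · rintro ⟨S, hS⟩ ⟨S', hS'⟩ h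
      rw [Subtype.mk.injEq] at h ⊢
      have hd : ∀ i, S i i = S' i i := fun i => by rw [← hat_lc S i, ← hat_lc S' i, h]
      ext i j
      have h2 := hat_cc S i j
      rw [h, hat_cc S' i j, hd i, hd j] at h2
      exact (add_right_cancel h2).symm
    · rintro ⟨M, hMs, hM0, hMd⟩
      set S : Matrix (Fin (2 * n + 1)) (Fin (2 * n + 1)) (ZMod 2) := Matrix.of fun i j =>
        M i.castSucc j.castSucc + M i.castSucc (Fin.last _) * M j.castSucc (Fin.last _) with hS
      have hSd : ∀ i, S i i = M i.castSucc (Fin.last _) := by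
        intro i
        simp only [hS, Matrix.of_apply]
        rw [hM0, z2_mul, zero_add]
      have hSs : S.IsSymm := by
        apply Matrix.IsSymm.ext
        intro i j
        simp only [hS, Matrix.of_apply]
        rw [hMs.apply i.castSucc j.castSucc, mul_comm (M j.castSucc _)]
      have hh : hat S = M := by
        ext i j
        refine Fin.lastCases ?_ (fun i => ?_) i <;> refine Fin.lastCases ?_ (fun j => ?_) j
        · rw [hat_ll, hM0]
        · rw [hat_lc, hSd, hMs.apply]
        · rw [hat_cl, hSd]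
        · rw [hat_cc, hSd, hSd]
          simp only [hS, Matrix.of_apply]
          rw [add_assoc, z2_add, add_zero]
      refine ⟨⟨S, hSs, (det_hat hodd hSs).1 (by rw [hh]; exact hMd)⟩, ?_⟩
      exact Subtype.ext hh

end Pool.Agent.N973.ND
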