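import Pool.Agent.N973.ND.LA1

/-!
# The form on the dual kernel
-/

set_option autoImplicit false
set_option linter.unusedSectionVars false

open scoped Classical

namespace Pool.Agent.N973.ND

open Finset

section gen

variable {V : Type} [Fintype V] {Sp Pc : Finset V} {N E : V → V → ZMod 2} {b : V → ZMod 2}

theorem Ph_add (s t : V → ZMod 2) (j : V) : Ph N b (s + t) j = Ph N b s j + Ph N b t j := by
  unfold Ph
  simp only [Pi.add_apply, add_mul, mul_add, sum_add_distrib]
  ring

theorem Ph_smul (a : ZMod 2) (s : V → ZMod 2) (j : V) : Ph N b (a • s) j = a * Ph N b s j := by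
  unfold Ph
  simp only [Pi.smul_apply, smul_eq_mul, mul_add, mul_sum]
  congr 1
  · exact sum_congr rfl fun i _ => by ring
  · ring

/-- the pairing of the two kernels -/
theorem pair (x s : V → ZMod 2) : ∑ j, x j * Ph N b s j = ∑ i, s i * rw' N b x i := by
  unfold Ph rw'
  have e1 : ∀ j, x j * (∑ i, s i * N i j + TT N b j * s j) =
      ∑ i, x j * (s i * N i j) + x j * (TT N b j * s j) := fun j => by rw [mul_add, mul_sum]
  have e2 : ∀ i, s i * (∑ j, N i j * x j + TT N b i * x i) =
      ∑ j, s i * (N i j * x j) + s i * (TT N b i * x i) := fun i => by rw [mul_add, mul_sum]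
  simp only [e1, e2, sum_add_distrib]
  congr 1
  · rw [sum_comm]
    exact sum_congr rfl fun i _ => sum_congr rfl fun j _ => by ring
  · exact sum_congr rfl fun j _ => by ring

/-- the dual kernel as a subspace -/
def ZZ (Sp Pc : Finset V) (N : V → V → ZMod 2) (b : V → ZMod 2) : Submodule (ZMod 2) (V → ZMod 2) where
  carrier := {s | Zk Sp Pc N b s}
  add_mem' := by
    rintro s t ⟨h1, h2⟩ ⟨h3, h4⟩
    refine ⟨fun i hi => ?_, fun j hj => ?_⟩
    · rw [Pi.add_apply, h1 i hi, h3 i hi, add_zero]
    · rw [Ph_add, h2 j hj, h4 j hj, add_zero]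
  zero_mem' := by
    refine ⟨fun i _ => rfl, fun j _ => ?_⟩
    unfold Ph
    simp
  smul_mem' := by
    rintro a s ⟨h1, h2⟩
    refine ⟨fun i hi => ?_, fun j hj => ?_⟩
    · rw [Pi.smul_apply, h1 i hi, smul_zero]
    · rw [Ph_smul, h2 j hj, mul_zero]

/-- the dimension of the dual kernel -/
theorem card_Z (h : ∀ x, Wk Sp Pc N b x → ∀ j, x j = 0) :
    Nat.card (ZZ Sp Pc N b) * 2 ^ Pc.card = 2 ^ Sp.card := by
  rw [Nat.card_eq_fintype_card]
  set L : ({i // i ∈ Sp} → ZMod 2) →ₗ[ZMod 2] ({j // j ∈ Pc} → ZMod 2) :=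
    { toFun := fun s j => Ph N b (ex s) j.1
      map_add' := fun x y => by
        funext v
        have e : ex (x + y) = ex x + ex y := funext (ex_add x y)
        rw [e, Ph_add]
        rfl
      map_smul' := fun a x => by
        funext v
        have e : ex (a • x) = a • ex x := funext (ex_smul a x)
        rw [e, Ph_smul]
        rfl } with hL
  have hind : ∀ a : {j // j ∈ Pc} → ZMod 2, (∀ s, ∑ ρ, a ρ * L s ρ = 0) → ∀ ρ, a ρ = 0 := by
    intro a ha
    have hW : Wk Sp Pc N b (ex a) := by
      refine ⟨fun j hj => ?_, fun i hi => ?_⟩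
      · unfold ex
        rw [dif_neg hj]
      · have h1 := ha (Pi.single ⟨i, hi⟩ 1)
        have h2 : ∑ ρ : {j // j ∈ Pc}, a ρ * L (Pi.single ⟨i, hi⟩ 1) ρ =
            ∑ j, ex a j * Ph N b (ex (Pi.single (⟨i, hi⟩ : {i // i ∈ Sp}) (1 : ZMod 2))) j := by
          rw [← Finset.sum_subset (subset_univ Pc)]
          · rw [← Finset.sum_coe_sort Pc]
            refine sum_congr rfl fun j _ => ?_
            have : ex a (j : V) = a j := by
              unfold ex
              rw [dif_pos j.2]
            rw [this]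
            rfl
          · intro j _ hj
            have : ex a j = 0 := by
              unfold ex
              rw [dif_neg hj]
            rw [this, zero_mul]
        rw [h1, pair] at h2
        have h3 : ∑ i' : V, ex (Pi.single (⟨i, hi⟩ : {i // i ∈ Sp}) (1 : ZMod 2)) i' *
            rw' N b (ex a) i' = rw' N b (ex a) i := by
          rw [sum_eq_single i]
          · rw [ex_single, if_pos rfl, one_mul]
          · intro j _ hj
            rw [ex_single, if_neg hj, zero_mul]
          · intro h; exact absurd (mem_univ _) h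
        rw [h3] at h2
        exact h2.symm
    intro ρ
    have h1 := h _ hW ρ.1
    unfold ex at h1
    rwa [dif_pos ρ.2] at h1
  have h1 := card_fib L hind 0
  rw [Fintype.card_coe, Fintype.card_fun, ZMod.card, Fintype.card_coe] at h1
  rw [← h1]
  congr 1
  rw [← Fintype.card_coe]
  refine Fintype.card_congr
    { toFun := fun s => ⟨fun i => s.1 i.1, ?_⟩
      invFun := fun s => ⟨ex s.1, ?_⟩
      left_inv := ?_
      right_inv := ?_ }
  · rw [mem_filter]
    refine ⟨mem_univ _, ?_⟩
    funext j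
    show Ph N b (ex fun i : {i // i ∈ Sp} => s.1 i) j.1 = 0
    rw [ex_res s.2.1]
    exact s.2.2 j.1 j.2
  · have h2 := (mem_filter.1 s.2).2
    refine ⟨fun i hi => ?_, fun j hj => ?_⟩
    · unfold ex
      rw [dif_neg hi]
    · exact congrFun h2 ⟨j, hj⟩
  · intro s
    exact Subtype.ext (ex_res s.2.1)
  · intro s
    apply Subtype.ext
    funext i
    show ex s.1 i.1 = s.1 i
    unfold ex
    rw [dif_pos i.2]

theorem bf_add (y s t : V → ZMod 2) : bf N E b y (s + t) = bf N E b y s + bf N E b y t := by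
  unfold bf
  simp only [Ph_add, Pi.add_apply, mul_add, sum_add_distrib]
  ring

theorem bf_smul (a : ZMod 2) (y s : V → ZMod 2) : bf N E b y (a • s) = a * bf N E b y s := by
  unfold bf
  simp only [Ph_smul, Pi.smul_apply, smul_eq_mul, mul_add, mul_sum]
  congr 1
  · congr 1
    · exact sum_congr rfl fun i _ => by ring
    · exact sum_congr rfl fun i _ => sum_congr rfl fun j _ => by ring
  · exact sum_congr rfl fun i _ => by ring

theorem bf_sum {ι : Type} [Fintype ι] (c : ι → ZMod 2) (z : ι → V → ZMod 2) (y : V → ZMod 2) :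
    bf N E b y (∑ i, c i • z i) = ∑ i, c i * bf N E b y (z i) := by
  set f : (V → ZMod 2) →ₗ[ZMod 2] ZMod 2 :=
    { toFun := fun s => bf N E b y s
      map_add' := bf_add y
      map_smul' := fun a s => bf_smul a y s } with hf
  have h1 := map_sum f (fun i => c i • z i) univ
  have h2 : ∀ s, f s = bf N E b y s := fun _ => rfl
  simp only [h2] at h1
  rw [h1]
  exact sum_congr rfl fun i _ => bf_smul _ _ _

theorem bf_comm (hE : ∀ i ∈ Sp, ∀ j ∈ Sp, E i j = E j i) {y s : V → ZMod 2}
    (hy : ∀ i, i ∉ Sp → y i = 0) (hs : ∀ i, i ∉ Sp → s i = 0) : bf N E b y s = bf N E b s y := by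
  unfold bf
  congr 1
  · congr 1
    · exact sum_congr rfl fun i _ => by ring
    · rw [sum_comm]
      refine sum_congr rfl fun i _ => sum_congr rfl fun j _ => ?_
      by_cases hi : i ∈ Sp
      · by_cases hj : j ∈ Sp
        · rw [hE i hi j hj]
          ring
        · rw [hy j hj]
          ring
      · rw [hs i hi]
        ring
  · exact sum_congr rfl fun i _ => by ring

/-- the form is alternating -/
theorem bf_self (hE : ∀ i ∈ Sp, ∀ j ∈ Sp, E i j = E j i) (h0 : ∀ i, E i i = 0)
    {s : V → ZMod 2} (hs : ∀ i, i ∉ Sp → s i = 0) : bf N E b s s = 0 := by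
  have h1 : ∑ i, ∑ j, s i * E i j * s j = 0 := by
    rw [← Fintype.sum_prod_type' (f := fun i j => s i * E i j * s j)]
    refine Finset.sum_involution (fun p _ => (p.2, p.1)) ?_ ?_ (fun _ _ => mem_univ _)
      fun p _ => rfl
    · rintro ⟨i, j⟩ _
      simp only
      by_cases hi : i ∈ Sp
      · by_cases hj : j ∈ Sp
        · rw [hE i hi j hj]
          have : s i * E j i * s j + s j * E j i * s i = s i * E j i * s j + s i * E j i * s j := by
            ring
          rw [this, z2_add]
        · rw [hs j hj]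
          ring
      · rw [hs i hi]
        ring
    · rintro ⟨i, j⟩ _ h2 h3
      apply h2
      have h4 : j = i := congrArg Prod.fst h3
      simp only
      rw [h4, h0, mul_zero, zero_mul]
  have h2 : ∑ j, Ph N b s j * Ph N b s j = ∑ i, b i * s i := by
    simp only [z2_mul]
    have h3 := pair (N := N) (b := b) (fun _ => 1) s
    simp only [one_mul] at h3
    rw [h3]
    refine sum_congr rfl fun i _ => ?_
    unfold rw' TT
    have h4 : ∑ j, N i j * 1 + (b i + ∑ j, N i j) * 1 = b i := by
      simp only [mul_one]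
      have h5 : ∀ x y : ZMod 2, x + (y + x) = y := by decide
      exact h5 _ _
    rw [h4]
    ring
  unfold bf
  rw [h1, h2]
  simp only [z2_mul]
  rw [add_zero, z2_add]

/-- the Gram matrix -/
def gm {n : ℕ} (N E : V → V → ZMod 2) (b : V → ZMod 2) (z : Fin n → V → ZMod 2) :
    Matrix (Fin n) (Fin n) (ZMod 2) := Matrix.of fun a c => bf N E b (z a) (z c)

/-- the form is not degenerate if and only if the Gram matrix is not singular -/
theorem nondeg_iff {n : ℕ} (hE : ∀ i ∈ Sp, ∀ j ∈ Sp, E i j = E j i)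
    (z : Module.Basis (Fin n) (ZMod 2) (ZZ Sp Pc N b)) :
    (∀ s, Zk Sp Pc N b s → (∀ y, Zk Sp Pc N b y → bf N E b y s = 0) → ∀ j, s j = 0) ↔
      (gm N E b fun a => (z a : V → ZMod 2)).det ≠ 0 := by
  have hmv : ∀ (c : Fin n → ZMod 2) (a : Fin n), (gm N E b fun a => (z a : V → ZMod 2)).mulVec c a =
      bf N E b (z a) (∑ i, c i • (z i : V → ZMod 2)) := by
    intro c a
    rw [bf_sum]
    show ∑ i, bf N E b (z a) (z i) * c i = _
    exact sum_congr rfl fun i _ => mul_comm _ _
  have hco : ∀ c : Fin n → ZMod 2, ((∑ i, c i • z i : ZZ Sp Pc N b) : V → ZMod 2) =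
      ∑ i, c i • (z i : V → ZMod 2) := by
    intro c
    rw [Submodule.coe_sum]
    rfl
  rw [← not_iff_not, not_not, ← Matrix.exists_mulVec_eq_zero_iff]
  constructor
  · intro h
    push Not at h
    obtain ⟨s, hs, h1, j, hj⟩ := h
    set s' : ZZ Sp Pc N b := ⟨s, hs⟩ with hs'
    have h2 : ∑ i, z.repr s' i • (z i : V → ZMod 2) = s := by
      rw [← hco, z.sum_repr]
    refine ⟨fun i => z.repr s' i, ?_, ?_⟩
    · intro h3
      apply hj
      rw [← h2]
      have h4 : ∀ i, z.repr s' i = 0 := fun i => congrFun h3 i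
      simp [h4]
    · funext a
      rw [hmv, h2]
      exact h1 _ (z a).2
  · rintro ⟨c, hc, hc0⟩ h
    apply hc
    have h1 := h (∑ i, c i • (z i : V → ZMod 2)) (by rw [← hco]; exact (∑ i, c i • z i).2) (by
      intro y hy
      have hS : Zk Sp Pc N b (∑ i, c i • (z i : V → ZMod 2)) := by
        rw [← hco]; exact (∑ i, c i • z i).2
      rw [bf_comm hE hy.1 hS.1]
      have h2 : ∑ i, z.repr ⟨y, hy⟩ i • (z i : V → ZMod 2) = y := by
        rw [← hco, z.sum_repr]
      rw [← h2, bf_sum]
      refine sum_eq_zero fun a _ => ?_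
      have h3 := congrFun hc0 a
      rw [hmv] at h3
      rw [bf_comm hE hS.1 (z a).2.1, h3]
      exact mul_zero _)
    have h2 : (∑ i, c i • z i : ZZ Sp Pc N b) = 0 := by
      apply Subtype.ext
      rw [hco]
      exact funext h1
    funext i
    have h3 := Fintype.linearIndependent_iff.1 z.linearIndependent c h2 i
    exact h3

end gen

/-! ### Alternating matrices from their entries above the diagonal -/

/-- the pairs -/
abbrev Pp (n : ℕ) : Type := {p : Fin n × Fin n // p.1 < p.2}

/-- the alternating matrix with given entries -/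
noncomputable def alt {n : ℕ} (r : Pp n → ZMod 2) : Matrix (Fin n) (Fin n) (ZMod 2) :=
  Matrix.of fun a c => if h : a < c then r ⟨(a, c), h⟩ else if h' : c < a then r ⟨(c, a), h'⟩ else 0

theorem alt_lt {n : ℕ} (r : Pp n → ZMod 2) {a c : Fin n} (h : a < c) :
    alt r a c = r ⟨(a, c), h⟩ := by
  unfold alt
  rw [Matrix.of_apply, dif_pos h]

theorem alt_gt {n : ℕ} (r : Pp n → ZMod 2) {a c : Fin n} (h : c < a) :
    alt r a c = r ⟨(c, a), h⟩ := by
  unfold alt
  rw [Matrix.of_apply, dif_neg (lt_asymm h), dif_pos h]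

theorem alt_self {n : ℕ} (r : Pp n → ZMod 2) (a : Fin n) : alt r a a = 0 := by
  unfold alt
  rw [Matrix.of_apply, dif_neg (lt_irrefl _), dif_neg (lt_irrefl _)]

theorem alt_symm {n : ℕ} (r : Pp n → ZMod 2) : (alt r).IsSymm := by
  apply Matrix.IsSymm.ext
  intro a c
  rcases lt_trichotomy a c with h | h | h
  · rw [alt_lt r h, alt_gt r h]
  · rw [h]
  · rw [alt_lt r h, alt_gt r h]

theorem alt_of {n : ℕ} {M : Matrix (Fin n) (Fin n) (ZMod 2)} (hs : M.IsSymm)
    (h0 : ∀ i, M i i = 0) : alt (fun p => M p.1.1 p.1.2) = M := by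
  ext a c
  rcases lt_trichotomy a c with h | h | h
  · rw [alt_lt _ h]
  · subst h
    rw [alt_self, h0]
  · rw [alt_gt _ h]
    exact hs.apply _ _

theorem alt_add {n : ℕ} (r r' : Pp n → ZMod 2) : alt (r + r') = alt r + alt r' := by
  ext a c
  rw [Matrix.add_apply]
  rcases lt_trichotomy a c with h | h | h
  · rw [alt_lt _ h, alt_lt _ h, alt_lt _ h]
    rfl
  · subst h
    rw [alt_self, alt_self, alt_self, add_zero]
  · rw [alt_gt _ h, alt_gt _ h, alt_gt _ h]
    rfl

theorem alt_inj {n : ℕ} {r r' : Pp n → ZMod 2} (h : alt r = alt r') : r = r' := by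
  funext p
  have := congrFun (congrFun h p.1.1) p.1.2
  rw [alt_lt _ p.2, alt_lt _ p.2] at this
  exact this

/-- a sum over the pairs -/
theorem sum_alt {n : ℕ} (r : Pp n → ZMod 2) (F : Fin n → Fin n → ZMod 2) :
    ∑ p : Pp n, r p * (F p.1.1 p.1.2 + F p.1.2 p.1.1) = ∑ a, ∑ c, alt r a c * F a c := by
  rw [← Fintype.sum_prod_type' (f := fun a c => alt r a c * F a c)]
  have h1 : (univ : Finset (Fin n × Fin n)) = univ.filter (fun p => p.1 < p.2) ∪
      (univ.filter (fun p => p.2 < p.1) ∪ univ.filter fun p => p.1 = p.2) := by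
    ext p
    simp only [mem_union, mem_filter, mem_univ, true_and, true_iff]
    exact lt_trichotomy p.1 p.2 |>.elim Or.inl fun h => h.elim (fun h => Or.inr (Or.inr h))
      fun h => Or.inr (Or.inl h)
  have d1 : Disjoint (univ.filter fun p : Fin n × Fin n => p.1 < p.2)
      (univ.filter (fun p => p.2 < p.1) ∪ univ.filter fun p => p.1 = p.2) := by
    rw [disjoint_left]
    intro p hp hp'
    simp only [mem_union, mem_filter, mem_univ, true_and] at hp hp'
    rcases hp' with h | h
    · exact lt_asymm hp h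
    · exact absurd h hp.ne
  have d2 : Disjoint (univ.filter fun p : Fin n × Fin n => p.2 < p.1)
      (univ.filter fun p => p.1 = p.2) := by
    rw [disjoint_left]
    intro p hp hp'
    simp only [mem_filter, mem_univ, true_and] at hp hp'
    exact absurd hp'.symm hp.ne
  rw [h1, sum_union d1, sum_union d2]
  have e3 : ∑ p ∈ univ.filter (fun p : Fin n × Fin n => p.1 = p.2), alt r p.1 p.2 * F p.1 p.2 =
      0 := by
    refine sum_eq_zero fun p hp => ?_
    rw [mem_filter] at hp
    rw [← hp.2, alt_self, zero_mul]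
  have e1 : ∑ p ∈ univ.filter (fun p : Fin n × Fin n => p.1 < p.2), alt r p.1 p.2 * F p.1 p.2 =
      ∑ p : Pp n, r p * F p.1.1 p.1.2 := by
    refine Finset.sum_bij' (fun p hp => (⟨p, (mem_filter.1 hp).2⟩ : Pp n)) (fun p _ => p.1)
      (fun _ _ => mem_univ _) (fun p _ => mem_filter.2 ⟨mem_univ _, p.2⟩) (fun _ _ => rfl)
      (fun _ _ => rfl) fun p hp => ?_
    rw [alt_lt r (mem_filter.1 hp).2]
  have e2 : ∑ p ∈ univ.filter (fun p : Fin n × Fin n => p.2 < p.1), alt r p.1 p.2 * F p.1 p.2 =
      ∑ p : Pp n, r p * F p.1.2 p.1.1 := by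
    refine Finset.sum_bij' (fun p hp => (⟨(p.2, p.1), (mem_filter.1 hp).2⟩ : Pp n))
      (fun p _ => (p.1.2, p.1.1))
      (fun _ _ => mem_univ _) (fun p _ => mem_filter.2 ⟨mem_univ _, p.2⟩) (fun _ _ => rfl)
      (fun _ _ => rfl) fun p hp => ?_
    rw [alt_gt r (mem_filter.1 hp).2]
  rw [e1, e2, e3, add_zero, ← sum_add_distrib]
  exact sum_congr rfl fun p _ => by ring

end Pool.Agent.N973.ND
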